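import Pool.Agent.RC.Defs

/-!
# Module REP: every ideal class contains an integral ideal prime to a given ideal

PAPER PROOF. Let `A` be a class, `I` an integral ideal with `mk0 I = A` (`ClassGroup.mk0_surjective`). By
`IsDedekindDomain.exists_sup_span_eq` (applied to `I 𝔪 ≤ I`, `I 𝔪 ≠ 0`) there is `x` with `I 𝔪 ⊔ (x) = I`. If `x = 0` then `I 𝔪 = I`,
so `𝔪 = ⊤` and every ideal is prime to `𝔪`; take any `J` in the class `A⁻¹`. If `x ≠ 0`, then `x ∈ I`, so `(x) = I J` for an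
integral ideal `J ≠ 0`, of class `A⁻¹`, and `I (𝔪 ⊔ J) = I`, so `𝔪 ⊔ J = ⊤`.
`cop_mul`: `IsCoprime.mul_left_iff` or so.
-/

open scoped NumberField nonZeroDivisors
open NumberField Pool.ZD Pool.HDZ Pool.DM

namespace Pool.RC

variable (K : Type) [Field K] [NumberField K] (𝔪 : (Ideal (𝓞 K))⁰)

theorem cop_mul (I J : (Ideal (𝓞 K))⁰) : Cop K 𝔪 (I * J) ↔ Cop K 𝔪 I ∧ Cop K 𝔪 J := by
  unfold Cop
  rw [Submonoid.coe_mul]
  exact IsCoprime.mul_left_iff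

theorem exists_cop (A : ClassGroup (𝓞 K)) : ∃ J : (Ideal (𝓞 K))⁰, ClassGroup.mk0 J = A ∧
    Cop K 𝔪 J := by
  obtain ⟨I, hI⟩ := ClassGroup.mk0_surjective A⁻¹
  have hI0 : (I : Ideal (𝓞 K)) ≠ 0 := nonZeroDivisors.coe_ne_zero I
  have h𝔪 : (𝔪 : Ideal (𝓞 K)) ≠ 0 := nonZeroDivisors.coe_ne_zero 𝔪
  obtain ⟨x, hx⟩ := IsDedekindDomain.exists_sup_span_eq
    (I := (I : Ideal (𝓞 K)) * (𝔪 : Ideal (𝓞 K))) (J := (I : Ideal (𝓞 K))) Ideal.mul_le_left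
    (mul_ne_zero hI0 h𝔪)
  by_cases hx0 : x = 0
  · subst hx0
    have h1 : (I : Ideal (𝓞 K)) * (𝔪 : Ideal (𝓞 K)) = I * 1 := by
      rw [mul_one]
      simpa using hx
    have h2 : (𝔪 : Ideal (𝓞 K)) = 1 := mul_left_cancel₀ hI0 h1
    obtain ⟨J, hJ⟩ := ClassGroup.mk0_surjective A
    refine ⟨J, hJ, ?_⟩
    unfold Cop
    rw [h2]
    exact isCoprime_one_right
  · have hxI : Ideal.span {x} ≤ (I : Ideal (𝓞 K)) := by
      rw [← hx]
      exact le_sup_right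
    obtain ⟨J', hJ'⟩ := Ideal.dvd_iff_le.mpr hxI
    have hJ0 : J' ≠ 0 := by
      rintro rfl
      rw [mul_zero] at hJ'
      exact hx0 (by simpa using hJ')
    let J : (Ideal (𝓞 K))⁰ := ⟨J', mem_nonZeroDivisors_of_ne_zero hJ0⟩
    refine ⟨J, ?_, ?_⟩
    · have h1 : ClassGroup.mk0 (I * J) = 1 := by
        rw [ClassGroup.mk0_eq_one_iff]
        refine ⟨⟨x, ?_⟩⟩
        change (I : Ideal (𝓞 K)) * J' = _
        rw [← hJ']
      rw [map_mul, hI] at h1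
      exact (inv_mul_eq_one.mp h1).symm
    · unfold Cop
      rw [Ideal.isCoprime_iff_sup_eq]
      have h1 : (I : Ideal (𝓞 K)) * ((𝔪 : Ideal (𝓞 K)) ⊔ J') = I * ⊤ := by
        rw [Ideal.mul_sup, ← hJ', hx, Ideal.mul_top]
      have h2 := mul_left_cancel₀ hI0 h1
      rw [sup_comm]
      exact h2

theorem exists_reps : ∃ J : ClassGroup (𝓞 K) → (Ideal (𝓞 K))⁰, Reps K 𝔪 J := by
  choose f hf using fun A : ClassGroup (𝓞 K) => exists_cop K 𝔪 A⁻¹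
  exact ⟨f, hf⟩

end Pool.RC
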