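import Pool.Agent.RC.Types
import Pool.Agent.RC.Rep

/-!
# Module ORTH: orthogonality and Bessel's inequality for the ray class characters

PAPER PROOF. `sum_vv`: let `χ` be a ray class character that is not principal. The sum factors as
`(∑_A conj χ(J A)) (∑_β vt χ β)`.
 * If `vt χ` is not constant `1`, pick `γ` with `vt χ γ ≠ 1`; `∑_β vt χ β = ∑_β vt χ (γ β) = vt χ γ ∑_β vt χ β` (`vt_mul`), so the sum is `0`.
 * Otherwise `χ (pr x) = 1` for all `x ≠ 0` prime to `𝔪` (`exists_ty_iff`, `vt_eq`). If `I`, `I'` are ideals prime to `𝔪` of the same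
   class then `χ I = χ I'`: choose `M` prime to `𝔪` of the inverse class (`exists_cop`), then `I M`, `I' M` are principal, generated by
   nonzero elements prime to `𝔪`, so `χ (I) χ (M) = 1 = χ (I') χ (M)`. Since `χ` is not principal there is `I₀` prime to `𝔪` with `χ I₀ ≠ 1`.
   The function `f (A) = conj χ(J A)` satisfies `f (A B) = conj (χ (I₀)) f (A)` for `B` with `J (A B)` of the same class as `J A * I₀`, i.e.
   `B = (mk0 I₀)⁻¹`; so `∑_A f (A) = conj (χ I₀) ∑_A f (A)` and the sum is `0`.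

`bessel_vv`: `∑_p vv χ p * conj (vv χ' p) = N δ_{χ χ'}` with `N = classNumber K * card (Ty K 𝔪)`: for `χ = χ'` every term is `1`
(`norm_vt`, `‖χ (J A)‖ = 1`); for `χ ≠ χ'` the product `χ * conj χ'` (`(χ * conj χ') I = χ I * conj (χ' I)`, a monoid hom) is a ray class
character, not principal (else `χ = χ'` on all ideals), and `vv (χ * conj χ') p = vv χ p * conj (vv χ' p)`, so `sum_vv` applies. Bessel's inequality for the
orthogonal family of vectors `conj (vv χ)` of square length `N`: with `a χ = ∑_p vv χ p * E p`,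
`0 ≤ ∑_p ‖E p - N⁻¹ ∑_{χ ∈ F} a χ conj (vv χ p)‖² = ∑ ‖E p‖² - N⁻¹ ∑_{χ ∈ F} ‖a χ‖²`. (Or Mathlib: `Orthonormal.sum_inner_products_le`.)

`card_Ty_le`: `card (𝓞 K ⧸ 𝔪)ˣ ≤ card (𝓞 K ⧸ 𝔪) = absNorm 𝔪` and `card (RP K → ℤˣ) = 2 ^ nrRealPlaces K ≤ 2 ^ m`.
-/

open scoped NumberField nonZeroDivisors ENNReal
open NumberField Pool.ZD Pool.HDZ Pool.DM

namespace Pool.RC

variable (K : Type) [Field K] [NumberField K] (𝔪 : (Ideal (𝓞 K))⁰)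

/-- The vector attached to a ray class character. -/
noncomputable def vv (J : ClassGroup (𝓞 K) → (Ideal (𝓞 K))⁰) (χ : DM.Mul K)
    (p : ClassGroup (𝓞 K) × Ty K 𝔪) : ℂ :=
  (starRingEnd ℂ) (χ (J p.1)) * vt K 𝔪 χ p.2

namespace Orth

/-- A sum over a finite group of a function that is multiplied by `c ≠ 1` under a translation. -/
lemma sum_zero {G : Type} [Group G] [Fintype G] (f : G → ℂ) (g : G) (c : ℂ) (hc : c ≠ 1)
    (h : ∀ x, f (g * x) = c * f x) : ∑ x, f x = 0 := by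
  have h1 : ∑ x, f x = c * ∑ x, f x := by
    rw [Finset.mul_sum, ← Equiv.sum_comp (Equiv.mulLeft g) f]
    exact Finset.sum_congr rfl fun x _ => h x
  have h2 : (1 - c) * ∑ x, f x = 0 := by linear_combination h1
  rcases mul_eq_zero.1 h2 with h3 | h3
  · exact absurd (sub_eq_zero.1 h3).symm hc
  · exact h3

variable {K} {𝔪} in
/-- An ideal of trivial class is principal. -/
lemma exists_pr (I : (Ideal (𝓞 K))⁰) (h : ClassGroup.mk0 I = 1) :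
    ∃ x : 𝓞 K, x ≠ 0 ∧ pr K x = I := by
  obtain ⟨I, hI⟩ := I
  rw [ClassGroup.mk0_eq_one_iff hI] at h
  obtain ⟨x, hx⟩ := h
  have hx0 : x ≠ 0 := by
    rintro rfl
    apply nonZeroDivisors.ne_zero hI
    rw [hx]
    simp
  refine ⟨x, hx0, Subtype.ext ?_⟩
  rw [coe_pr K x hx0]
  exact hx.symm

variable {K} {𝔪} in
/-- If `χ` is trivial on principal ideals it depends only on the class. -/
lemma eq_of_class (χ : DM.Mul K) (hχ : IsRay K 𝔪 χ) (h1 : ∀ β : Ty K 𝔪, vt K 𝔪 χ β = 1)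
    {I I' : (Ideal (𝓞 K))⁰} (hI : Cop K 𝔪 I) (hI' : Cop K 𝔪 I')
    (h : ClassGroup.mk0 I = ClassGroup.mk0 I') : χ I = χ I' := by
  have key : ∀ N : (Ideal (𝓞 K))⁰, Cop K 𝔪 N → ClassGroup.mk0 N = 1 → χ N = 1 := by
    intro N hN hc
    obtain ⟨x, hx, rfl⟩ := exists_pr N hc
    obtain ⟨β, hβ⟩ := (exists_ty_iff K 𝔪 x hx).2 hN
    rw [← vt_eq K 𝔪 χ hχ hx hβ, h1]
  obtain ⟨M, hM, hM'⟩ := exists_cop K 𝔪 (ClassGroup.mk0 I)⁻¹
  have e1 : χ I * χ M = 1 := by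
    rw [← map_mul]
    apply key _ ((cop_mul K 𝔪 I M).2 ⟨hI, hM'⟩)
    rw [map_mul, hM, mul_inv_cancel]
  have e2 : χ I' * χ M = 1 := by
    rw [← map_mul]
    apply key _ ((cop_mul K 𝔪 I' M).2 ⟨hI', hM'⟩)
    rw [map_mul, hM, h, mul_inv_cancel]
  have hM0 : χ M ≠ 0 := right_ne_zero_of_mul_eq_one e1
  exact mul_right_cancel₀ hM0 (e1.trans e2.symm)

end Orth

open Orth

theorem sum_vv (J : ClassGroup (𝓞 K) → (Ideal (𝓞 K))⁰) (hJ : Reps K 𝔪 J) (χ : DM.Mul K)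
    (hχ : IsRay K 𝔪 χ) (hχ' : ¬ IsPrin K 𝔪 χ) :
    ∑ p : ClassGroup (𝓞 K) × Ty K 𝔪, vv K 𝔪 J χ p = 0 := by
  have hfac : ∑ p : ClassGroup (𝓞 K) × Ty K 𝔪, vv K 𝔪 J χ p =
      (∑ A : ClassGroup (𝓞 K), (starRingEnd ℂ) (χ (J A))) * ∑ β : Ty K 𝔪, vt K 𝔪 χ β := by
    rw [Finset.sum_mul_sum, ← Finset.sum_product', Finset.univ_product_univ]
    rfl
  rw [hfac]
  by_cases h1 : ∀ β : Ty K 𝔪, vt K 𝔪 χ β = 1
  · have hI₀ : ∃ I, Cop K 𝔪 I ∧ χ I ≠ 1 := by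
      by_contra hcon
      apply hχ'
      intro I hI
      by_contra hne
      exact hcon ⟨I, hI, hne⟩
    obtain ⟨I₀, hI₀, hne⟩ := hI₀
    have h2 : ∑ A : ClassGroup (𝓞 K), (starRingEnd ℂ) (χ (J A)) = 0 := by
      apply sum_zero _ (ClassGroup.mk0 I₀)⁻¹ ((starRingEnd ℂ) (χ I₀))
      · intro h
        apply hne
        have := congrArg (starRingEnd ℂ) h
        rwa [Complex.conj_conj, map_one] at this
      · intro A
        rw [← map_mul, ← map_mul]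
        congr 1
        apply eq_of_class χ hχ h1 (hJ _).2 ((cop_mul K 𝔪 _ _).2 ⟨hI₀, (hJ A).2⟩)
        rw [(hJ _).1, map_mul, (hJ A).1]
        rw [mul_inv, inv_inv]
    rw [h2, zero_mul]
  · have : ∃ γ : Ty K 𝔪, vt K 𝔪 χ γ ≠ 1 := by
      by_contra hcon
      exact h1 fun β => by
        by_contra hne
        exact hcon ⟨β, hne⟩
    obtain ⟨γ, hγ⟩ := this
    rw [sum_zero (fun β => vt K 𝔪 χ β) γ _ hγ (fun β => vt_mul K 𝔪 χ hχ γ β), mul_zero]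

namespace Orth

variable {K} in
/-- The product of a character with the conjugate of another one. -/
noncomputable def cc (χ χ' : DM.Mul K) : DM.Mul K :=
  χ * ((starRingEnd ℂ : ℂ →+* ℂ) : ℂ →* ℂ).comp χ'

omit [NumberField K] in
variable {K} in
lemma cc_apply (χ χ' : DM.Mul K) (I : (Ideal (𝓞 K))⁰) :
    cc χ χ' I = χ I * (starRingEnd ℂ) (χ' I) := rfl

variable {K} {𝔪} in
lemma isRay_cc (χ χ' : DM.Mul K) (hχ : IsRay K 𝔪 χ) (hχ' : IsRay K 𝔪 χ') :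
    IsRay K 𝔪 (cc χ χ') := by
  refine ⟨fun I hI => ?_, fun I hI => ?_, fun a ha h1 h2 => ?_⟩
  · rw [cc_apply, norm_mul, RCLike.norm_conj, hχ.1 I hI, hχ'.1 I hI, one_mul]
  · rw [cc_apply, hχ.2.1 I hI, zero_mul]
  · rw [cc_apply, hχ.2.2 a ha h1 h2, hχ'.2.2 a ha h1 h2, map_one, one_mul]

lemma mul_conj_one {z : ℂ} (h : ‖z‖ = 1) : z * (starRingEnd ℂ) z = 1 := by
  rw [Complex.mul_conj, Complex.normSq_eq_norm_sq, h]
  simp

variable {K} {𝔪} in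
lemma not_isPrin_cc (χ χ' : DM.Mul K) (hχ : IsRay K 𝔪 χ) (hχ' : IsRay K 𝔪 χ') (hne : χ ≠ χ') :
    ¬ IsPrin K 𝔪 (cc χ χ') := by
  intro h
  apply hne
  ext I
  by_cases hI : Cop K 𝔪 I
  · have h1 := h I hI
    rw [cc_apply] at h1
    have h2 := mul_conj_one (hχ'.1 I hI)
    have h3 : (starRingEnd ℂ) (χ' I) ≠ 0 := right_ne_zero_of_mul_eq_one h1
    exact mul_right_cancel₀ h3 (h1.trans h2.symm)
  · rw [hχ.2.1 I hI, hχ'.2.1 I hI]

variable {K} {𝔪} in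
lemma vv_cc (J : ClassGroup (𝓞 K) → (Ideal (𝓞 K))⁰) (χ χ' : DM.Mul K)
    (p : ClassGroup (𝓞 K) × Ty K 𝔪) :
    vv K 𝔪 J (cc χ χ') p = vv K 𝔪 J χ p * (starRingEnd ℂ) (vv K 𝔪 J χ' p) := by
  unfold vv vt
  rw [cc_apply, cc_apply, map_mul, map_mul]
  ring

variable {K} {𝔪} in
lemma norm_vv (J : ClassGroup (𝓞 K) → (Ideal (𝓞 K))⁰) (hJ : Reps K 𝔪 J) (χ : DM.Mul K)
    (hχ : IsRay K 𝔪 χ) (p : ClassGroup (𝓞 K) × Ty K 𝔪) : ‖vv K 𝔪 J χ p‖ = 1 := by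
  unfold vv
  rw [norm_mul, RCLike.norm_conj, hχ.1 _ (hJ p.1).2, norm_vt K 𝔪 χ hχ, one_mul]

variable {K} {𝔪} in
/-- Orthogonality. -/
lemma orth (J : ClassGroup (𝓞 K) → (Ideal (𝓞 K))⁰) (hJ : Reps K 𝔪 J) (χ χ' : DM.Mul K)
    (hχ : IsRay K 𝔪 χ) (hχ' : IsRay K 𝔪 χ') (hne : χ ≠ χ') :
    ∑ p : ClassGroup (𝓞 K) × Ty K 𝔪, vv K 𝔪 J χ p * (starRingEnd ℂ) (vv K 𝔪 J χ' p) = 0 := by
  rw [← sum_vv K 𝔪 J hJ (cc χ χ') (isRay_cc χ χ' hχ hχ') (not_isPrin_cc χ χ' hχ hχ' hne)]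
  exact Finset.sum_congr rfl fun p _ => (vv_cc J χ χ' p).symm

end Orth

theorem bessel_vv (J : ClassGroup (𝓞 K) → (Ideal (𝓞 K))⁰) (hJ : Reps K 𝔪 J)
    (F : Finset (DM.Mul K)) (hF : ∀ χ ∈ F, IsRay K 𝔪 χ)
    (E : ClassGroup (𝓞 K) × Ty K 𝔪 → ℂ) :
    ∑ χ ∈ F, ‖∑ p : ClassGroup (𝓞 K) × Ty K 𝔪, vv K 𝔪 J χ p * E p‖ ^ 2 ≤
      (classNumber K * Fintype.card (Ty K 𝔪)) * ∑ p, ‖E p‖ ^ 2 := by
  classical
  set N : ℝ := (classNumber K * Fintype.card (Ty K 𝔪) : ℝ) with hN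
  have hcard : (Fintype.card (ClassGroup (𝓞 K) × Ty K 𝔪) : ℝ) = N := by
    rw [Fintype.card_prod, Nat.cast_mul]
    rfl
  have hNpos : 0 < N := by
    rw [← hcard]
    exact_mod_cast Fintype.card_pos
  have hs : (√N : ℝ) ≠ 0 := (Real.sqrt_pos.2 hNpos).ne'
  have hs2 : (√N : ℝ) * √N = N := Real.mul_self_sqrt hNpos.le
  -- the orthonormal family
  let v : F → EuclideanSpace ℂ (ClassGroup (𝓞 K) × Ty K 𝔪) := fun χ =>
    WithLp.toLp 2 fun p => (((√N : ℝ)⁻¹ : ℝ) : ℂ) * (starRingEnd ℂ) (vv K 𝔪 J χ.1 p)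
  let X : EuclideanSpace ℂ (ClassGroup (𝓞 K) × Ty K 𝔪) := WithLp.toLp 2 E
  have hin : ∀ (χ : F) (Y : EuclideanSpace ℂ (ClassGroup (𝓞 K) × Ty K 𝔪)),
      inner ℂ (v χ) Y = (((√N : ℝ)⁻¹ : ℝ) : ℂ) * ∑ p, vv K 𝔪 J χ.1 p * Y p := by
    intro χ Y
    rw [PiLp.inner_apply, Finset.mul_sum]
    refine Finset.sum_congr rfl fun p _ => ?_
    rw [RCLike.inner_apply]
    show Y p * (starRingEnd ℂ) ((((√N : ℝ)⁻¹ : ℝ) : ℂ) * (starRingEnd ℂ) (vv K 𝔪 J χ.1 p)) = _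
    rw [map_mul, Complex.conj_ofReal, Complex.conj_conj]
    ring
  have hon : Orthonormal ℂ v := by
    rw [orthonormal_iff_ite]
    intro χ χ'
    rw [hin]
    have e : ∑ p, vv K 𝔪 J χ.1 p * (v χ') p = (((√N : ℝ)⁻¹ : ℝ) : ℂ) *
        ∑ p, vv K 𝔪 J χ.1 p * (starRingEnd ℂ) (vv K 𝔪 J χ'.1 p) := by
      rw [Finset.mul_sum]
      refine Finset.sum_congr rfl fun p _ => ?_
      show _ * ((((√N : ℝ)⁻¹ : ℝ) : ℂ) * (starRingEnd ℂ) (vv K 𝔪 J χ'.1 p)) = _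
      ring
    rw [e]
    by_cases h : χ = χ'
    · rw [if_pos h, ← h]
      have : ∑ p, vv K 𝔪 J χ.1 p * (starRingEnd ℂ) (vv K 𝔪 J χ.1 p) = (N : ℂ) := by
        rw [Finset.sum_congr rfl fun p _ => mul_conj_one (norm_vv J hJ χ.1 (hF _ χ.2) p)]
        rw [Finset.sum_const, Finset.card_univ, nsmul_eq_mul, mul_one, ← hcard]
        simp
      rw [this]
      have e3 : (√N)⁻¹ * ((√N)⁻¹ * N) = 1 := by
        calc (√N)⁻¹ * ((√N)⁻¹ * N) = (√N * √N)⁻¹ * N := by rw [mul_inv]; ring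
          _ = 1 := by rw [hs2]; exact inv_mul_cancel₀ hNpos.ne'
      rw [← Complex.ofReal_mul, ← Complex.ofReal_mul, e3]
      simp
    · rw [if_neg h, orth J hJ χ.1 χ'.1 (hF _ χ.2) (hF _ χ'.2) (fun h' => h (Subtype.ext h'))]
      simp
  have hb := hon.sum_inner_products_le (x := X) (s := Finset.univ)
  have e1 : ∑ χ : F, ‖inner ℂ (v χ) X‖ ^ 2 = N⁻¹ *
      ∑ χ ∈ F, ‖∑ p : ClassGroup (𝓞 K) × Ty K 𝔪, vv K 𝔪 J χ p * E p‖ ^ 2 := by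
    rw [← Finset.sum_coe_sort F, Finset.mul_sum]
    refine Finset.sum_congr rfl fun χ _ => ?_
    rw [hin, norm_mul, mul_pow]
    congr 1
    rw [Complex.norm_real, Real.norm_eq_abs, sq_abs, inv_pow, sq, hs2]
  have e2 : ‖X‖ ^ 2 = ∑ p, ‖E p‖ ^ 2 := by
    rw [EuclideanSpace.norm_sq_eq]
  rw [e1, e2] at hb
  calc ∑ χ ∈ F, ‖∑ p : ClassGroup (𝓞 K) × Ty K 𝔪, vv K 𝔪 J χ p * E p‖ ^ 2
      = N * (N⁻¹ * ∑ χ ∈ F, ‖∑ p : ClassGroup (𝓞 K) × Ty K 𝔪, vv K 𝔪 J χ p * E p‖ ^ 2) := by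
        field_simp
    _ ≤ N * ∑ p, ‖E p‖ ^ 2 := mul_le_mul_of_nonneg_left hb hNpos.le

theorem card_Ty_le : (Fintype.card (Ty K 𝔪) : ℝ) ≤ 2 ^ Module.finrank ℚ K * nm K 𝔪 := by
  have h1 : Fintype.card (Ty K 𝔪) = Nat.card ((𝓞 K ⧸ (𝔪 : Ideal (𝓞 K)))ˣ) *
      Nat.card (RP K → ℤˣ) := by
    rw [← Nat.card_eq_fintype_card, Nat.card_prod]
  have h2 : Nat.card ((𝓞 K ⧸ (𝔪 : Ideal (𝓞 K)))ˣ) ≤ Ideal.absNorm (𝔪 : Ideal (𝓞 K)) := by
    rw [Ideal.absNorm_apply, Submodule.cardQuot_apply]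
    exact Nat.card_le_card_of_injective _ Units.val_injective
  have h3 : Nat.card (RP K → ℤˣ) ≤ 2 ^ Module.finrank ℚ K := by
    classical
    rw [Nat.card_fun, Nat.card_eq_fintype_card (α := ℤˣ), Fintype.card_units_int]
    apply Nat.pow_le_pow_right (by norm_num)
    have h5 : Nat.card (RP K) = NumberField.InfinitePlace.nrRealPlaces K :=
      Nat.card_eq_fintype_card
    have h6 := NumberField.InfinitePlace.card_add_two_mul_card_eq_rank K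
    omega
  have h4 : (Fintype.card (Ty K 𝔪) : ℝ) ≤
      ((Ideal.absNorm (𝔪 : Ideal (𝓞 K)) * 2 ^ Module.finrank ℚ K : ℕ) : ℝ) := by
    rw [h1]
    exact_mod_cast Nat.mul_le_mul h2 h3
  refine h4.trans (le_of_eq ?_)
  push_cast
  rw [mul_comm]
  rfl

theorem card_Ty_pos : (1 : ℝ) ≤ Fintype.card (Ty K 𝔪) := by
  exact_mod_cast Fintype.card_pos

end Pool.RC
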