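import Pool.Agent.RC.Wt
import Pool.Agent.RC.Orth

/-!
# Module DECOMP: character sums over ideals in terms of the weighted sums

PAPER PROOF. `c` has finite support, so all sums are finite. For a class `A` with `J = J A`,
`∑_β conj χ(J) vt χ β EE (A, β) = ∑_{I ∈ Cls A} c(I) conj χ(J) ∑_β vt χ β qw β I = ∑_{I ∈ Cls A} c(I) conj χ(J) χ(I) χ(J) ∑_β (qw β I).toReal` (`vt_qw`). If `I` is prime to `𝔪` the last sum is
`w cK` (`sum_qw`, `qw_lt_top`, `ENNReal.toReal_sum`) and `conj χ(J) χ(J) = 1`; if not, `χ(I) = 0`. Sum over the classes (every ideal has exactly one class;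
compare `tsum_fibers` in `Pool/Agent/HDZ/Mean.lean`).
-/

open scoped NumberField nonZeroDivisors ENNReal
open NumberField NumberField.InfinitePlace NumberField.mixedEmbedding NumberField.Units
  NumberField.Units.dirichletUnitTheorem MeasureTheory Pool.ZD Pool.HDZ Pool.DM

namespace Pool.RC

open scoped Classical in
theorem decomp (K : Type) [Field K] [NumberField K] (𝔪 : (Ideal (𝓞 K))⁰)
    (J : ClassGroup (𝓞 K) → (Ideal (𝓞 K))⁰) (hJ : Reps K 𝔪 J) (cK : ℝ) (hc : 0 ≤ cK)
    (hint : ∀ x : mixedSpace K, mixedEmbedding.norm x ≠ 0 →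
      ∫⁻ t : logSpace K, ENNReal.ofReal (PhiS K (fun _ => 1) (sg K t * x)) = ENNReal.ofReal cK)
    (χ : DM.Mul K) (hχ : IsRay K 𝔪 χ) (Z : ℝ) (hZ : 0 < Z) (c : (Ideal (𝓞 K))⁰ → ℂ)
    (hfin : {I | c I ≠ 0}.Finite) :
    (torsionOrder K * cK : ℂ) * ∑' I, c I * χ I =
      ∑ p : ClassGroup (𝓞 K) × Ty K 𝔪, vv K 𝔪 J χ p * EE K 𝔪 (J p.1) p.1 Z p.2 c := by
  -- one class
  have hclass : ∀ A : ClassGroup (𝓞 K), ∑ β : Ty K 𝔪, vv K 𝔪 J χ (A, β) *
      EE K 𝔪 (J A) A Z β c = (torsionOrder K * cK : ℂ) * ∑' I : Cls K A, c I * χ I := by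
    intro A
    obtain ⟨hJ1, hJ2⟩ := hJ A
    -- summability
    have hfinA : ∀ f : Cls K A → ℂ, (∀ I : Cls K A, c I = 0 → f I = 0) → Summable f := by
      intro f hf
      have h1 : {I : Cls K A | c I ≠ 0}.Finite :=
        hfin.preimage (Subtype.coe_injective.injOn)
      refine summable_of_hasFiniteSupport (h1.subset ?_)
      intro I hI
      rw [Function.mem_support] at hI
      intro h
      exact hI (hf I h)
    have h2 : ∀ β : Ty K 𝔪, vv K 𝔪 J χ (A, β) * EE K 𝔪 (J A) A Z β c =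
        ∑' I : Cls K A, vv K 𝔪 J χ (A, β) *
          (c I * ((qw K 𝔪 (J A) Z β I).toReal : ℂ)) := by
      intro β
      unfold EE
      rw [tsum_mul_left]
    rw [Finset.sum_congr rfl fun β _ => h2 β, ← Summable.tsum_finsetSum, ← tsum_mul_left]
    · refine tsum_congr fun I => ?_
      have h3 : ∀ β : Ty K 𝔪, vv K 𝔪 J χ (A, β) * (c I * ((qw K 𝔪 (J A) Z β I).toReal : ℂ)) =
          (starRingEnd ℂ) (χ (J A)) * χ (J A) * (c I * χ I) *
            ((qw K 𝔪 (J A) Z β I).toReal : ℂ) := by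
        intro β
        have h4 := vt_qw K 𝔪 (J A) Z χ hχ β (I : (Ideal (𝓞 K))⁰)
        calc vv K 𝔪 J χ (A, β) * (c I * ((qw K 𝔪 (J A) Z β I).toReal : ℂ)) =
            (starRingEnd ℂ) (χ (J A)) * c I *
              (vt K 𝔪 χ β * ((qw K 𝔪 (J A) Z β I).toReal : ℂ)) := by
              unfold vv
              ring
          _ = _ := by rw [h4]; ring
      rw [Finset.sum_congr rfl fun β _ => h3 β, ← Finset.mul_sum]
      have h5 : (starRingEnd ℂ) (χ (J A)) * χ (J A) = 1 := by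
        rw [mul_comm, Complex.mul_conj, Complex.normSq_eq_norm_sq, hχ.1 (J A) hJ2]
        norm_num
      rw [h5, one_mul]
      by_cases hI : Cop K 𝔪 (I : (Ideal (𝓞 K))⁰)
      · have h6 := sum_qw K 𝔪 (J A) A hJ1 hJ2 cK hint Z hZ I hI
        have h7 : ∑ β : Ty K 𝔪, ((qw K 𝔪 (J A) Z β I).toReal : ℂ) = (torsionOrder K * cK : ℂ) := by
          rw [← Complex.ofReal_sum, ← ENNReal.toReal_sum (fun β _ =>
            (qw_lt_top K 𝔪 (J A) A hJ1 hJ2 cK hint Z hZ β I).ne), h6, ENNReal.toReal_mul,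
            ENNReal.toReal_natCast, ENNReal.toReal_ofReal hc]
          push_cast
          rfl
        rw [h7]
        ring
      · rw [hχ.2.1 _ hI]
        ring
    · intro β _
      refine hfinA _ ?_
      intro I hI
      rw [hI]
      ring
  -- all classes
  have hsum : Summable (fun I : (Ideal (𝓞 K))⁰ => c I * χ I) := by
    refine summable_of_hasFiniteSupport (hfin.subset ?_)
    intro I hI
    rw [Function.mem_support] at hI
    intro h
    apply hI
    rw [h, zero_mul]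
  let e := Equiv.sigmaFiberEquiv (fun I : (Ideal (𝓞 K))⁰ => ClassGroup.mk0 I)
  have hsum' : Summable (fun p : (Σ A : ClassGroup (𝓞 K), Cls K A) => c (e p) * χ (e p)) :=
    (e.summable_iff).mpr hsum
  have htot : ∑' I, c I * χ I = ∑ A : ClassGroup (𝓞 K), ∑' I : Cls K A, c I * χ I := by
    rw [← e.tsum_eq, hsum'.tsum_sigma, tsum_fintype]
    rfl
  rw [Fintype.sum_prod_type, Finset.sum_congr rfl fun A _ => hclass A, ← Finset.mul_sum, htot]

end Pool.RC
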