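import Pool.Agent.HDZ.HR
import Pool.Agent.DM.Defs

/-!
# Ray class characters: common definitions

`K` is a number field, `𝔪` a nonzero integral ideal. A type `β : Ty K 𝔪` is a residue class prime to `𝔪`
together with a sign at every real place; the types form a finite group. `isTy K 𝔪 β x` says that the algebraic
integer `x` has type `β`.
-/

open scoped NumberField nonZeroDivisors ENNReal
open NumberField NumberField.InfinitePlace NumberField.mixedEmbedding NumberField.Units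
  NumberField.Units.dirichletUnitTheorem MeasureTheory Pool.ZD Pool.HDZ Pool.DM

namespace Pool.RC

noncomputable section

variable (K : Type) [Field K] [NumberField K]

/-- The real places. -/
abbrev RP : Type := {w : InfinitePlace K // IsReal w}

instance finite_quot (𝔪 : (Ideal (𝓞 K))⁰) : Finite (𝓞 K ⧸ (𝔪 : Ideal (𝓞 K))) :=
  Ideal.finiteQuotientOfFreeOfNeBot _ (nonZeroDivisors.coe_ne_zero 𝔪)

/-- The finite group of types: residue classes prime to `𝔪` and signs at the real places. -/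
abbrev Ty (𝔪 : (Ideal (𝓞 K))⁰) : Type := (𝓞 K ⧸ (𝔪 : Ideal (𝓞 K)))ˣ × (RP K → ℤˣ)

instance finite_Ty (𝔪 : (Ideal (𝓞 K))⁰) : Finite (Ty K 𝔪) := inferInstance

instance fintype_Ty (𝔪 : (Ideal (𝓞 K))⁰) : Fintype (Ty K 𝔪) := Fintype.ofFinite _

/-- `x` has the signs `s` at the real places. -/
def isSg (s : RP K → ℤˣ) (x : mixedSpace K) : Prop := ∀ w : RP K, 0 < ((s w : ℤ) : ℝ) * x.1 w

/-- The algebraic integer `x` has type `β`. -/
def isTy (𝔪 : (Ideal (𝓞 K))⁰) (β : Ty K 𝔪) (x : 𝓞 K) : Prop :=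
  Ideal.Quotient.mk (𝔪 : Ideal (𝓞 K)) x = (β.1 : 𝓞 K ⧸ (𝔪 : Ideal (𝓞 K))) ∧
    isSg K β.2 (mixedEmbedding K (x : K))

open scoped Classical in
/-- The principal ideal `(a)` (and `(1)` if `a = 0`). -/
def pr (a : 𝓞 K) : (Ideal (𝓞 K))⁰ :=
  if h : a = 0 then 1 else ⟨Ideal.span {a}, mem_nonZeroDivisors_of_ne_zero (by
    simpa using h)⟩

/-- `I` is prime to `𝔪`. -/
def Cop (𝔪 I : (Ideal (𝓞 K))⁰) : Prop := IsCoprime (I : Ideal (𝓞 K)) (𝔪 : Ideal (𝓞 K))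

/-- `χ` is a ray class character modulo `𝔪` and all real places: a completely multiplicative function on
the ideals, of absolute value `1` on the ideals prime to `𝔪` and `0` on the others, that is `1` on all
principal ideals `(a)` with `a ≡ 1 mod 𝔪`, `a` totally positive. -/
def IsRay (𝔪 : (Ideal (𝓞 K))⁰) (χ : DM.Mul K) : Prop :=
  (∀ I, Cop K 𝔪 I → ‖χ I‖ = 1) ∧ (∀ I, ¬ Cop K 𝔪 I → χ I = 0) ∧
    ∀ a : 𝓞 K, a ≠ 0 → a - 1 ∈ (𝔪 : Ideal (𝓞 K)) → isSg K 1 (mixedEmbedding K (a : K)) →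
      χ (pr K a) = 1

/-- `χ` is the principal character modulo `𝔪`. -/
def IsPrin (𝔪 : (Ideal (𝓞 K))⁰) (χ : DM.Mul K) : Prop := ∀ I, Cop K 𝔪 I → χ I = 1

/-- `J` is a system of representatives, prime to `𝔪`, of the inverse ideal classes. -/
def Reps (𝔪 : (Ideal (𝓞 K))⁰) (J : ClassGroup (𝓞 K) → (Ideal (𝓞 K))⁰) : Prop :=
  ∀ A, ClassGroup.mk0 (J A) = A⁻¹ ∧ Cop K 𝔪 (J A)

open scoped Classical in
/-- The sum of the test function over the elements of type `β` of the scaled lattice. -/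
def TT (𝔪 J : (Ideal (𝓞 K))⁰) (β : Ty K 𝔪) (g : ℝ → ℝ) (y : ℝ) (t : logSpace K) : ℝ≥0∞ :=
  ∑' x : NZ K J, if isTy K 𝔪 β (x : 𝓞 K) then ENNReal.ofReal
    (PhiS K g (y⁻¹ • (sg K t * mixedEmbedding K ((x : 𝓞 K) : K)))) else 0

/-- The scale: its `m`-th power is `Z N(J)`. -/
def yy (J : (Ideal (𝓞 K))⁰) (Z : ℝ) : ℝ := (Z * nm K J) ^ (1 / (Module.finrank ℚ K : ℝ))

open scoped Classical in
/-- The weight of the generators of type `β` of the ideal `I J`. -/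
def qw (𝔪 J : (Ideal (𝓞 K))⁰) (Z : ℝ) (β : Ty K 𝔪) (I : (Ideal (𝓞 K))⁰) : ℝ≥0∞ :=
  ∫⁻ t in FD K, ∑' x : NZ K J, if pr K (x : 𝓞 K) = I * J ∧ isTy K 𝔪 β (x : 𝓞 K) then
    ENNReal.ofReal (PhiS K (fun _ => 1)
      ((yy K J Z)⁻¹ • (sg K t * mixedEmbedding K ((x : 𝓞 K) : K)))) else 0

/-- Weighted sum over the ideals of a class. -/
def EE (𝔪 J : (Ideal (𝓞 K))⁰) (A : ClassGroup (𝓞 K)) (Z : ℝ) (β : Ty K 𝔪)
    (c : (Ideal (𝓞 K))⁰ → ℂ) : ℂ :=
  ∑' I : Cls K A, c I * ((qw K 𝔪 J Z β I).toReal : ℂ)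

/-- The main term. -/
def MT (𝔪 : (Ideal (𝓞 K))⁰) (g : ℝ → ℝ) (Z : ℝ) : ℝ :=
  regulator K * Z * IPhi K g / (VJ K 𝔪 * 2 ^ nrRealPlaces K)

/-- Smooth functions on a Euclidean space supported in the ball of radius `S`, derivatives up to
order `k` bounded by `G`. -/
def Good0 {E : Type} [NormedAddCommGroup E] [NormedSpace ℝ E] (k : ℕ) (S G : ℝ) (f : E → ℝ) : Prop :=
  ContDiff ℝ k f ∧ (∀ j ≤ k, ∀ x, ‖iteratedFDeriv ℝ j f x‖ ≤ G) ∧ ∀ x, S ≤ ‖x‖ → f x = 0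

open scoped Classical in
/-- The part of the test function in one orthant. -/
def FS (g : ℝ → ℝ) (s : RP K → ℤˣ) (u : euclidean.mixedSpace K) : ℝ :=
  if isSg K s (euclidean.toMixed K u) then PhiS K g (euclidean.toMixed K u) else 0

end

end Pool.RC
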