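import Pool.Agent.RC.RayLS
import Pool.Agent.DM.Machine

/-!
# Density theorem for the ray class L-functions (helper46)
-/

open scoped NumberField nonZeroDivisors
open NumberField NumberField.Units Pool.ZD Pool.HDZ Pool.DM

namespace Pool.RC

theorem norm_ray (K : Type) [Field K] [NumberField K] (𝔪 : (Ideal (𝓞 K))⁰) (χ : DM.Mul K)
    (hχ : IsRay K 𝔪 χ) (I : (Ideal (𝓞 K))⁰) : ‖χ I‖ ≤ 1 := by
  by_cases h : Cop K 𝔪 I
  · exact (hχ.1 I h).le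
  · rw [hχ.2.1 I h, norm_zero]
    exact zero_le_one

theorem HN_nonneg (K : Type) [Field K] [NumberField K] (𝔪 : (Ideal (𝓞 K))⁰) :
    0 ≤ (classNumber K : ℝ) * RK K * nm K 𝔪 := by
  have : 0 ≤ RK K := div_nonneg (regulator_pos K).le (Nat.cast_nonneg _)
  have := nm_pos' K 𝔪
  positivity

theorem one_le_QN (K : Type) [Field K] [NumberField K] (𝔪 : (Ideal (𝓞 K))⁰) :
    1 ≤ Real.sqrt (DK K) * nm K 𝔪 := by
  have h1 : 1 ≤ Real.sqrt (DK K) := Real.one_le_sqrt.mpr (Pool.HDZ.one_le_DK K)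
  have h2 := one_le_nm K 𝔪
  nlinarith

theorem exists_L (K : Type) [Field K] [NumberField K] (hK : 2 ≤ Module.finrank ℚ K)
    (𝔪 : (Ideal (𝓞 K))⁰) (χ : DM.Mul K) (hχ : IsRay K 𝔪 χ) (hχ' : ¬ IsPrin K 𝔪 χ) :
    ∃ F : ℂ → ℂ, IsLf K χ F := by
  refine exists_cont K χ (norm_ray K 𝔪 χ hχ) (Module.finrank ℚ K)
    (Real.sqrt (DK K) * nm K 𝔪) (one_le_QN K 𝔪) (fun ε hε => ?_)
  obtain ⟨C, hC, h⟩ := ray_LSII (Module.finrank ℚ K) hK (Module.finrank ℚ K) (by omega) ε hε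
  refine ⟨C * (classNumber K * RK K * nm K 𝔪), mul_nonneg hC.le (HN_nonneg K 𝔪), ?_⟩
  have h1 := h K rfl 𝔪 {χ} (by simpa using ⟨hχ, hχ'⟩)
  intro G g hg Z hZ
  rw [mul_one]
  exact h1 G g hg Z hZ

theorem main (m : ℕ) (hm : 2 ≤ m) (σ : ℝ) (hσ : 1 / 2 < σ) (hσ1 : σ < 1) (ε₀ : ℝ)
    (hε₀ : 0 < ε₀) : ∃ C : ℝ, 0 < C ∧
    ∀ (K : Type) [Field K] [NumberField K], Module.finrank ℚ K = m →
    ∀ (𝔪 : (Ideal (𝓞 K))⁰) (L : DM.Mul K → ℂ → ℂ),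
      (∀ χ, IsRay K 𝔪 χ → ¬ IsPrin K 𝔪 χ → IsLf K χ (L χ)) →
      ∀ T : ℝ, 1 ≤ T → ∀ (S : Finset (DM.Mul K × ℂ)),
        (∀ p ∈ S, IsRay K 𝔪 p.1 ∧ ¬ IsPrin K 𝔪 p.1 ∧ σ ≤ p.2.re ∧ |p.2.im| ≤ T) →
        (∀ p ∈ S, analyticOrderAt (L p.1) p.2 ≠ ⊤) ∧
        ∑ p ∈ S, (analyticOrderNatAt (L p.1) p.2 : ℝ) ≤
          C * T ^ (m + 4) * (classNumber K * RK K * nm K 𝔪) *
            (Real.sqrt (DK K) * nm K 𝔪) ^ (ε₀ - (2 * σ - 1) / (3 - 2 * σ)) := by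
  classical
  set k : ℕ := m / 2 + 1 with hkdef
  have hk : m + 1 ≤ 2 * k := by omega
  have hk2 : 2 * k + 2 ≤ m + 4 := by omega
  set ε₁ : ℝ := ε₀ / 4 with hε₁
  have hε₁0 : 0 < ε₁ := by positivity
  obtain ⟨ε, hε, CM, hCM, hmach⟩ := machine m k σ hσ hσ1 ε₁ hε₁0
  obtain ⟨C1, hC1, h1⟩ := ray_LSI m hm ε hε
  obtain ⟨C2, hC2, h2⟩ := ray_LSII m hm k hk ε hε
  obtain ⟨CH, hCH, hH⟩ := Pool.HDZ.hR_le m hm (1 / 2) (by norm_num)
  set A : ℝ := max C1 C2 with hA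
  have hA0 : 0 < A := lt_max_of_lt_left hC1
  refine ⟨CM * A * (1 + A * CH) ^ ε₁, by positivity, ?_⟩
  intro K _ _ hK 𝔪 L hL T hT S hS
  set H : ℝ := classNumber K * RK K * nm K 𝔪 with hHdef
  have hH0 : 0 ≤ H := HN_nonneg K 𝔪
  set Q : ℝ := Real.sqrt (DK K) * nm K 𝔪 with hQ
  have hQ1 : 1 ≤ Q := one_le_QN K 𝔪
  have hQ0 : 0 < Q := by linarith
  have hD1 : 1 ≤ DK K := Pool.HDZ.one_le_DK K
  have hD0 : 0 < DK K := by linarith
  have hM1 := one_le_nm K 𝔪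
  let F : Finset (DM.Mul K) := S.image Prod.fst
  have hF : ∀ χ ∈ F, IsRay K 𝔪 χ ∧ ¬ IsPrin K 𝔪 χ := by
    intro χ hχ
    obtain ⟨p, hp, rfl⟩ := Finset.mem_image.mp hχ
    exact ⟨(hS p hp).1, (hS p hp).2.1⟩
  have hXi : LSI K F ε A H Q := by
    intro x hx c hc1 hc2
    refine (h1 K hK 𝔪 F (fun χ hχ => (hF χ hχ).1) x hx c hc1 hc2).trans ?_
    have : 0 ≤ x ^ 2 / Q := by positivity
    gcongr
    exact le_max_left _ _
  have hXii : LSII K F k ε A H Q := by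
    intro G g hg Z hZ
    refine (h2 K hK 𝔪 F hF G g hg Z hZ).trans ?_
    gcongr
    exact le_max_right _ _
  obtain ⟨hz1, hz2⟩ := hmach K hK F A H Q hA0.le hH0 hQ1
    (fun χ hχ I => norm_ray K 𝔪 χ (hF χ hχ).1 I) hXi hXii L
    (fun χ hχ => hL χ (hF χ hχ).1 (hF χ hχ).2) T hT
    (fun χ => (S.filter (fun p => p.1 = χ)).image Prod.snd)
    (fun χ _ s hs => by
      obtain ⟨p, hp, rfl⟩ := Finset.mem_image.mp hs
      exact (hS p (Finset.mem_filter.mp hp).1).2.2)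
  refine ⟨fun p hp => ?_, ?_⟩
  · exact hz1 p.1 (Finset.mem_image_of_mem _ hp) p.2 (hS p hp).2.2.1
  have h6 : ∑ p ∈ S, (analyticOrderNatAt (L p.1) p.2 : ℝ) =
      ∑ χ ∈ F, ∑ s ∈ (S.filter (fun p => p.1 = χ)).image Prod.snd,
        ((analyticOrderNatAt (L χ) s : ℕ) : ℝ) := by
    rw [← Finset.sum_fiberwise_of_maps_to (g := Prod.fst) (t := F)
      (fun p hp => Finset.mem_image_of_mem _ hp)]
    refine Finset.sum_congr rfl fun χ hχ => ?_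
    rw [Finset.sum_image]
    · refine Finset.sum_congr rfl fun p hp => ?_
      rw [(Finset.mem_filter.mp hp).2]
    · intro p hp q hq hpq
      have h8 := (Finset.mem_filter.mp hp).2
      have h9 := (Finset.mem_filter.mp hq).2
      exact Prod.ext (h8.trans h9.symm) hpq
  rw [h6]
  refine hz2.trans ?_
  have hQ2 : Q ^ (2 : ℝ) = DK K * nm K 𝔪 ^ 2 := by
    rw [hQ, Real.rpow_two, mul_pow, Real.sq_sqrt hD0.le]
  have hH1 : H ≤ CH * Q ^ (2 : ℝ) := by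
    have h3 := hH K hK
    norm_num at h3
    rw [hQ2, hHdef]
    calc classNumber K * RK K * nm K 𝔪 ≤ (CH * DK K) * nm K 𝔪 ^ 2 := by
          gcongr
          nlinarith
      _ = _ := by ring
  have g1 : (1 + A * H) ^ ε₁ ≤ (1 + A * CH) ^ ε₁ * Q ^ (2 * ε₁) := by
    rw [Real.rpow_mul hQ0.le, ← Real.mul_rpow (by positivity) (by positivity)]
    refine Real.rpow_le_rpow (by positivity) ?_ hε₁0.le
    have e1 : A * H ≤ A * (CH * Q ^ (2 : ℝ)) := mul_le_mul_of_nonneg_left hH1 hA0.le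
    have e2 : 1 ≤ Q ^ (2 : ℝ) := Real.one_le_rpow hQ1 (by norm_num)
    nlinarith
  have g3 : Q ^ (2 * ε₁) * Q ^ (ε₁ + (1 - 2 * σ) / (3 - 2 * σ)) ≤
      Q ^ (ε₀ - (2 * σ - 1) / (3 - 2 * σ)) := by
    rw [← Real.rpow_add hQ0]
    refine Real.rpow_le_rpow_of_exponent_le hQ1 ?_
    have e1 : (1 - 2 * σ) / (3 - 2 * σ) = -((2 * σ - 1) / (3 - 2 * σ)) := by
      rw [← neg_div]
      congr 1
      ring
    rw [e1]
    linarith
  have hT0 : 0 < T := by linarith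
  calc CM * (A * H) * (1 + A * H) ^ ε₁ * T ^ (2 * k + 2) *
      Q ^ (ε₁ + (1 - 2 * σ) / (3 - 2 * σ)) ≤
      CM * (A * H) * ((1 + A * CH) ^ ε₁ * Q ^ (2 * ε₁)) * T ^ (m + 4) *
        Q ^ (ε₁ + (1 - 2 * σ) / (3 - 2 * σ)) := by
        gcongr
    _ = CM * A * (1 + A * CH) ^ ε₁ * T ^ (m + 4) * H *
        (Q ^ (2 * ε₁) * Q ^ (ε₁ + (1 - 2 * σ) / (3 - 2 * σ))) := by ring
    _ ≤ _ := mul_le_mul_of_nonneg_left g3 (by positivity)

/-- Density theorem for the L-functions of all ray class characters of the number fields of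
degree `m`. -/
theorem density (m : ℕ) (hm : 2 ≤ m) (σ : ℝ) (hσ : 1 / 2 < σ) (hσ1 : σ < 1) (ε : ℝ)
    (hε : 0 < ε) : ∃ C : ℝ, 0 < C ∧
    ∀ (K : Type) [Field K] [NumberField K], Module.finrank ℚ K = m →
    ∀ (𝔪 : (Ideal (𝓞 K))⁰) (L : DM.Mul K → ℂ → ℂ),
      (∀ χ, IsRay K 𝔪 χ → ¬ IsPrin K 𝔪 χ → IsLf K χ (L χ)) →
      ∀ T : ℝ, 1 ≤ T → ∀ (S : Finset (DM.Mul K × ℂ)),
        (∀ p ∈ S, IsRay K 𝔪 p.1 ∧ ¬ IsPrin K 𝔪 p.1 ∧ σ ≤ p.2.re ∧ |p.2.im| ≤ T) →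
        (∀ p ∈ S, analyticOrderAt (L p.1) p.2 ≠ ⊤) ∧
        ∑ p ∈ S, (analyticOrderNatAt (L p.1) p.2 : ℝ) ≤
          C * T ^ (m + 4) * (classNumber K * regulator K * nm K 𝔪) *
            (DK K * nm K 𝔪 ^ 2) ^ (ε - (σ - 1 / 2) / (3 - 2 * σ)) ∧
        ∑ p ∈ S, (analyticOrderNatAt (L p.1) p.2 : ℝ) ≤
          C * T ^ (m + 4) * (DK K * nm K 𝔪 ^ 2) ^ (2 * (1 - σ) / (3 - 2 * σ) + ε) := by
  obtain ⟨C1, hC1, h1⟩ := main m hm σ hσ hσ1 ε hε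
  obtain ⟨C2, hC2, h2⟩ := Pool.HDZ.hR_le m hm (ε / 2) (by linarith)
  refine ⟨max C1 (C1 * C2), lt_max_of_lt_left hC1, ?_⟩
  intro K _ _ hK 𝔪 L hL T hT S hS
  obtain ⟨h3, h4⟩ := h1 K hK 𝔪 L hL T hT S hS
  have hD1 : 1 ≤ DK K := Pool.HDZ.one_le_DK K
  have hD0 : 0 < DK K := by linarith
  have hM1 := one_le_nm K 𝔪
  have hM0 : 0 < nm K 𝔪 := by linarith
  have hRpos := regulator_pos K
  have hw : (1 : ℝ) ≤ torsionOrder K := by
    exact_mod_cast Nat.one_le_iff_ne_zero.mpr (NeZero.ne _)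
  have hRK : 0 ≤ RK K := div_nonneg hRpos.le (Nat.cast_nonneg _)
  have hT0 : 0 < T := by linarith
  set Q : ℝ := Real.sqrt (DK K) * nm K 𝔪 with hQ
  have hQ1 : 1 ≤ Q := one_le_QN K 𝔪
  have hQ0 : 0 < Q := by linarith
  have hQ2 : DK K * nm K 𝔪 ^ 2 = Q ^ (2 : ℝ) := by
    rw [hQ, Real.rpow_two, mul_pow, Real.sq_sqrt hD0.le]
  have hQpow : ∀ a : ℝ, (DK K * nm K 𝔪 ^ 2) ^ a = Q ^ (2 * a) := fun a => by
    rw [hQ2, ← Real.rpow_mul hQ0.le]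
  have h3σ : (3 - 2 * σ) ≠ 0 := by linarith
  refine ⟨h3, ?_, ?_⟩
  · refine h4.trans ?_
    rw [hQpow]
    have h5 : classNumber K * RK K * nm K 𝔪 ≤ classNumber K * regulator K * nm K 𝔪 := by
      refine mul_le_mul_of_nonneg_right ?_ hM0.le
      refine mul_le_mul_of_nonneg_left ?_ (by positivity)
      exact div_le_self hRpos.le hw
    have h6 : Q ^ (ε - (2 * σ - 1) / (3 - 2 * σ)) ≤
        Q ^ (2 * (ε - (σ - 1 / 2) / (3 - 2 * σ))) := by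
      refine Real.rpow_le_rpow_of_exponent_le hQ1 ?_
      have : 2 * (ε - (σ - 1 / 2) / (3 - 2 * σ)) = 2 * ε - (2 * σ - 1) / (3 - 2 * σ) := by
        field_simp
      rw [this]
      linarith
    refine mul_le_mul ?_ h6 (by positivity) (by positivity)
    refine mul_le_mul ?_ h5 (by positivity) (by positivity)
    exact mul_le_mul_of_nonneg_right (le_max_left _ _) (by positivity)
  · refine h4.trans ?_
    rw [hQpow]
    have h5 : classNumber K * RK K * nm K 𝔪 ≤ C2 * Q ^ (1 + ε) := by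
      calc classNumber K * RK K * nm K 𝔪 ≤ (C2 * DK K ^ (1 / 2 + ε / 2)) * nm K 𝔪 ^ (1 + ε) := by
            refine mul_le_mul (h2 K hK) ?_ hM0.le (by positivity)
            calc nm K 𝔪 = nm K 𝔪 ^ (1 : ℝ) := (Real.rpow_one _).symm
              _ ≤ _ := Real.rpow_le_rpow_of_exponent_le hM1 (by linarith)
        _ = C2 * Q ^ (1 + ε) := by
            rw [hQ, Real.mul_rpow (Real.sqrt_nonneg _) hM0.le, Real.sqrt_eq_rpow,
              ← Real.rpow_mul hD0.le, mul_assoc]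
            congr 3
            ring
    calc C1 * T ^ (m + 4) * (classNumber K * RK K * nm K 𝔪) *
          Q ^ (ε - (2 * σ - 1) / (3 - 2 * σ)) ≤
        C1 * T ^ (m + 4) * (C2 * Q ^ (1 + ε)) * Q ^ (ε - (2 * σ - 1) / (3 - 2 * σ)) := by
          refine mul_le_mul_of_nonneg_right ?_ (by positivity)
          exact mul_le_mul_of_nonneg_left h5 (by positivity)
      _ = (C1 * C2) * T ^ (m + 4) * (Q ^ (1 + ε) * Q ^ (ε - (2 * σ - 1) / (3 - 2 * σ))) := by ring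
      _ = (C1 * C2) * T ^ (m + 4) * Q ^ (2 * (2 * (1 - σ) / (3 - 2 * σ) + ε)) := by
          rw [← Real.rpow_add hQ0]
          congr 2
          field_simp
          ring
      _ ≤ _ := by
          refine mul_le_mul_of_nonneg_right ?_ (by positivity)
          exact mul_le_mul_of_nonneg_right (le_max_right _ _) (by positivity)

end Pool.RC
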