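import Pool.Agent.RC.Defs

/-!
# Module INTL: the integrals of the two lattice sums

PAPER PROOF. These are `hI1` and `hI2` in the proof of `key0` in `Pool/Agent/HDZ/KeyM.lean`, for a general ideal `J` and a general pair `(J', n)`: copy them
(`exp_int_trunc`, `exp_int_hh`, `lint_L1`, `lint_L2`). For `int_L1` the class is `A = (mk0 J)⁻¹`, and `N(I) N(J) ≤ (S y)^m = S^m Z N(J)` gives `N(I) ≤ S^m Z ≤ C Z`. For
`int_L2` the class is `(mk0 J')⁻¹`, and `hnorm` gives `(y/n) (N(I) N(J'))^{1/m} = (N(I)/(D/Z))^{1/m}` as there.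
`q1_lt_top`, `q2_lt_top`: from `sum_inv` and `sum_hh` as there.
-/

open scoped NumberField nonZeroDivisors ENNReal
open NumberField NumberField.InfinitePlace NumberField.mixedEmbedding NumberField.Units
  NumberField.Units.dirichletUnitTheorem MeasureTheory Pool.ZD Pool.HDZ Pool.DM

namespace Pool.RC

open scoped Classical in
theorem int_L1 (m : ℕ) (hm : 2 ≤ m) (S : ℝ) (hS : 1 ≤ S) : ∃ C : ℝ, 1 ≤ C ∧
    ∀ (K : Type) [Field K] [NumberField K], Module.finrank ℚ K = m →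
    ∀ (J : (Ideal (𝓞 K))⁰) (Z y : ℝ), 0 < Z → 0 < y → y ^ m = Z * nm K J →
      ∫⁻ t in FD K, L1 K m J (S * y) t ≤
        ENNReal.ofReal (C * torsionOrder K * (nm K J)⁻¹) *
          Q1 K (ClassGroup.mk0 J)⁻¹ (C * Z) := by
  obtain ⟨CE1, hCE1, hE1⟩ := exp_int_trunc m hm
  have hSm1 : 1 ≤ S ^ m := one_le_pow₀ hS
  set C0 : ℝ := max (S ^ m) CE1 with hC0
  have hC01 : 1 ≤ C0 := hSm1.trans (le_max_left _ _)
  refine ⟨C0, hC01, ?_⟩
  intro K _ _ hK J Z y hZ hypos hym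
  have hJ : ClassGroup.mk0 J = ((ClassGroup.mk0 J)⁻¹)⁻¹ := (inv_inv _).symm
  have hN : 0 < nm K J := nm_pos' K J
  set N := nm K J with hNdef
  have hw : (0 : ℝ) < torsionOrder K := by
    exact_mod_cast Nat.pos_of_ne_zero (NeZero.ne _)
  refine (lint_L1 K m J _ hJ CE1 (S * y)
    (fun x hx => hE1 K hK (S * y) (by positivity) x hx)).trans ?_
  have h1 : ENNReal.ofReal (C0 * torsionOrder K * N⁻¹) =
      (torsionOrder K : ℝ≥0∞) * ENNReal.ofReal (C0 * N⁻¹) := by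
    rw [show C0 * (torsionOrder K : ℝ) * N⁻¹ = (torsionOrder K : ℝ) * (C0 * N⁻¹) by ring,
      ENNReal.ofReal_mul hw.le, ENNReal.ofReal_natCast]
  rw [h1, mul_assoc]
  refine mul_le_mul_right ?_ _
  unfold Q1
  rw [← ENNReal.tsum_mul_left]
  refine ENNReal.tsum_le_tsum fun I => ?_
  have hI0 : 0 < nm K I := nm_pos' K I
  by_cases h : nm K I * nm K J ≤ (S * y) ^ m
  · have h' : nm K I ≤ C0 * Z := by
      rw [mul_pow, hym] at h
      have h3 : nm K I * N ≤ (S ^ m * Z) * N := by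
        calc nm K I * N ≤ S ^ m * (Z * N) := h
          _ = _ := by ring
      have h4 := le_of_mul_le_mul_right h3 hN
      exact h4.trans (mul_le_mul_of_nonneg_right (le_max_left _ _) hZ.le)
    rw [if_pos h, if_pos h', ← ENNReal.ofReal_mul (by positivity)]
    refine ENNReal.ofReal_le_ofReal ?_
    rw [mul_inv]
    calc CE1 * ((nm K I)⁻¹ * N⁻¹) = CE1 * (N⁻¹ * (nm K I)⁻¹) := by ring
      _ ≤ C0 * (N⁻¹ * (nm K I)⁻¹) :=
          mul_le_mul_of_nonneg_right (le_max_right _ _) (by positivity)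
      _ = _ := by ring
  · rw [if_neg h]
    exact bot_le

open scoped Classical in
theorem int_L2 (m : ℕ) (hm : 2 ≤ m) : ∃ C : ℝ, 1 ≤ C ∧
    ∀ (K : Type) [Field K] [NumberField K], Module.finrank ℚ K = m →
    ∀ (J J' : (Ideal (𝓞 K))⁰) (n : ℕ), 0 < n → nm K J' * nm K J * DK K = (n : ℝ) ^ m →
    ∀ Z y : ℝ, 0 < Z → 0 < y → y ^ m = Z * nm K J →
      ∫⁻ t in FD K, L2 K m J' (y / n) t ≤
        ENNReal.ofReal (C * torsionOrder K) * Q2 K m (ClassGroup.mk0 J')⁻¹ (DK K / Z) := by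
  obtain ⟨CE2, hCE2, hE2⟩ := exp_int_hh m hm
  have hm0 : (0 : ℝ) < m := by positivity
  refine ⟨max 1 CE2, le_max_left _ _, ?_⟩
  intro K _ _ hK J J' n hn hnorm Z y hZ hypos hym
  have hJ' : ClassGroup.mk0 J' = ((ClassGroup.mk0 J')⁻¹)⁻¹ := (inv_inv _).symm
  have hN : 0 < nm K J := nm_pos' K J
  set N := nm K J with hNdef
  have hN' : 0 < nm K J' := nm_pos' K J'
  have hD : 0 < DK K := DK_pos K
  set D := DK K with hDdef
  have hnR : (0 : ℝ) < n := by exact_mod_cast hn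
  have hw : (0 : ℝ) < torsionOrder K := by
    exact_mod_cast Nat.pos_of_ne_zero (NeZero.ne _)
  refine (lint_L2 K m J' _ hJ' CE2 (y / n)
    (fun x hx => hE2 K hK (y / n) (by positivity) x hx)).trans ?_
  have h1 : ENNReal.ofReal (max 1 CE2 * torsionOrder K) =
      (torsionOrder K : ℝ≥0∞) * ENNReal.ofReal (max 1 CE2) := by
    rw [mul_comm, ENNReal.ofReal_mul hw.le, ENNReal.ofReal_natCast]
  rw [h1, mul_assoc]
  refine mul_le_mul_right ?_ _
  unfold Q2
  rw [← ENNReal.tsum_mul_left]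
  refine ENNReal.tsum_le_tsum fun I => ?_
  rw [← ENNReal.ofReal_mul (by positivity)]
  refine ENNReal.ofReal_le_ofReal ?_
  have hI0 : 0 < nm K I := nm_pos' K I
  have hhy : (y / n * (nm K I * nm K J') ^ (1 / (m : ℝ))) = (nm K I / (D / Z)) ^ (1 / (m : ℝ)) := by
    have h5 : (n : ℝ) = ((n : ℝ) ^ m) ^ (1 / (m : ℝ)) := by
      rw [← Real.rpow_natCast, ← Real.rpow_mul hnR.le, mul_one_div_cancel hm0.ne', Real.rpow_one]
    have h6 : y = (Z * N) ^ (1 / (m : ℝ)) := by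
      rw [← hym, ← Real.rpow_natCast, ← Real.rpow_mul hypos.le, mul_one_div_cancel hm0.ne',
        Real.rpow_one]
    rw [h5, h6, ← Real.div_rpow (by positivity) (by positivity),
      ← Real.mul_rpow (by positivity) (by positivity)]
    congr 1
    rw [← hnorm]
    field_simp
  rw [hhy]
  have hhnn : ∀ u : ℝ, 0 ≤ u → 0 ≤ hh m u := by
    intro u hu
    unfold hh
    exact le_min (by positivity) (by positivity)
  exact mul_le_mul_of_nonneg_right (le_max_right _ _) (hhnn _ (by positivity))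

theorem q1_lt_top (K : Type) [Field K] [NumberField K] (hm : 2 ≤ Module.finrank ℚ K)
    (A : ClassGroup (𝓞 K)) (X : ℝ) (hX : 0 < X) : Q1 K A X < ⊤ := by
  classical
  obtain ⟨CS1, hCS1, hS1⟩ := sum_inv (Module.finrank ℚ K) hm 1 one_pos
  refine lt_of_le_of_lt ?_ (ENNReal.ofReal_lt_top (r := CS1 * X ^ (1 : ℝ)))
  have h := (tsum_cls_le K A (fun I => if nm K I ≤ X then
    ENNReal.ofReal ((nm K I)⁻¹) else 0)).trans (hS1 K rfl X hX)
  refine le_trans (le_of_eq ?_) h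
  unfold Q1
  refine tsum_congr fun I => ?_
  congr 1

theorem q2_lt_top (K : Type) [Field K] [NumberField K] (m : ℕ) (hm : 2 ≤ m)
    (hK : Module.finrank ℚ K = m) (A : ClassGroup (𝓞 K)) (X : ℝ) (hX : 0 < X) :
    Q2 K m A X < ⊤ := by
  obtain ⟨CS2, hCS2, hS2⟩ := sum_hh m hm 1 one_pos
  refine lt_of_le_of_lt ?_ (ENNReal.ofReal_lt_top (r := CS2 * X * (max 1 X) ^ (1 : ℝ)))
  refine (tsum_cls_le K A (fun I => ENNReal.ofReal (hh m ((nm K I / X) ^ (1 / (m : ℝ)))))).trans ?_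
  exact hS2 K hK X hX

end Pool.RC
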