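import Pool.Agent.RC.Defs

/-!
# Module TYPES: types of algebraic integers and the values of a ray class character on them

PAPER PROOF. `pr_mul`: `Ideal.span_singleton_mul_span_singleton`.

`exists_sign`: let `v` be the element of the mixed space with real components `s w` and complex components `1`, `R > 0`
large. Write `R • v = l + f` with `l` in the lattice spanned by `latticeBasis K` (= the image of `𝓞 K`,
`mem_span_latticeBasis`) and `f = ZSpan.fract` in the bounded fundamental domain (`‖f‖ ≤ C`, `ZSpan.norm_fract_le`); then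
`s w * l_w = R - s w * f_w > 0` if `R > C` (sup norm on the mixed space; `|f_w| ≤ ‖f‖`). If there is no real place take
`a = 1` for `a ≠ 0` (or argue that `l ≠ 0` for large `R`).

`exists_isTy`: choose `r` with `mk r = β.1`, `a` from `exists_sign` for `s = β.2`, `N = absNorm 𝔪` (positive, `(N : 𝓞 K) ∈ 𝔪` by
`Ideal.absNorm_mem`), `x = r + k N a` with `k` a large natural number: `x ≡ r mod 𝔪`, and
`s w * x_w = s w * r_w + k N (s w * a_w) > 0` for `k` large (finitely many real places); `x ≠ 0` for all but one `k`.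

`exists_ty_iff`: `IsCoprime (span {x}) 𝔪` iff `x` is a unit modulo `𝔪`; the signs are those of the real embeddings of
`x ≠ 0` (injective, so nonzero).

`ray_ty`: take `z ≠ 0` of type `β⁻¹`; then `z x` and `z y` have type `1`, i.e. `≡ 1 mod 𝔪` and totally positive, so
`χ (z) χ (x) = 1 = χ (z) χ (y)` (`pr_mul`, `χ` multiplicative).
`vt_mul`, `vt_one`, `norm_vt`: from `ray_ty`, `isTy_mul`, `isTy_one`, and `exists_ty_iff` for the absolute value.
-/

open scoped NumberField nonZeroDivisors ENNReal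
open NumberField NumberField.InfinitePlace NumberField.mixedEmbedding NumberField.Units
  NumberField.Units.dirichletUnitTheorem MeasureTheory Pool.ZD Pool.HDZ Pool.DM

namespace Pool.RC

variable (K : Type) [Field K] [NumberField K] (𝔪 : (Ideal (𝓞 K))⁰)

theorem coe_pr (x : 𝓞 K) (hx : x ≠ 0) : (pr K x : Ideal (𝓞 K)) = Ideal.span {x} := by
  unfold pr
  rw [dif_neg hx]

theorem pr_mul (x y : 𝓞 K) (hx : x ≠ 0) (hy : y ≠ 0) : pr K (x * y) = pr K x * pr K y := by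
  apply Subtype.ext
  rw [Submonoid.coe_mul, coe_pr K x hx, coe_pr K y hy, coe_pr K (x * y) (mul_ne_zero hx hy),
    Ideal.span_singleton_mul_span_singleton]

theorem pr_one : pr K (1 : 𝓞 K) = 1 := by
  apply Subtype.ext
  rw [coe_pr K 1 one_ne_zero, Ideal.span_singleton_one, Submonoid.coe_one, Ideal.one_eq_top]

theorem sign_sq (u : ℤˣ) : ((u : ℤ) : ℝ) * ((u : ℤ) : ℝ) = 1 := by
  rcases Int.units_eq_one_or u with h | h <;> rw [h] <;> norm_num

theorem sign_abs (u : ℤˣ) : |((u : ℤ) : ℝ)| = 1 := by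
  rcases Int.units_eq_one_or u with h | h <;> rw [h] <;> norm_num

theorem exists_sign (s : RP K → ℤˣ) : ∃ a : 𝓞 K, a ≠ 0 ∧ isSg K s (mixedEmbedding K (a : K)) := by
  classical
  set b := latticeBasis K with hb
  set C : ℝ := ∑ i, ‖b i‖ with hC
  have hC0 : 0 ≤ C := Finset.sum_nonneg fun i _ => norm_nonneg _
  let v : mixedSpace K :=
    (fun w => ((s w : ℤ) : ℝ) * (C + 1), fun _ => ((C + 1 : ℝ) : ℂ))
  have hl : ((ZSpan.floor b v : Submodule.span ℤ (Set.range b)) : mixedSpace K) ∈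
      Submodule.span ℤ (Set.range (latticeBasis K)) := (ZSpan.floor b v).2
  rw [mem_span_latticeBasis] at hl
  obtain ⟨a, ha⟩ := hl
  have ha' : mixedEmbedding K (a : K) =
      ((ZSpan.floor b v : Submodule.span ℤ (Set.range b)) : mixedSpace K) := ha
  have hf : ‖v - mixedEmbedding K (a : K)‖ ≤ C := by
    rw [ha']
    exact ZSpan.norm_fract_le b v
  have hf1 : ∀ w : RP K, |((s w : ℤ) : ℝ) * (C + 1) - (mixedEmbedding K (a : K)).1 w| ≤ C := by
    intro w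
    rw [← Real.norm_eq_abs]
    exact ((norm_le_pi_norm (v - mixedEmbedding K (a : K)).1 w).trans (norm_fst_le _)).trans hf
  have hsg : isSg K s (mixedEmbedding K (a : K)) := by
    intro w
    have h1 := hf1 w
    have h2 := sign_sq (s w)
    have h3 : |((s w : ℤ) : ℝ) * (((s w : ℤ) : ℝ) * (C + 1) - (mixedEmbedding K (a : K)).1 w)| ≤
        C := by
      rw [abs_mul, sign_abs, one_mul]
      exact h1
    have h4 := (abs_le.1 h3).2
    have h5 : ((s w : ℤ) : ℝ) * (((s w : ℤ) : ℝ) * (C + 1) - (mixedEmbedding K (a : K)).1 w) =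
        (((s w : ℤ) : ℝ) * ((s w : ℤ) : ℝ)) * (C + 1) -
          ((s w : ℤ) : ℝ) * (mixedEmbedding K (a : K)).1 w := by ring
    rw [h5, h2] at h4
    linarith
  refine ⟨a, ?_, hsg⟩
  rintro rfl
  obtain ⟨w⟩ : Nonempty (InfinitePlace K) := inferInstance
  have h0 : mixedEmbedding K ((0 : 𝓞 K) : K) = 0 := by
    have : ((0 : 𝓞 K) : K) = 0 := rfl
    rw [this, map_zero]
  rcases isReal_or_isComplex w with hw | hw
  · have := hsg ⟨w, hw⟩
    rw [h0] at this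
    simp at this
  · rw [h0, sub_zero] at hf
    have h1 : ‖(v.2 ⟨w, hw⟩)‖ ≤ C :=
      ((norm_le_pi_norm v.2 ⟨w, hw⟩).trans (norm_snd_le _)).trans hf
    have h2 : ‖(v.2 ⟨w, hw⟩)‖ = C + 1 := by
      change ‖((C + 1 : ℝ) : ℂ)‖ = C + 1
      rw [Complex.norm_real, Real.norm_of_nonneg (by linarith)]
    linarith

theorem exists_isTy (β : Ty K 𝔪) : ∃ x : 𝓞 K, x ≠ 0 ∧ isTy K 𝔪 β x := by
  classical
  obtain ⟨r, hr⟩ := Ideal.Quotient.mk_surjective (β.1 : 𝓞 K ⧸ (𝔪 : Ideal (𝓞 K)))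
  obtain ⟨a, ha0, ha⟩ := exists_sign K β.2
  set N : ℕ := Ideal.absNorm (𝔪 : Ideal (𝓞 K)) with hN
  have hN0 : 0 < N := by
    rw [hN, Nat.pos_iff_ne_zero]
    intro h
    exact nonZeroDivisors.coe_ne_zero 𝔪 (Ideal.absNorm_eq_zero_iff.1 h)
  have hNm : ((N : ℕ) : 𝓞 K) ∈ (𝔪 : Ideal (𝓞 K)) := Ideal.absNorm_mem _
  have hmk : ∀ k : ℕ, Ideal.Quotient.mk (𝔪 : Ideal (𝓞 K)) (r + k * (N * a)) =
      (β.1 : 𝓞 K ⧸ (𝔪 : Ideal (𝓞 K))) := by
    intro k
    rw [map_add, hr, Ideal.Quotient.eq_zero_iff_mem.2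
      (Ideal.mul_mem_left _ _ (Ideal.mul_mem_right _ _ hNm)), add_zero]
  have hcoord : ∀ (k : ℕ) (w : RP K), (mixedEmbedding K ((r + k * (N * a) : 𝓞 K) : K)).1 w =
      (mixedEmbedding K (r : K)).1 w + k * (N * (mixedEmbedding K (a : K)).1 w) := by
    intro k w
    simp only [mixedEmbedding_apply_isReal]
    push_cast
    rw [map_add, map_mul, map_mul, map_natCast, map_natCast]
  have hev : ∀ᶠ k : ℕ in Filter.atTop, isSg K β.2 (mixedEmbedding K ((r + k * (N * a) : 𝓞 K) : K)) := by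
    have h1 : ∀ w : RP K, ∀ᶠ k : ℕ in Filter.atTop, 0 < ((β.2 w : ℤ) : ℝ) *
        (mixedEmbedding K ((r + k * (N * a) : 𝓞 K) : K)).1 w := by
      intro w
      have h2 : ∀ k : ℕ, ((β.2 w : ℤ) : ℝ) * (mixedEmbedding K ((r + k * (N * a) : 𝓞 K) : K)).1 w =
          ((β.2 w : ℤ) : ℝ) * (mixedEmbedding K (r : K)).1 w +
            (k : ℝ) * (N * (((β.2 w : ℤ) : ℝ) * (mixedEmbedding K (a : K)).1 w)) := by
        intro k
        rw [hcoord]
        ring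
      simp only [h2]
      have h3 : 0 < (N : ℝ) * (((β.2 w : ℤ) : ℝ) * (mixedEmbedding K (a : K)).1 w) :=
        mul_pos (by exact_mod_cast hN0) (ha w)
      exact (Filter.tendsto_atTop_add_const_left _ _
        (tendsto_natCast_atTop_atTop.atTop_mul_const h3)).eventually_gt_atTop 0
    exact Filter.eventually_all.2 h1
  obtain ⟨k0, hk0⟩ := Filter.eventually_atTop.1 hev
  by_cases h : (r + k0 * (N * a) : 𝓞 K) = 0
  · refine ⟨r + (k0 + 1 : ℕ) * (N * a), ?_, hmk _, hk0 _ (Nat.le_succ _)⟩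
    have h1 : (r + (k0 + 1 : ℕ) * (N * a) : 𝓞 K) = (r + k0 * (N * a)) + N * a := by
      push_cast
      ring
    rw [h1, h, zero_add]
    refine mul_ne_zero ?_ ha0
    exact_mod_cast hN0.ne'
  · exact ⟨_, h, hmk _, hk0 _ le_rfl⟩

theorem isTy_mul {β γ : Ty K 𝔪} {x y : 𝓞 K} (hx : isTy K 𝔪 β x) (hy : isTy K 𝔪 γ y) :
    isTy K 𝔪 (β * γ) (x * y) := by
  refine ⟨?_, fun w => ?_⟩
  · rw [map_mul, hx.1, hy.1]
    rfl
  · have h1 := mul_pos (hx.2 w) (hy.2 w)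
    have h2 : (mixedEmbedding K ((x * y : 𝓞 K) : K)).1 w =
        (mixedEmbedding K (x : K)).1 w * (mixedEmbedding K (y : K)).1 w := by
      simp only [mixedEmbedding_apply_isReal]
      push_cast
      rw [map_mul]
    have h3 : ((((β * γ).2 w : ℤˣ) : ℤ) : ℝ) = ((β.2 w : ℤ) : ℝ) * ((γ.2 w : ℤ) : ℝ) := by
      change (((β.2 w * γ.2 w : ℤˣ) : ℤ) : ℝ) = _
      push_cast
      ring
    rw [h2, h3]
    linarith

theorem isTy_one : isTy K 𝔪 1 1 := by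
  refine ⟨by rw [map_one]; rfl, fun w => ?_⟩
  have h1 : (mixedEmbedding K ((1 : 𝓞 K) : K)).1 w = 1 := by
    simp only [mixedEmbedding_apply_isReal]
    push_cast
    rw [map_one]
  rw [h1]
  change (0 : ℝ) < (((1 : ℤˣ) : ℤ) : ℝ) * 1
  simp

theorem isTy_unique {β γ : Ty K 𝔪} {x : 𝓞 K} (hx : isTy K 𝔪 β x) (hy : isTy K 𝔪 γ x) :
    β = γ := by
  refine Prod.ext (Units.ext (hx.1.symm.trans hy.1)) (funext fun w => ?_)
  have h1 := hx.2 w
  have h2 := hy.2 w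
  rcases Int.units_eq_one_or (β.2 w) with h | h <;> rcases Int.units_eq_one_or (γ.2 w) with h' | h'
  · rw [h, h']
  · rw [h] at h1
    rw [h'] at h2
    push_cast at h1 h2
    linarith
  · rw [h] at h1
    rw [h'] at h2
    push_cast at h1 h2
    linarith
  · rw [h, h']

theorem exists_ty_iff (x : 𝓞 K) (hx : x ≠ 0) : (∃ β, isTy K 𝔪 β x) ↔ Cop K 𝔪 (pr K x) := by
  classical
  unfold Cop
  rw [coe_pr K x hx, Ideal.isCoprime_iff_exists]
  constructor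
  · rintro ⟨β, hβ, -⟩
    obtain ⟨y, hy⟩ := Ideal.Quotient.mk_surjective ((β.1⁻¹ : (𝓞 K ⧸ (𝔪 : Ideal (𝓞 K)))ˣ) :
      𝓞 K ⧸ (𝔪 : Ideal (𝓞 K)))
    have h1 : Ideal.Quotient.mk (𝔪 : Ideal (𝓞 K)) (1 - x * y) = 0 := by
      rw [map_sub, map_one, map_mul, hβ, hy, Units.mul_inv, sub_self]
    refine ⟨x * y, Ideal.mul_mem_right _ _ (Ideal.mem_span_singleton_self x), 1 - x * y,
      Ideal.Quotient.eq_zero_iff_mem.1 h1, by ring⟩
  · rintro ⟨i, hi, j, hj, hij⟩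
    obtain ⟨y, rfl⟩ := Ideal.mem_span_singleton.1 hi
    have h1 : Ideal.Quotient.mk (𝔪 : Ideal (𝓞 K)) x * Ideal.Quotient.mk (𝔪 : Ideal (𝓞 K)) y = 1 := by
      rw [← map_mul, ← map_one (Ideal.Quotient.mk (𝔪 : Ideal (𝓞 K))), ← hij, map_add,
        Ideal.Quotient.eq_zero_iff_mem.2 hj, add_zero]
    refine ⟨(Units.mkOfMulEqOne _ _ h1, fun w =>
      if 0 < (mixedEmbedding K (x : K)).1 w then 1 else -1), rfl, fun w => ?_⟩
    have h2 : (mixedEmbedding K (x : K)).1 w ≠ 0 := by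
      rw [mixedEmbedding_apply_isReal, map_ne_zero]
      exact_mod_cast hx
    dsimp only
    split_ifs with h3
    · simpa using h3
    · have h4 : (mixedEmbedding K (x : K)).1 w < 0 := lt_of_le_of_ne (not_lt.1 h3) h2
      push_cast
      linarith

theorem ray_ty (χ : DM.Mul K) (hχ : IsRay K 𝔪 χ) {β : Ty K 𝔪} {x y : 𝓞 K} (hx : x ≠ 0)
    (hy : y ≠ 0) (h : isTy K 𝔪 β x) (h' : isTy K 𝔪 β y) : χ (pr K x) = χ (pr K y) := by
  obtain ⟨z, hz0, hz⟩ := exists_isTy K 𝔪 β⁻¹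
  have key : ∀ u : 𝓞 K, u ≠ 0 → isTy K 𝔪 β u → χ (pr K z) * χ (pr K u) = 1 := by
    intro u hu hβ
    have h1 := isTy_mul K 𝔪 hz hβ
    rw [inv_mul_cancel] at h1
    rw [← map_mul, ← pr_mul K z u hz0 hu]
    refine hχ.2.2 _ (mul_ne_zero hz0 hu) ?_ h1.2
    rw [← Ideal.Quotient.eq, h1.1, map_one]
    rfl
  have h1 := key x hx h
  have h2 := key y hy h'
  have h3 : χ (pr K z) ≠ 0 := left_ne_zero_of_mul_eq_one h1
  exact mul_left_cancel₀ h3 (h1.trans h2.symm)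

/-- A nonzero algebraic integer of type `β`. -/
noncomputable def xt (β : Ty K 𝔪) : 𝓞 K := (exists_isTy K 𝔪 β).choose

theorem xt_ne (β : Ty K 𝔪) : xt K 𝔪 β ≠ 0 := (exists_isTy K 𝔪 β).choose_spec.1

theorem xt_isTy (β : Ty K 𝔪) : isTy K 𝔪 β (xt K 𝔪 β) := (exists_isTy K 𝔪 β).choose_spec.2

/-- The value of `χ` at the principal ideals generated by the elements of type `β`. -/
noncomputable def vt (χ : DM.Mul K) (β : Ty K 𝔪) : ℂ := χ (pr K (xt K 𝔪 β))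

theorem vt_eq (χ : DM.Mul K) (hχ : IsRay K 𝔪 χ) {β : Ty K 𝔪} {x : 𝓞 K} (hx : x ≠ 0)
    (h : isTy K 𝔪 β x) : vt K 𝔪 χ β = χ (pr K x) :=
  ray_ty K 𝔪 χ hχ (xt_ne K 𝔪 β) hx (xt_isTy K 𝔪 β) h

theorem vt_one (χ : DM.Mul K) (hχ : IsRay K 𝔪 χ) : vt K 𝔪 χ 1 = 1 := by
  rw [vt_eq K 𝔪 χ hχ one_ne_zero (isTy_one K 𝔪), pr_one, map_one]

theorem vt_mul (χ : DM.Mul K) (hχ : IsRay K 𝔪 χ) (β γ : Ty K 𝔪) :
    vt K 𝔪 χ (β * γ) = vt K 𝔪 χ β * vt K 𝔪 χ γ := by
  rw [vt_eq K 𝔪 χ hχ (mul_ne_zero (xt_ne K 𝔪 β) (xt_ne K 𝔪 γ))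
    (isTy_mul K 𝔪 (xt_isTy K 𝔪 β) (xt_isTy K 𝔪 γ)), pr_mul K _ _ (xt_ne K 𝔪 β) (xt_ne K 𝔪 γ),
    map_mul]
  rfl

theorem norm_vt (χ : DM.Mul K) (hχ : IsRay K 𝔪 χ) (β : Ty K 𝔪) : ‖vt K 𝔪 χ β‖ = 1 :=
  hχ.1 _ ((exists_ty_iff K 𝔪 _ (xt_ne K 𝔪 β)).1 ⟨β, xt_isTy K 𝔪 β⟩)

end Pool.RC
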