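import Pool.Agent.RC.Unf
import Pool.Agent.RC.Types
import Pool.Agent.RC.Rep
import Pool.Agent.HDZ.KeyS
import Pool.Agent.ZD.Counts
import Pool.Agent.ZD.Key

/-!
# Module WT: the weights

PAPER PROOF. Write `y = yy K J Z > 0`, `y ^ finrank = Z N(J)` (`yy_pow`), `Π = PhiS K (fun _ => 1)` (continuous, `≥ 0`, depends only on the absolute
values at the places: `PhiS_congr`).

`sum_qw`: exchange the finite sum over `β` with the integral and with the sum over `x` (`lintegral_finset_sum`, measurability of the terms: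
`PhiS` with `g = 1` is continuous, `continuous_psiS`); if `pr x = I J` then `x` is prime to `𝔪` (`cop_mul`), so `∑_β [isTy β x] = 1` (`exists_ty_iff`,
`isTy_unique`), and the sum is `∫_{FD} ∑_x [pr x = I J] Π (y⁻¹ sg t x)`, which by `lintegral_tsum` and `unfoldW` with `h = [· = I J]` and
`H (u) = ofReal cK` is `torsionOrder K * ∑_{I' ∈ Cls A} [I' J = I J] ofReal cK = torsionOrder K * ofReal cK`. (The hypothesis `hint` is applied to
`y⁻¹ • x`, and `sg t * (y⁻¹ • x) = y⁻¹ • (sg t * x)`.)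
`qw_eq_zero`: if `I` is not prime to `𝔪` then `pr x = I J` is not prime to `𝔪`, so no `β` has `isTy β x`; all terms vanish.
`qw_lt_top`: `qw ≤ ∑_β qw`, which is finite if `I` is prime to `𝔪`, and `qw = 0` otherwise.
`vt_qw`: if `qw ≠ 0` there is `x ∈ NZ J` with `pr x = I J` and `isTy β x`, so `vt χ β = χ (pr x) = χ I χ J`.
`regroup`: for every `x ∈ NZ J`, `(x) = I J` for exactly one `I ∈ Cls A`; and `norm (y⁻¹ sg t x) = N(x) / y ^ finrank = N(I) N(J)/(Z N(J)) = N(I)/Z`,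
so `PhiS g (y⁻¹ sg t x) = g ((N(I)/Z)^2) Π (y⁻¹ sg t x)`. Hence `TT = ∑_x ∑_{I ∈ Cls A} [pr x = I J] [isTy β x] ofReal (g ((N I/Z)^2)) ofReal Π(…)`; exchange the sums and
the integral (`ENNReal.tsum_comm`, `lintegral_tsum`, `lintegral_const_mul`).
-/

open scoped NumberField nonZeroDivisors ENNReal
open NumberField NumberField.InfinitePlace NumberField.mixedEmbedding NumberField.Units
  NumberField.Units.dirichletUnitTheorem MeasureTheory Pool.ZD Pool.HDZ Pool.DM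

namespace Pool.RC

variable (K : Type) [Field K] [NumberField K] (𝔪 : (Ideal (𝓞 K))⁰)

namespace WtAux

open scoped Classical in
/-- The integral of the weight function at `x`. -/
noncomputable def pw (J : (Ideal (𝓞 K))⁰) (Z : ℝ) (x : 𝓞 K) : ℝ≥0∞ :=
  ∫⁻ t in FD K, ENNReal.ofReal (PhiS K (fun _ => 1)
      ((yy K J Z)⁻¹ • (sg K t * mixedEmbedding K (x : K))))

theorem continuous_P1 : Continuous (PhiS K (fun _ => 1)) := by
  unfold PhiS
  refine continuous_const.mul ?_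
  exact continuous_finsetProd _ fun w _ => continuous_psiS.comp ((continuous_normAtPlace w.1).pow 2)

theorem meas_P1 (a : ℝ) (z : mixedSpace K) :
    Measurable fun t : logSpace K => ENNReal.ofReal (PhiS K (fun _ => 1) (a • (sg K t * z))) := by
  refine ENNReal.measurable_ofReal.comp ?_
  refine Continuous.measurable ?_
  refine (continuous_P1 K).comp ?_
  have h1 : Continuous fun t : logSpace K => sg K t * z := (continuous_sg K).mul continuous_const
  exact h1.const_smul a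

open scoped Classical in
theorem qw_eq (J : (Ideal (𝓞 K))⁰) (Z : ℝ) (β : Ty K 𝔪) (I : (Ideal (𝓞 K))⁰) :
    qw K 𝔪 J Z β I = ∑' x : NZ K J, if pr K (x : 𝓞 K) = I * J ∧ isTy K 𝔪 β (x : 𝓞 K) then
      pw K J Z (x : 𝓞 K) else 0 := by
  unfold qw
  rw [lintegral_tsum]
  · refine tsum_congr fun x => ?_
    split_ifs with h
    · rfl
    · simp
  · intro x
    split_ifs with h
    · exact (meas_P1 K _ _).aemeasurable
    · exact measurable_const.aemeasurable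

theorem norm_emb (x : 𝓞 K) (hx : x ≠ 0) :
    mixedEmbedding.norm (mixedEmbedding K (x : K)) = nm K (pr K x) := by
  unfold nm
  rw [coe_pr K x hx, Ideal.absNorm_span_singleton, norm_eq_norm, Nat.cast_natAbs,
    ← Algebra.coe_norm_int]
  push_cast
  rfl

theorem exists_cls (J : (Ideal (𝓞 K))⁰) (A : ClassGroup (𝓞 K)) (hJ : ClassGroup.mk0 J = A⁻¹)
    (x : NZ K J) : ∃ I : Cls K A, pr K (x : 𝓞 K) = (I : (Ideal (𝓞 K))⁰) * J := by
  have h1 : (J : Ideal (𝓞 K)) ∣ (pr K (x : 𝓞 K) : Ideal (𝓞 K)) := by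
    rw [coe_pr K _ x.2.2, Ideal.dvd_span_singleton]
    exact x.2.1
  obtain ⟨I, hI⟩ := nonZeroDivisors_dvd_iff_dvd_coe.mpr h1
  have h2 : ClassGroup.mk0 (pr K (x : 𝓞 K)) = 1 := by
    rw [ClassGroup.mk0_eq_one_iff, coe_pr K _ x.2.2]
    exact ⟨_, rfl⟩
  refine ⟨⟨I, ?_⟩, ?_⟩
  · rw [hI, map_mul, hJ, inv_mul_eq_one] at h2
    exact h2.symm
  · exact hI.trans (mul_comm _ _)

theorem PhiS_split (g : ℝ → ℝ) (z : mixedSpace K) :
    PhiS K g z = g (mixedEmbedding.norm z ^ 2) * PhiS K (fun _ => 1) z := by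
  unfold PhiS
  rw [one_mul]

end WtAux

open WtAux

theorem yy_pos (J : (Ideal (𝓞 K))⁰) (Z : ℝ) (hZ : 0 < Z) : 0 < yy K J Z := by
  have h1 : 0 < nm K J := nm_pos' K J
  exact Real.rpow_pos_of_pos (by positivity) _

theorem yy_pow (J : (Ideal (𝓞 K))⁰) (Z : ℝ) (hZ : 0 < Z) :
    yy K J Z ^ Module.finrank ℚ K = Z * nm K J := by
  have h1 : 0 < nm K J := nm_pos' K J
  unfold yy
  rw [one_div]
  exact Real.rpow_inv_natCast_pow (by positivity) Module.finrank_pos.ne'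

open scoped Classical in
theorem sum_qw (J : (Ideal (𝓞 K))⁰) (A : ClassGroup (𝓞 K)) (hJ : ClassGroup.mk0 J = A⁻¹)
    (hJc : Cop K 𝔪 J) (cK : ℝ)
    (hint : ∀ x : mixedSpace K, mixedEmbedding.norm x ≠ 0 →
      ∫⁻ t : logSpace K, ENNReal.ofReal (PhiS K (fun _ => 1) (sg K t * x)) = ENNReal.ofReal cK)
    (Z : ℝ) (hZ : 0 < Z) (I : Cls K A) (hI : Cop K 𝔪 I) :
    ∑ β : Ty K 𝔪, qw K 𝔪 J Z β I = torsionOrder K * ENNReal.ofReal cK := by
  have hy := yy_pos K J Z hZ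
  simp only [qw_eq]
  rw [← tsum_fintype (L := SummationFilter.unconditional _), ENNReal.tsum_comm]
  have h1 : ∀ x : NZ K J, (∑' β : Ty K 𝔪, if pr K (x : 𝓞 K) = (I : (Ideal (𝓞 K))⁰) * J ∧
      isTy K 𝔪 β (x : 𝓞 K) then pw K J Z (x : 𝓞 K) else 0) =
      (if pr K (x : 𝓞 K) = (I : (Ideal (𝓞 K))⁰) * J then 1 else 0) * pw K J Z (x : 𝓞 K) := by
    intro x
    by_cases h : pr K (x : 𝓞 K) = (I : (Ideal (𝓞 K))⁰) * J
    · have hc : Cop K 𝔪 (pr K (x : 𝓞 K)) := by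
        rw [h, cop_mul]
        exact ⟨hI, hJc⟩
      obtain ⟨β, hβ⟩ := (exists_ty_iff K 𝔪 _ x.2.2).mpr hc
      rw [tsum_eq_single β]
      · rw [if_pos ⟨h, hβ⟩, if_pos h, one_mul]
      · intro γ hγ
        rw [if_neg]
        rintro ⟨_, h2⟩
        exact hγ (isTy_unique K 𝔪 h2 hβ)
    · simp [h]
  rw [tsum_congr h1]
  have hc : Continuous (fun x : mixedSpace K => PhiS K (fun _ => 1) ((yy K J Z)⁻¹ • x)) :=
    (continuous_P1 K).comp (continuous_const_smul _)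
  have h2 := unfoldW K J A hJ
    (fun I' => if I' = (I : (Ideal (𝓞 K))⁰) * J then 1 else 0)
    (fun x => ENNReal.ofReal (PhiS K (fun _ => 1) ((yy K J Z)⁻¹ • x)))
    (ENNReal.measurable_ofReal.comp hc.measurable) (fun x z hxz => by
      have : PhiS K (fun _ => 1) ((yy K J Z)⁻¹ • x) = PhiS K (fun _ => 1) ((yy K J Z)⁻¹ • z) := by
        refine PhiS_congr K _ _ _ fun w => ?_
        rw [normAtPlace_smul, normAtPlace_smul, hxz w]
      simp only [this]) (fun _ => ENNReal.ofReal cK) (fun x hx => by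
      have hx' : mixedEmbedding.norm ((yy K J Z)⁻¹ • x) ≠ 0 := by
        rw [mixedEmbedding.norm_smul]
        positivity
      rw [← hint _ hx']
      refine lintegral_congr fun t => ?_
      rw [mul_smul_comm])
  refine h2.trans ?_
  congr 1
  rw [tsum_eq_single I]
  · simp
  · intro I' hI'
    rw [if_neg, zero_mul]
    intro h
    exact hI' (Subtype.ext (mul_right_cancel h))

theorem qw_eq_zero (J : (Ideal (𝓞 K))⁰) (Z : ℝ) (β : Ty K 𝔪) (I : (Ideal (𝓞 K))⁰)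
    (hI : ¬ Cop K 𝔪 I) : qw K 𝔪 J Z β I = 0 := by
  classical
  rw [qw_eq, ENNReal.tsum_eq_zero]
  intro x
  rw [if_neg]
  rintro ⟨h1, h2⟩
  apply hI
  have h3 := (exists_ty_iff K 𝔪 _ x.2.2).mp ⟨β, h2⟩
  rw [h1, cop_mul] at h3
  exact h3.1

open scoped Classical in
theorem qw_lt_top (J : (Ideal (𝓞 K))⁰) (A : ClassGroup (𝓞 K)) (hJ : ClassGroup.mk0 J = A⁻¹)
    (hJc : Cop K 𝔪 J) (cK : ℝ)
    (hint : ∀ x : mixedSpace K, mixedEmbedding.norm x ≠ 0 →
      ∫⁻ t : logSpace K, ENNReal.ofReal (PhiS K (fun _ => 1) (sg K t * x)) = ENNReal.ofReal cK)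
    (Z : ℝ) (hZ : 0 < Z) (β : Ty K 𝔪) (I : Cls K A) : qw K 𝔪 J Z β I < ⊤ := by
  by_cases hI : Cop K 𝔪 I
  · have h1 := sum_qw K 𝔪 J A hJ hJc cK hint Z hZ I hI
    have h2 : qw K 𝔪 J Z β I ≤ ∑ β : Ty K 𝔪, qw K 𝔪 J Z β I :=
      Finset.single_le_sum (f := fun β => qw K 𝔪 J Z β I) (fun _ _ => zero_le)
        (Finset.mem_univ β)
    refine h2.trans_lt ?_
    rw [h1]
    exact ENNReal.mul_lt_top (ENNReal.natCast_lt_top _) ENNReal.ofReal_lt_top
  · rw [qw_eq_zero K 𝔪 J Z β I hI]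
    exact ENNReal.zero_lt_top

theorem vt_qw (J : (Ideal (𝓞 K))⁰) (Z : ℝ) (χ : DM.Mul K) (hχ : IsRay K 𝔪 χ) (β : Ty K 𝔪)
    (I : (Ideal (𝓞 K))⁰) :
    vt K 𝔪 χ β * ((qw K 𝔪 J Z β I).toReal : ℂ) = χ I * χ J * ((qw K 𝔪 J Z β I).toReal : ℂ) := by
  classical
  by_cases h : ∃ x : NZ K J, pr K (x : 𝓞 K) = I * J ∧ isTy K 𝔪 β (x : 𝓞 K)
  · obtain ⟨x, hx1, hx2⟩ := h
    rw [vt_eq K 𝔪 χ hχ x.2.2 hx2, hx1, map_mul]
  · have h0 : qw K 𝔪 J Z β I = 0 := by
      rw [qw_eq, ENNReal.tsum_eq_zero]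
      intro x
      rw [if_neg]
      exact fun h1 => h ⟨x, h1⟩
    rw [h0]
    simp

open scoped Classical in
theorem regroup (J : (Ideal (𝓞 K))⁰) (A : ClassGroup (𝓞 K)) (hJ : ClassGroup.mk0 J = A⁻¹)
    (g : ℝ → ℝ) (hg : ∀ u, 0 ≤ g u) (Z : ℝ) (hZ : 0 < Z) (β : Ty K 𝔪) :
    ∫⁻ t in FD K, TT K 𝔪 J β g (yy K J Z) t =
      ∑' I : Cls K A, ENNReal.ofReal (g ((nm K I / Z) ^ 2)) * qw K 𝔪 J Z β I := by
  have hy := yy_pos K J Z hZ
  have hJ0 : 0 < nm K J := nm_pos' K J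
  have hP : ∀ (x : NZ K J) (t : logSpace K),
      ENNReal.ofReal (PhiS K g ((yy K J Z)⁻¹ • (sg K t * mixedEmbedding K ((x : 𝓞 K) : K)))) =
      ENNReal.ofReal (g ((nm K (pr K (x : 𝓞 K)) / (Z * nm K J)) ^ 2)) * ENNReal.ofReal
        (PhiS K (fun _ => 1) ((yy K J Z)⁻¹ • (sg K t * mixedEmbedding K ((x : 𝓞 K) : K)))) := by
    intro x t
    rw [PhiS_split K g, mixedEmbedding.norm_smul, norm_sg_mul, norm_emb K _ x.2.2,
      abs_of_pos (inv_pos.mpr hy), inv_pow, yy_pow K J Z hZ, ENNReal.ofReal_mul (hg _),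
      ← div_eq_inv_mul]
  have hL : ∫⁻ t in FD K, TT K 𝔪 J β g (yy K J Z) t =
      ∑' x : NZ K J, ENNReal.ofReal (g ((nm K (pr K (x : 𝓞 K)) / (Z * nm K J)) ^ 2)) *
        if isTy K 𝔪 β (x : 𝓞 K) then pw K J Z (x : 𝓞 K) else 0 := by
    unfold TT
    simp only [hP]
    rw [lintegral_tsum]
    · refine tsum_congr fun x => ?_
      split_ifs with h
      · rw [lintegral_const_mul _ (meas_P1 K _ _)]
        rfl
      · simp
    · intro x
      split_ifs with h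
      · exact ((meas_P1 K _ _).const_mul _).aemeasurable
      · exact measurable_const.aemeasurable
  rw [hL]
  simp only [qw_eq, ← ENNReal.tsum_mul_left]
  rw [ENNReal.tsum_comm]
  refine tsum_congr fun x => ?_
  obtain ⟨I, hI⟩ := exists_cls K J A hJ x
  rw [tsum_eq_single I]
  · have h1 : nm K (pr K (x : 𝓞 K)) / (Z * nm K J) = nm K I / Z := by
      rw [hI, nm_mul]
      field_simp
    rw [h1]
    by_cases h2 : isTy K 𝔪 β (x : 𝓞 K)
    · rw [if_pos h2, if_pos ⟨hI, h2⟩]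
    · rw [if_neg h2, if_neg (fun h => h2 h.2)]
  · intro I' hI'
    rw [if_neg, mul_zero]
    rintro ⟨h, _⟩
    exact hI' (Subtype.ext (mul_right_cancel (h.symm.trans hI)))

end Pool.RC
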