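import Pool.Agent.RC.PtT
import Pool.Agent.RC.IntL
import Pool.Agent.RC.Wt
import Pool.Agent.RC.Orth

/-!
# Module KEYT: mean square of the type sums over all classes and types (assembly, helper46)
-/

open scoped NumberField nonZeroDivisors ENNReal InnerProductSpace
open NumberField NumberField.InfinitePlace NumberField.mixedEmbedding NumberField.Units
  NumberField.Units.dirichletUnitTheorem MeasureTheory Filter Topology Pool.ZD Pool.HDZ Pool.DM

namespace Pool.RC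

section aux

variable (K : Type) [Field K] [NumberField K] (𝔪 : (Ideal (𝓞 K))⁰)

theorem measurable_TT {k : ℕ} {G : ℝ} {g : ℝ → ℝ} (hg : NiceS k G g) (J : (Ideal (𝓞 K))⁰)
    (β : Ty K 𝔪) (y : ℝ) : Measurable (TT K 𝔪 J β g y) := by
  classical
  unfold TT
  refine Measurable.tsum fun x => ?_
  by_cases h : isTy K 𝔪 β (x : 𝓞 K)
  · simp only [if_pos h]
    refine ENNReal.measurable_ofReal.comp ?_
    refine Continuous.measurable ?_
    refine (continuous_PhiS K hg).comp ?_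
    have h1 : Continuous fun t : logSpace K =>
        sg K t * mixedEmbedding K ((x : 𝓞 K) : K) := (continuous_sg K).mul continuous_const
    exact h1.const_smul (y⁻¹)
  · simp only [if_neg h]
    exact measurable_const

theorem TT_le_TS (g : ℝ → ℝ) (J : (Ideal (𝓞 K))⁰) (β : Ty K 𝔪) (y : ℝ) (t : logSpace K) :
    TT K 𝔪 J β g y t ≤ TS K J g y t := by
  classical
  unfold TT TS
  refine ENNReal.tsum_le_tsum fun x => ?_
  split_ifs
  · exact le_rfl
  · exact bot_le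

open scoped Classical in
theorem lint_TT_lt_top {k : ℕ} (hk : 1 ≤ k) {G : ℝ} {g : ℝ → ℝ} (hg : NiceS k G g)
    (hg0 : ∀ u, 0 ≤ g u) (J : (Ideal (𝓞 K))⁰)
    (cK : ℝ) (hcK : 0 ≤ cK)
    (hint : ∀ x : mixedSpace K, mixedEmbedding.norm x ≠ 0 →
      ∫⁻ t : logSpace K, ENNReal.ofReal (PhiS K g (sg K t * x)) =
        ENNReal.ofReal (cK * g (mixedEmbedding.norm x ^ 2)))
    (β : Ty K 𝔪) (y : ℝ) (hy : 0 < y) :
    ∫⁻ t in FD K, TT K 𝔪 J β g y t < ⊤ := by
  refine lt_of_le_of_lt (lintegral_mono fun t => TT_le_TS K 𝔪 g J β y t) ?_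
  rw [lint_TS K hg J (ClassGroup.mk0 J)⁻¹ (inv_inv _).symm cK hint y hy]
  refine ENNReal.mul_lt_top (ENNReal.natCast_lt_top _) ?_
  have hN := nm_pos' K J
  set Z : ℝ := y ^ Module.finrank ℚ K / nm K J with hZ
  have hZ0 : 0 < Z := by positivity
  have h2 : ∀ I : Cls K (ClassGroup.mk0 J)⁻¹,
      cK * g ((nm K I * nm K J / y ^ Module.finrank ℚ K) ^ 2) = cK * g ((nm K I / Z) ^ 2) := by
    intro I
    congr 3
    rw [hZ]
    field_simp
  simp only [h2]
  have hs : Summable (fun I : Cls K (ClassGroup.mk0 J)⁻¹ => g ((nm K I / Z) ^ 2)) := by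
    have h1 := summable_g K (ClassGroup.mk0 J)⁻¹ (8 * G) _ (nice_sq hk hg) Z hZ0
    refine h1.congr fun I => ?_
    have h2 : 0 ≤ nm K I / Z := div_nonneg (nm_pos' K I).le hZ0.le
    simp only [max_eq_right h2]
  rw [← ENNReal.ofReal_tsum_of_nonneg (fun I => mul_nonneg hcK (hg0 _)) (hs.mul_left cK)]
  exact ENNReal.ofReal_lt_top

open scoped Classical in
/-- Cauchy-Schwarz over the fundamental domain. -/
theorem cs_types {k : ℕ} {G : ℝ} {g : ℝ → ℝ} (hg : NiceS k G g) (J : (Ideal (𝓞 K))⁰) (y : ℝ)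
    (main : ℝ) (F : logSpace K → ℝ) (hFint : Integrable F (volume.restrict (FD K)))
    (hfin : ∀ β, ∫⁻ t in FD K, TT K 𝔪 J β g y t < ⊤)
    (hpt : ∀ᵐ t ∂(volume.restrict (FD K)),
      ∑ β : Ty K 𝔪, |(TT K 𝔪 J β g y t).toReal - main| ^ 2 ≤ F t) :
    ∑ β : Ty K 𝔪, |(∫⁻ t in FD K, TT K 𝔪 J β g y t).toReal - regulator K * main| ^ 2 ≤
      regulator K * ∫ t in FD K, F t := by
  obtain ⟨hFD, hreg⟩ := FD_measure K
  have : IsFiniteMeasure (volume.restrict (FD K)) := ⟨by simpa using hFD⟩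
  have hvol : (volume.restrict (FD K)).real Set.univ = regulator K := by
    rw [measureReal_restrict_apply_univ]
    exact hreg
  have hRpos := regulator_pos K
  have hmeas : ∀ β, Measurable (fun t => (TT K 𝔪 J β g y t).toReal) := fun β =>
    (measurable_TT K 𝔪 hg J β y).ennreal_toReal
  have hae : ∀ β, ∀ᵐ t ∂(volume.restrict (FD K)), TT K 𝔪 J β g y t < ⊤ := fun β =>
    ae_lt_top (measurable_TT K 𝔪 hg J β y) (hfin β).ne
  have hTint : ∀ β, Integrable (fun t => (TT K 𝔪 J β g y t).toReal) (volume.restrict (FD K)) :=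
    fun β => integrable_toReal_of_lintegral_ne_top (measurable_TT K 𝔪 hg J β y).aemeasurable
      (hfin β).ne
  have hval : ∀ β, ∫ t in FD K, (TT K 𝔪 J β g y t).toReal =
      (∫⁻ t in FD K, TT K 𝔪 J β g y t).toReal := fun β =>
    integral_toReal (measurable_TT K 𝔪 hg J β y).aemeasurable (hae β)
  have hsq : ∀ β, Integrable (fun t => |(TT K 𝔪 J β g y t).toReal - main| ^ 2)
      (volume.restrict (FD K)) := by
    intro β
    refine Integrable.mono' hFint
      ((((hmeas β).sub_const main).abs.pow_const 2).aestronglyMeasurable) ?_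
    filter_upwards [hpt] with t ht
    rw [Real.norm_of_nonneg (by positivity)]
    exact (Finset.single_le_sum (f := fun β => |(TT K 𝔪 J β g y t).toReal - main| ^ 2)
      (fun _ _ => by positivity) (Finset.mem_univ β)).trans ht
  have h1 : ∀ β : Ty K 𝔪,
      |(∫⁻ t in FD K, TT K 𝔪 J β g y t).toReal - regulator K * main| ^ 2 ≤
      regulator K * ∫ t in FD K, |(TT K 𝔪 J β g y t).toReal - main| ^ 2 := by
    intro β
    obtain ⟨hsint, hs⟩ := sq_integral_sqrt_le (volume.restrict (FD K))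
      (fun t => |(TT K 𝔪 J β g y t).toReal - main| ^ 2) (fun t => by positivity) (hsq β)
    rw [hvol] at hs
    refine le_trans ?_ hs
    refine pow_le_pow_left₀ (abs_nonneg _) ?_ 2
    have h2 : (∫⁻ t in FD K, TT K 𝔪 J β g y t).toReal - regulator K * main =
        ∫ t in FD K, ((TT K 𝔪 J β g y t).toReal - main) := by
      rw [integral_sub (hTint β) (integrable_const _), hval, integral_const, hvol, smul_eq_mul]
    rw [h2]
    refine (abs_integral_le_integral_abs).trans (le_of_eq ?_)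
    refine integral_congr_ae (Eventually.of_forall fun t => ?_)
    simp only
    rw [Real.sqrt_sq (abs_nonneg _)]
  refine (Finset.sum_le_sum fun β _ => h1 β).trans ?_
  rw [← Finset.mul_sum, ← integral_finsetSum _ (fun β _ => hsq β)]
  refine mul_le_mul_of_nonneg_left ?_ hRpos.le
  exact integral_mono_ae (integrable_finsetSum _ (fun β _ => hsq β)) hFint hpt

theorem sum_Q1c (X : ℝ) (c : ClassGroup (𝓞 K)) : ∑ A : ClassGroup (𝓞 K), Q1 K (A * c) X =
    ∑ A : ClassGroup (𝓞 K), Q1 K A X :=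
  Equiv.sum_comp (Equiv.mulRight c) (fun A => Q1 K A X)

/-- sums of the real numbers behind the two sums -/
theorem sum_q1 (m : ℕ) (hm : 2 ≤ m) (ε : ℝ) (CS1 : ℝ) (hCS1 : 0 < CS1)
    (hK : Module.finrank ℚ K = m)
    (hS1 : open scoped Classical in ∀ X : ℝ, 0 < X →
      ∑' I : (Ideal (𝓞 K))⁰, (if nm K I ≤ X then ENNReal.ofReal ((nm K I)⁻¹) else 0) ≤
        ENNReal.ofReal (CS1 * X ^ ε)) (c : ClassGroup (𝓞 K)) (X : ℝ) (hX : 0 < X) :
    ∑ A : ClassGroup (𝓞 K), (Q1 K (A * c) X).toReal ≤ CS1 * X ^ ε := by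
  classical
  have h5 : ∑ A : ClassGroup (𝓞 K), Q1 K (A * c) X ≤ ENNReal.ofReal (CS1 * X ^ ε) := by
    rw [sum_Q1c, MeanAux.sum_Q1]
    convert hS1 X hX
  have h6 : ∀ A ∈ (Finset.univ : Finset (ClassGroup (𝓞 K))), Q1 K (A * c) X ≠ ⊤ := fun A _ =>
    (q1_lt_top K (hK.symm ▸ hm) _ X hX).ne
  rw [← ENNReal.toReal_sum h6]
  exact ENNReal.toReal_le_of_le_ofReal (by positivity) h5

theorem sum_q2 (m : ℕ) (hm : 2 ≤ m) (ε : ℝ) (CS2 : ℝ) (hCS2 : 0 < CS2)
    (hK : Module.finrank ℚ K = m)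
    (hS2 : ∀ x : ℝ, 0 < x →
      ∑' I : (Ideal (𝓞 K))⁰, ENNReal.ofReal (hh m ((nm K I / x) ^ (1 / (m : ℝ)))) ≤
        ENNReal.ofReal (CS2 * x * (max 1 x) ^ ε)) (c : ClassGroup (𝓞 K)) (x : ℝ) (hx : 0 < x) :
    ∑ A : ClassGroup (𝓞 K), (Q2 K m (c⁻¹ * A⁻¹) x).toReal ≤ CS2 * x * (max 1 x) ^ ε := by
  have h5 : ∑ A : ClassGroup (𝓞 K), Q2 K m (c⁻¹ * A⁻¹) x ≤
      ENNReal.ofReal (CS2 * x * (max 1 x) ^ ε) := by
    rw [MeanAux.sum_Q2]
    exact hS2 x hx
  have h6 : ∀ A ∈ (Finset.univ : Finset (ClassGroup (𝓞 K))), Q2 K m (c⁻¹ * A⁻¹) x ≠ ⊤ :=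
    fun A _ => (q2_lt_top K m hm hK _ x hx).ne
  rw [← ENNReal.toReal_sum h6]
  exact ENNReal.toReal_le_of_le_ofReal (by positivity) h5

theorem VJ_mul (J : (Ideal (𝓞 K))⁰) : VJ K (𝔪 * J) = VJ K 𝔪 * nm K J := by
  unfold VJ nm
  rw [Submonoid.coe_mul, map_mul]
  push_cast
  ring

theorem nm_mul' (I J : (Ideal (𝓞 K))⁰) : nm K (I * J) = nm K I * nm K J := by
  unfold nm
  rw [Submonoid.coe_mul, map_mul]
  push_cast
  ring

theorem one_le_nm (I : (Ideal (𝓞 K))⁰) : 1 ≤ nm K I := by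
  unfold nm
  have : 0 < Ideal.absNorm (I : Ideal (𝓞 K)) := Nat.pos_of_ne_zero (by
    rw [Ne, Ideal.absNorm_eq_zero_iff]
    exact nonZeroDivisors.coe_ne_zero I)
  exact_mod_cast this

end aux

open scoped Classical in
theorem type_mean (m : ℕ) (hm : 2 ≤ m) (k : ℕ) (hk : m + 1 ≤ 2 * k) (ε : ℝ) (hε : 0 < ε) :
    ∃ C : ℝ, 0 < C ∧
    ∀ (K : Type) [Field K] [NumberField K], Module.finrank ℚ K = m →
    ∀ (𝔪 : (Ideal (𝓞 K))⁰) (J : ClassGroup (𝓞 K) → (Ideal (𝓞 K))⁰), Reps K 𝔪 J →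
    ∀ (G : ℝ) (g : ℝ → ℝ), NiceS k G g → (∀ u, 0 ≤ g u) → ∀ Z : ℝ, 1 ≤ Z →
      (∀ (A : ClassGroup (𝓞 K)) (β : Ty K 𝔪),
        ∫⁻ t in FD K, TT K 𝔪 (J A) β g (yy K (J A) Z) t < ⊤) ∧
      ∑ p : ClassGroup (𝓞 K) × Ty K 𝔪,
        |(∫⁻ t in FD K, TT K 𝔪 (J p.1) p.2 g (yy K (J p.1) Z) t).toReal - MT K 𝔪 g Z| ^ 2 ≤
        C * G ^ 2 * (regulator K * torsionOrder K) * (Real.sqrt (DK K) * nm K 𝔪 * Z) ^ ε * Z := by
  obtain ⟨cT, hcT, hT⟩ := test_int m
  obtain ⟨CP, S, hCP, hS, hP⟩ := pt_type m hm k hk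
  obtain ⟨C1, hC1, hL1⟩ := int_L1 m hm S hS
  obtain ⟨C2, hC2, hL2⟩ := int_L2 m hm
  obtain ⟨CS1, hCS1, hS1⟩ := sum_inv m hm ε hε
  obtain ⟨CS2, hCS2, hS2⟩ := sum_hh m hm (ε / 2) (by positivity)
  have hC10 : 0 < C1 := by linarith
  have hC20 : 0 < C2 := by linarith
  have hk1 : 1 ≤ k := by omega
  have hm0 : (0 : ℝ) < m := by positivity
  refine ⟨CP * (C1 * (CS1 * C1 ^ ε) + 2 ^ m * (C1 * (CS1 * C1 ^ ε)) +
    2 ^ m * (4 ^ m * (C2 * CS2))), by positivity, ?_⟩
  intro K _ _ hK 𝔪 J hJ G g hg hg0 Z hZ1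
  obtain ⟨cK, hcK, hI⟩ := hT K hK
  have hcKpos : 0 < cK := lt_of_lt_of_le hcT hcK
  have hZ : 0 < Z := by linarith
  have hG : 0 ≤ G := hg.nonneg
  have hRpos := regulator_pos K
  have hw : (0 : ℝ) < torsionOrder K := by
    exact_mod_cast Nat.pos_of_ne_zero (NeZero.ne _)
  set w : ℝ := (torsionOrder K : ℝ) with hwdef
  have hD : 0 < DK K := DK_pos K
  have hD1 : 1 ≤ DK K := Pool.HDZ.one_le_DK K
  set D := DK K with hDdef
  have hM1 : 1 ≤ nm K 𝔪 := one_le_nm K 𝔪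
  set M := nm K 𝔪 with hMdef
  have hM0 : 0 < M := by linarith
  have hfin : ∀ (A : ClassGroup (𝓞 K)) (β : Ty K 𝔪),
      ∫⁻ t in FD K, TT K 𝔪 (J A) β g (yy K (J A) Z) t < ⊤ := fun A β =>
    lint_TT_lt_top K 𝔪 hk1 hg hg0 (J A) cK hcKpos.le (fun x hx => hI g hg0 x hx) β _
      (yy_pos K (J A) Z hZ)
  refine ⟨hfin, ?_⟩
  obtain ⟨c0, hc0⟩ := dual_id K
  set c1 : ClassGroup (𝓞 K) := (ClassGroup.mk0 𝔪)⁻¹ with hc1
  set c2 : ClassGroup (𝓞 K) := c0 * c1 with hc2
  set T : ℝ := ((Fintype.card (Ty K 𝔪) : ℕ) : ℝ) with hTdef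
  have hT0 : 0 ≤ T := Nat.cast_nonneg _
  have hTle : T ≤ 2 ^ m * M := by
    have := card_Ty_le K 𝔪
    rw [hK] at this
    exact this
  obtain ⟨hFD, hreg⟩ := FD_measure K
  -- the bound for one class
  have hclass : ∀ A : ClassGroup (𝓞 K),
      ∑ β : Ty K 𝔪, |(∫⁻ t in FD K, TT K 𝔪 (J A) β g (yy K (J A) Z) t).toReal -
        MT K 𝔪 g Z| ^ 2 ≤
      regulator K * (CP * G ^ 2 * (Z * (C1 * w * (Q1 K (A * 1) (C1 * Z)).toReal) +
        T * (Z / M * (C1 * w * (Q1 K (A * c1) (C1 * (Z / M))).toReal) +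
          4 ^ m * ((Z / M) ^ 2 / D) * (C2 * w * (Q2 K m (c2⁻¹ * A⁻¹) (D / (Z / M))).toReal)))) := by
    intro A
    obtain ⟨hJA, hJc⟩ := hJ A
    obtain ⟨J', n, hn, hcl, hnorm, hdual⟩ := hc0 (𝔪 * J A)
    set y := yy K (J A) Z with hy
    have hy0 : 0 < y := yy_pos K (J A) Z hZ
    have hym : y ^ m = Z * nm K (J A) := by
      rw [← hK]
      exact yy_pow K (J A) Z hZ
    have hNJ := nm_pos' K (J A)
    have hym2 : y ^ m = Z / M * nm K (𝔪 * J A) := by
      rw [hym, nm_mul', ← hMdef]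
      field_simp
    have hZM : 0 < Z / M := by positivity
    rw [hK] at hnorm
    have hV : 0 < VJ K (𝔪 * J A) := VJ_pos K _
    -- classes
    have hA1 : (ClassGroup.mk0 (J A))⁻¹ = A * 1 := by rw [hJA, inv_inv, mul_one]
    have hA2 : (ClassGroup.mk0 (𝔪 * J A))⁻¹ = A * c1 := by
      rw [map_mul, hJA, mul_inv, inv_inv, mul_comm]
    have hA3 : (ClassGroup.mk0 J')⁻¹ = c2⁻¹ * A⁻¹ := by
      have h1 : ClassGroup.mk0 J' = c0 * (ClassGroup.mk0 (𝔪 * J A))⁻¹ :=
        eq_mul_inv_of_mul_eq hcl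
      rw [h1, hA2, hc2, ← mul_inv]
      congr 1
      rw [mul_assoc, mul_comm A c1]
    -- the integrals
    have hI1 := hL1 K hK (J A) Z y hZ hy0 hym
    rw [hA1] at hI1
    have hI2 := hL1 K hK (𝔪 * J A) (Z / M) y hZM hy0 hym2
    rw [hA2] at hI2
    have hI3 := hL2 K hK (𝔪 * J A) J' n hn hnorm (Z / M) y hZM hy0 hym2
    rw [hA3] at hI3
    have hq1 : Q1 K (A * 1) (C1 * Z) < ⊤ := q1_lt_top K (hK.symm ▸ hm) _ _ (by positivity)
    have hq2 : Q1 K (A * c1) (C1 * (Z / M)) < ⊤ := q1_lt_top K (hK.symm ▸ hm) _ _ (by positivity)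
    have hq3 : Q2 K m (c2⁻¹ * A⁻¹) (D / (Z / M)) < ⊤ := q2_lt_top K m hm hK _ _ (by positivity)
    have hb1 : ∫⁻ t in FD K, L1 K m (J A) (S * y) t < ⊤ :=
      hI1.trans_lt (ENNReal.mul_lt_top ENNReal.ofReal_lt_top hq1)
    have hb2 : ∫⁻ t in FD K, L1 K m (𝔪 * J A) (S * y) t < ⊤ :=
      hI2.trans_lt (ENNReal.mul_lt_top ENNReal.ofReal_lt_top hq2)
    have hb3 : ∫⁻ t in FD K, L2 K m J' (y / n) t < ⊤ :=
      hI3.trans_lt (ENNReal.mul_lt_top ENNReal.ofReal_lt_top hq3)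
    have ha1 := ae_lt_top (measurable_L1 K m (J A) (S * y)) hb1.ne
    have ha2 := ae_lt_top (measurable_L1 K m (𝔪 * J A) (S * y)) hb2.ne
    have ha3 := ae_lt_top (measurable_L2 K m J' (y / n)) hb3.ne
    have hint1 : Integrable (fun t => (L1 K m (J A) (S * y) t).toReal) (volume.restrict (FD K)) :=
      integrable_toReal_of_lintegral_ne_top (measurable_L1 K m _ _).aemeasurable hb1.ne
    have hint2 : Integrable (fun t => (L1 K m (𝔪 * J A) (S * y) t).toReal)
        (volume.restrict (FD K)) :=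
      integrable_toReal_of_lintegral_ne_top (measurable_L1 K m _ _).aemeasurable hb2.ne
    have hint3 : Integrable (fun t => (L2 K m J' (y / n) t).toReal) (volume.restrict (FD K)) :=
      integrable_toReal_of_lintegral_ne_top (measurable_L2 K m _ _).aemeasurable hb3.ne
    have hv1 : ∫ t in FD K, (L1 K m (J A) (S * y) t).toReal ≤
        C1 * w * (nm K (J A))⁻¹ * (Q1 K (A * 1) (C1 * Z)).toReal := by
      rw [integral_toReal (measurable_L1 K m _ _).aemeasurable ha1]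
      have := ENNReal.toReal_mono (ENNReal.mul_lt_top ENNReal.ofReal_lt_top hq1).ne hI1
      rwa [ENNReal.toReal_mul, ENNReal.toReal_ofReal (by positivity)] at this
    have hNm := nm_pos' K (𝔪 * J A)
    have hv2 : ∫ t in FD K, (L1 K m (𝔪 * J A) (S * y) t).toReal ≤
        C1 * w * (nm K (𝔪 * J A))⁻¹ * (Q1 K (A * c1) (C1 * (Z / M))).toReal := by
      rw [integral_toReal (measurable_L1 K m _ _).aemeasurable ha2]
      have := ENNReal.toReal_mono (ENNReal.mul_lt_top ENNReal.ofReal_lt_top hq2).ne hI2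
      rwa [ENNReal.toReal_mul, ENNReal.toReal_ofReal (by positivity)] at this
    have hv3 : ∫ t in FD K, (L2 K m J' (y / n) t).toReal ≤
        C2 * w * (Q2 K m (c2⁻¹ * A⁻¹) (D / (Z / M))).toReal := by
      rw [integral_toReal (measurable_L2 K m _ _).aemeasurable ha3]
      have := ENNReal.toReal_mono (ENNReal.mul_lt_top ENNReal.ofReal_lt_top hq3).ne hI3
      rwa [ENNReal.toReal_mul, ENNReal.toReal_ofReal (by positivity)] at this
    set V := VJ K (𝔪 * J A) with hVdef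
    set F : logSpace K → ℝ := fun t => CP * G ^ 2 * (y ^ m * (L1 K m (J A) (S * y) t).toReal +
      T * (y ^ m * (L1 K m (𝔪 * J A) (S * y) t).toReal +
        (y ^ m / V) ^ 2 * (L2 K m J' (y / n) t).toReal)) with hF
    have hFint : Integrable F (volume.restrict (FD K)) :=
      ((hint1.const_mul _).add (((hint2.const_mul _).add (hint3.const_mul _)).const_mul _)).const_mul _
    have hcs := cs_types K 𝔪 hg (J A) y (y ^ m / V * (IPhi K g / 2 ^ nrRealPlaces K)) F hFint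
      (fun β => hfin A β) (by
        filter_upwards [ha1, ha2, ha3] with t h1 h2 h3
        exact hP K hK 𝔪 (J A) J' n hJc hn hdual G g hg hg0 y hy0 t h1 h2 h3)
    have hMT : regulator K * (y ^ m / V * (IPhi K g / 2 ^ nrRealPlaces K)) = MT K 𝔪 g Z := by
      unfold MT
      rw [hVdef, VJ_mul, hym]
      have := VJ_pos K 𝔪
      field_simp
    rw [hMT] at hcs
    refine hcs.trans ?_
    refine mul_le_mul_of_nonneg_left ?_ hRpos.le
    have i1 : Integrable (fun t => y ^ m * (L1 K m (J A) (S * y) t).toReal)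
        (volume.restrict (FD K)) := hint1.const_mul _
    have i2 : Integrable (fun t => y ^ m * (L1 K m (𝔪 * J A) (S * y) t).toReal)
        (volume.restrict (FD K)) := hint2.const_mul _
    have i3 : Integrable (fun t => (y ^ m / V) ^ 2 * (L2 K m J' (y / n) t).toReal)
        (volume.restrict (FD K)) := hint3.const_mul _
    have i4 : Integrable (fun t => T * (y ^ m * (L1 K m (𝔪 * J A) (S * y) t).toReal +
        (y ^ m / V) ^ 2 * (L2 K m J' (y / n) t).toReal))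
        (volume.restrict (FD K)) := (i2.add i3).const_mul _
    rw [hF, integral_const_mul, integral_add i1 i4, integral_const_mul,
      integral_const_mul, integral_add i2 i3, integral_const_mul, integral_const_mul]
    refine mul_le_mul_of_nonneg_left ?_ (by positivity)
    have hVsq : (y ^ m / V) ^ 2 ≤ 4 ^ m * ((Z / M) ^ 2 / D) := by
      have hV2 : V ^ 2 = (1 / 4) ^ nrComplexPlaces K * D * nm K (𝔪 * J A) ^ 2 := by
        have h4 : (((1 : ℝ) / 2) ^ nrComplexPlaces K) ^ 2 = (1 / 4) ^ nrComplexPlaces K := by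
          rw [← pow_mul, mul_comm, pow_mul]
          norm_num
        rw [hVdef, VJ, mul_pow, mul_pow, Real.sq_sqrt hD.le, h4]
      rw [div_pow, hV2, hym2]
      have h6 : (Z / M * nm K (𝔪 * J A)) ^ 2 /
          ((1 / 4) ^ nrComplexPlaces K * D * nm K (𝔪 * J A) ^ 2) =
          4 ^ nrComplexPlaces K * ((Z / M) ^ 2 / D) := by
        rw [one_div, inv_pow]
        field_simp
      rw [h6]
      refine mul_le_mul_of_nonneg_right ?_ (by positivity)
      refine pow_le_pow_right₀ (by norm_num) ?_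
      have h7 := card_add_two_mul_card_eq_rank K
      rw [hK] at h7
      omega
    have g1 : y ^ m * ∫ t in FD K, (L1 K m (J A) (S * y) t).toReal ≤
        Z * (C1 * w * (Q1 K (A * 1) (C1 * Z)).toReal) := by
      refine (mul_le_mul_of_nonneg_left hv1 (by positivity)).trans (le_of_eq ?_)
      rw [hym]
      field_simp
    have g2 : y ^ m * ∫ t in FD K, (L1 K m (𝔪 * J A) (S * y) t).toReal ≤
        Z / M * (C1 * w * (Q1 K (A * c1) (C1 * (Z / M))).toReal) := by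
      refine (mul_le_mul_of_nonneg_left hv2 (by positivity)).trans (le_of_eq ?_)
      rw [hym2]
      field_simp
    have g3 : (y ^ m / V) ^ 2 * ∫ t in FD K, (L2 K m J' (y / n) t).toReal ≤
        4 ^ m * ((Z / M) ^ 2 / D) *
          (C2 * w * (Q2 K m (c2⁻¹ * A⁻¹) (D / (Z / M))).toReal) := by
      refine mul_le_mul hVsq hv3 (integral_nonneg fun t => ENNReal.toReal_nonneg) (by positivity)
    exact add_le_add g1 (mul_le_mul_of_nonneg_left (add_le_add g2 g3) hT0)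
  rw [Fintype.sum_prod_type]
  refine (Finset.sum_le_sum fun A _ => hclass A).trans ?_
  -- sum over the classes
  have s1 := sum_q1 K m hm ε CS1 hCS1 hK (fun X hX => by convert hS1 K hK X hX) 1 (C1 * Z)
    (by positivity)
  have s2 := sum_q1 K m hm ε CS1 hCS1 hK (fun X hX => by convert hS1 K hK X hX) c1
    (C1 * (Z / M)) (by positivity)
  have s3 := sum_q2 K m hm (ε / 2) CS2 hCS2 hK (fun x hx => hS2 K hK x hx) c2 (D / (Z / M))
    (by positivity)
  set a1 := ∑ A : ClassGroup (𝓞 K), (Q1 K (A * 1) (C1 * Z)).toReal with ha1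
  set a2 := ∑ A : ClassGroup (𝓞 K), (Q1 K (A * c1) (C1 * (Z / M))).toReal with ha2
  set a3 := ∑ A : ClassGroup (𝓞 K), (Q2 K m (c2⁻¹ * A⁻¹) (D / (Z / M))).toReal with ha3
  have hsum : ∑ A : ClassGroup (𝓞 K), regulator K * (CP * G ^ 2 *
      (Z * (C1 * w * (Q1 K (A * 1) (C1 * Z)).toReal) +
        T * (Z / M * (C1 * w * (Q1 K (A * c1) (C1 * (Z / M))).toReal) +
          4 ^ m * ((Z / M) ^ 2 / D) *
            (C2 * w * (Q2 K m (c2⁻¹ * A⁻¹) (D / (Z / M))).toReal)))) =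
      regulator K * (CP * G ^ 2 * (Z * (C1 * w * a1) +
        T * (Z / M * (C1 * w * a2) + 4 ^ m * ((Z / M) ^ 2 / D) * (C2 * w * a3)))) := by
    rw [ha1, ha2, ha3, ← Finset.mul_sum, ← Finset.mul_sum, Finset.sum_add_distrib,
      ← Finset.mul_sum, ← Finset.mul_sum, ← Finset.mul_sum, Finset.sum_add_distrib,
      ← Finset.mul_sum, ← Finset.mul_sum, ← Finset.mul_sum, ← Finset.mul_sum]
  rw [hsum]
  set Q : ℝ := Real.sqrt D * M with hQ
  have hsD1 : 1 ≤ Real.sqrt D := Real.one_le_sqrt.mpr hD1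
  have hQ1 : 1 ≤ Q := by nlinarith
  have hQ0 : 0 < Q := by linarith
  have hQM : M ≤ Q := by nlinarith
  have hQZ : Z ≤ Q * Z := by nlinarith
  have hQZ1 : 1 ≤ Q * Z := by nlinarith
  have hQ2 : Q ^ 2 = D * M ^ 2 := by rw [hQ, mul_pow, Real.sq_sqrt hD.le]
  have b1 : a1 ≤ CS1 * C1 ^ ε * (Q * Z) ^ ε := by
    refine s1.trans ?_
    rw [mul_assoc, Real.mul_rpow hC10.le hZ.le]
    gcongr
  have b2 : a2 ≤ CS1 * C1 ^ ε * (Q * Z) ^ ε := by
    refine s2.trans ?_
    rw [mul_assoc, Real.mul_rpow hC10.le (by positivity)]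
    have : Z / M ≤ Q * Z := (div_le_self hZ.le hM1).trans hQZ
    gcongr
  have b3 : a3 ≤ CS2 * (D * M / Z) * (Q * Z) ^ ε := by
    refine s3.trans ?_
    have e1 : D / (Z / M) = D * M / Z := by field_simp
    rw [e1]
    have e2 : max 1 (D * M / Z) ≤ (Q * Z) ^ 2 := by
      refine max_le (one_le_pow₀ hQZ1) ?_
      rw [div_le_iff₀ hZ]
      have e3 : D * M ≤ Q ^ 2 := by rw [hQ2]; nlinarith
      calc D * M ≤ Q ^ 2 := e3
        _ = Q ^ 2 * 1 := (mul_one _).symm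
        _ ≤ Q ^ 2 * (Z ^ 2 * Z) := by
            refine mul_le_mul_of_nonneg_left ?_ (by positivity)
            nlinarith [sq_nonneg (Z - 1)]
        _ = _ := by ring
    have e4 : (max 1 (D * M / Z)) ^ (ε / 2) ≤ (Q * Z) ^ ε := by
      calc (max 1 (D * M / Z)) ^ (ε / 2) ≤ ((Q * Z) ^ 2) ^ (ε / 2) :=
            Real.rpow_le_rpow (by positivity) e2 (by positivity)
        _ = (Q * Z) ^ ε := by
            rw [← Real.rpow_natCast, ← Real.rpow_mul (by positivity)]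
            congr 1
            push_cast
            ring
    gcongr
  have ha10 : 0 ≤ a1 := Finset.sum_nonneg fun A _ => ENNReal.toReal_nonneg
  have ha20 : 0 ≤ a2 := Finset.sum_nonneg fun A _ => ENNReal.toReal_nonneg
  have ha30 : 0 ≤ a3 := Finset.sum_nonneg fun A _ => ENNReal.toReal_nonneg
  set P := (Q * Z) ^ ε with hPdef
  have hP0 : 0 < P := by positivity
  have t1 : Z * (C1 * w * a1) ≤ w * P * Z * (C1 * (CS1 * C1 ^ ε)) := by
    calc Z * (C1 * w * a1) ≤ Z * (C1 * w * (CS1 * C1 ^ ε * P)) := by gcongr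
      _ = _ := by ring
  have t2 : T * (Z / M * (C1 * w * a2)) ≤ w * P * Z * (2 ^ m * (C1 * (CS1 * C1 ^ ε))) := by
    calc T * (Z / M * (C1 * w * a2)) ≤ (2 ^ m * M) * (Z / M * (C1 * w * (CS1 * C1 ^ ε * P))) := by
          gcongr
      _ = _ := by field_simp
  have t3 : T * (4 ^ m * ((Z / M) ^ 2 / D) * (C2 * w * a3)) ≤
      w * P * Z * (2 ^ m * (4 ^ m * (C2 * CS2))) := by
    calc T * (4 ^ m * ((Z / M) ^ 2 / D) * (C2 * w * a3)) ≤
        (2 ^ m * M) * (4 ^ m * ((Z / M) ^ 2 / D) * (C2 * w * (CS2 * (D * M / Z) * P))) := by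
          gcongr
      _ = _ := by field_simp
  calc regulator K * (CP * G ^ 2 * (Z * (C1 * w * a1) +
        T * (Z / M * (C1 * w * a2) + 4 ^ m * ((Z / M) ^ 2 / D) * (C2 * w * a3)))) =
      regulator K * (CP * G ^ 2 * (Z * (C1 * w * a1) + T * (Z / M * (C1 * w * a2)) +
        T * (4 ^ m * ((Z / M) ^ 2 / D) * (C2 * w * a3)))) := by ring
    _ ≤ regulator K * (CP * G ^ 2 * (w * P * Z * (C1 * (CS1 * C1 ^ ε)) +
        w * P * Z * (2 ^ m * (C1 * (CS1 * C1 ^ ε))) +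
        w * P * Z * (2 ^ m * (4 ^ m * (C2 * CS2))))) := by
        refine mul_le_mul_of_nonneg_left ?_ hRpos.le
        refine mul_le_mul_of_nonneg_left ?_ (by positivity)
        exact add_le_add (add_le_add t1 t2) t3
    _ = _ := by ring

end Pool.RC
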