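import Pool.Agent.RC.Defs
import Pool.Agent.HDZ.Point

/-!
# Module POINTC: the pointwise bound for sums over a coset of a lattice

Same as `point` (`Pool/Agent/HDZ/Point.lean`) for the coset `x₀ + L`; the difference is the factor `n0` and the `1 +`.

PAPER PROOF. `L` = the `ℤ`-span of `B`, `V = cov B`, `e = ∑_{x ∈ L} f (y⁻¹ (x + x₀)) - (y^m / V) ∫ f`. As in `point`: `s₂ > 0`, `u₀ > 0` with
`hh m u₀ = s₂`, a basis `B'` with the same span, `‖B' i‖ ≤ b = C₀ y / u₀`, `C₀ ≥ 1`. The sum over `x ∈ L` does not change if `x₀` is replaced by `x₀ - l`,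
`l ∈ L`: so assume `x₀` in the fundamental domain of `B'`, `‖x₀‖ ≤ m b`.

Case A: `u₀ ≥ 1 / S`. Then `b ≤ C₀ S y`. The function `f' (z) = f (z + y⁻¹ x₀)` is smooth with the same bounds and supported in the ball of radius
`S' = S + m C₀ S`; the proof of `smooth` (`Pool/Agent/HDZ/Smooth.lean`) never uses `f 0 = 0`, so it applies to `f'` and gives
`|e| ≤ C₁ G ((1 + C₀ S)^m y^m / V) (C₀ / u₀)^k`, and `|e|² ≤ C₂ G² (y^m/V)² s₂` as in `point` (`PointAux.caseA`).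

Case B: `u₀ < 1 / S`, so `S y ≤ b`, `s₂ = hh m u₀ ≥ 1`, and `|(y^m/V) ∫ f|² ≤ (G v_m S^m)² (y^m/V)² s₂`. If no `x ∈ L` has `f (y⁻¹ (x + x₀)) ≠ 0` the sum is `0`. Otherwise `1 ≤ n0`;
fix such an `x₁`. All `x ∈ L` with `f (y⁻¹ (x + x₀)) ≠ 0` satisfy `‖x + x₀‖ ≤ S y`, so `‖x - x₁‖ ≤ 2 S y`: their number `N` is at most the number of
`z ∈ L` with `‖z‖ ≤ ρ = 2 S y ≤ 2 b`. Apply `count` (`Pool/Agent/HDZ/Count.lean`) with `B'`, `2 b`, `ρ`; get `j`.
 * `2 j ≤ m`: let `lam = min (y s₁^{-1/m}) (2 S y)` if `s₁ > 0` and `lam = 2 S y` if `s₁ = 0`. Every `x ∈ L`, `x ≠ 0` has `‖x‖ ≥ lam` (if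
   `‖x‖ ≤ 2 S y` then `(y/‖x‖)^m ≤ s₁`). So `N ≤ (1 + 4 S y/lam)^j`, `4 S y / lam ≤ 2 + 4 S s₁^{1/m}`, and `N² ≤ (3 + 4 S s₁^{1/m})^{2j} ≤ (3 + 4 S s₁^{1/m})^m ≤ C (1 + s₁)`.
 * `2 j ≥ m + 1`: `N V ≤ C₃ (ρ / (2b))^j (2b)^m`, and `N² ≤ C₄ (y^m/V)² s₂` as in `point`.
-/

open MeasureTheory
open scoped InnerProductSpace

namespace Pool.RC

open Pool.HDZ

namespace PointCAux

open SmoothAux

theorem smooth0 (m k : ℕ) (hk : 1 ≤ k) (S : ℝ) (hS : 1 ≤ S) : ∃ C : ℝ, 0 < C ∧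
    ∀ (E : Type) [NormedAddCommGroup E] [InnerProductSpace ℝ E] [MeasurableSpace E]
      [BorelSpace E] [FiniteDimensional ℝ E] (B : Module.Basis (Fin m) ℝ E) (b : ℝ), 0 < b →
      (∀ i, ‖B i‖ ≤ b) →
    ∀ (G : ℝ) (f : E → ℝ), Good0 k S G f → ∀ y : ℝ, 0 < y →
      |∑' x : Submodule.span ℤ (Set.range B), f (y⁻¹ • (x : E)) - y ^ m / cov B * ∫ x, f x| ≤
        C * G * ((y + b) ^ m / cov B) * (b / y) ^ k := by
  obtain ⟨C₁, hC₁, hcount⟩ := vol_count m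
  refine ⟨C₁ * (S + k * (m + 1) + 1) ^ m * (m + 1) ^ k, by positivity, ?_⟩
  intro E _ _ _ _ _ B b hb0 hb G f hf y hy
  obtain ⟨hf1, hf2, hf3⟩ := hf
  have hG0 : 0 ≤ G := (norm_nonneg _).trans (hf2 0 (Nat.zero_le _) 0)
  set D := ZSpan.fundamentalDomain B with hDdef
  set V := cov B with hVdef
  have hV0 : 0 < V := cov_pos B
  have hD : MeasurableSet D := ZSpan.fundamentalDomain_measurableSet B
  have hfin : volume D ≠ ⊤ := by rw [hDdef, volume_fd]; exact ENNReal.ofReal_ne_top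
  have hr : ∀ p ∈ D, ‖p‖ ≤ m * b := fd_bound B hb
  have hr0 : 0 ≤ m * b := by positivity
  set r := (m : ℝ) * b with hrdef
  -- the scaled function
  set F : E → ℝ := fun x => f (y⁻¹ • x) with hF
  have hFc : Cpt (S * y) F := by
    refine ⟨hf1.continuous.comp (continuous_const.smul continuous_id), fun x hx => hf3 _ ?_⟩
    rw [norm_smul, norm_inv, Real.norm_of_nonneg hy.le, inv_mul_eq_div, le_div_iff₀ hy]
    exact hx
  have hDB : DB r k (G * (r / y) ^ k) F :=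
    DB_scale r y hy k _ f (DB_of_deriv (r / y) k G f hf1 (hf2 k le_rfl))
  obtain ⟨k', rfl⟩ : ∃ k', k = k' + 1 := ⟨k - 1, by omega⟩
  have hsum := (it_sum B hb0 hb hFc k').1
  have hbd : DB r 0 (G * (r / y) ^ (k' + 1)) (it D V F (k' + 1)) :=
    it_DB hD hfin rfl hV0 hr0 hr hFc (k' + 1) 0 (by simpa using hDB)
  have hcpt : Cpt (S * y + ((k' + 1 : ℕ) : ℝ) * r) (it D V F (k' + 1)) :=
    it_cpt hD hfin hr0 hr hFc (k' + 1)
  have hdim : Module.finrank ℝ E = m := by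
    rw [Module.finrank_eq_card_basis B, Fintype.card_fin]
  have hint : ∫ x, F x = y ^ m * ∫ x, f x := by
    rw [hF, Measure.integral_comp_inv_smul_of_nonneg volume f hy.le, hdim, smul_eq_mul]
  have hlhs : ∑' x : Submodule.span ℤ (Set.range B), f (y⁻¹ • (x : E)) - y ^ m / V * ∫ x, f x =
      ∑' x : Submodule.span ℤ (Set.range B), it D V F (k' + 1) (x : E) := by
    rw [hsum, hint]
    ring
  rw [hlhs]
  set M := G * (r / y) ^ (k' + 1) with hM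
  have hM0 : 0 ≤ M := by positivity
  set ρ := S * y + ((k' + 1 : ℕ) : ℝ) * r with hρ
  have hρ0 : 0 ≤ ρ := by positivity
  -- the number of lattice points
  have hfinset := span_finite B ρ
  set T := {x : E | x ∈ Submodule.span ℤ (Set.range B) ∧ ‖x‖ ≤ ρ} with hT
  have hsumbd : |∑' x : Submodule.span ℤ (Set.range B), it D V F (k' + 1) (x : E)| ≤
      (T.ncard : ℝ) * M := by
    have hfs := finite_supp B hcpt
    rw [tsum_eq_sum (s := hfs.toFinset) (fun x hx => by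
      by_contra hne
      exact hx (hfs.mem_toFinset.2 hne))]
    refine (Finset.abs_sum_le_sum_abs _ _).trans ?_
    refine (Finset.sum_le_card_nsmul _ (fun x : Submodule.span ℤ (Set.range B) =>
      |it D V F (k' + 1) (x : E)|) M fun x _ => hbd (x : E)).trans ?_
    rw [nsmul_eq_mul]
    refine mul_le_mul_of_nonneg_right ?_ hM0
    have : hfs.toFinset.card ≤ T.ncard := by
      rw [← Set.ncard_coe_finset, ← Set.ncard_image_of_injective _
        (Subtype.val_injective (p := fun x => x ∈ Submodule.span ℤ (Set.range B)))]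
      refine Set.ncard_le_ncard ?_ hfinset
      rintro _ ⟨x, hx, rfl⟩
      refine ⟨x.2, ?_⟩
      by_contra hlt
      exact (hfs.mem_toFinset.1 hx) (hcpt.2 _ (not_le.1 hlt).le)
    exact_mod_cast this
  refine hsumbd.trans ?_
  have hc := hcount E B b ρ hb0.le hρ0 hb
  have hρb : ρ + b ≤ (S + ((k' + 1 : ℕ) : ℝ) * (m + 1) + 1) * (y + b) := by
    have hS0 : 0 ≤ S := by linarith
    have hk0 : (0 : ℝ) ≤ ((k' + 1 : ℕ) : ℝ) := Nat.cast_nonneg _
    have hm0 : (0 : ℝ) ≤ m := Nat.cast_nonneg _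
    have e : (S + ((k' + 1 : ℕ) : ℝ) * (m + 1) + 1) * (y + b) - (ρ + b) =
        S * b + ((k' + 1 : ℕ) : ℝ) * (m + 1) * y + ((k' + 1 : ℕ) : ℝ) * b + y := by
      rw [hρ, hrdef]; ring
    have : 0 ≤ S * b + ((k' + 1 : ℕ) : ℝ) * (m + 1) * y + ((k' + 1 : ℕ) : ℝ) * b + y := by
      positivity
    linarith
  have hcount' : (T.ncard : ℝ) ≤
      C₁ * ((S + ((k' + 1 : ℕ) : ℝ) * (m + 1) + 1) * (y + b)) ^ m / V := by
    rw [le_div_iff₀ hV0]
    refine hc.trans ?_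
    exact mul_le_mul_of_nonneg_left (pow_le_pow_left₀ (by positivity) hρb m) hC₁.le
  have hMbd : M ≤ G * ((m + 1) * (b / y)) ^ (k' + 1) := by
    rw [hM]
    refine mul_le_mul_of_nonneg_left (pow_le_pow_left₀ (by positivity) ?_ _) hG0
    rw [hrdef, mul_div_assoc]
    refine mul_le_mul_of_nonneg_right (by linarith) (by positivity)
  calc (T.ncard : ℝ) * M ≤ (C₁ * ((S + ((k' + 1 : ℕ) : ℝ) * (m + 1) + 1) * (y + b)) ^ m / V) *
        (G * ((m + 1) * (b / y)) ^ (k' + 1)) :=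
        mul_le_mul hcount' hMbd hM0 (by positivity)
    _ = _ := by
        rw [mul_pow, mul_pow]
        ring


section

variable {E : Type} [NormedAddCommGroup E] [InnerProductSpace ℝ E] [MeasurableSpace E]
  [BorelSpace E] [FiniteDimensional ℝ E] {m : ℕ}

theorem good_bound {k : ℕ} {S G : ℝ} {f : E → ℝ} (hf : Good0 k S G f) (x : E) : |f x| ≤ G := by
  have h := hf.2.1 0 (Nat.zero_le k) x
  rwa [norm_iteratedFDeriv_zero, Real.norm_eq_abs] at h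

theorem good_int {k : ℕ} {S G : ℝ} {f : E → ℝ} (hf : Good0 k S G f) :
    |∫ x, f x| ≤ G * (volume (Metric.closedBall (0 : E) S)).toReal := by
  have h1 : ∫ x, f x = ∫ x in Metric.closedBall (0 : E) S, f x := by
    symm
    apply setIntegral_eq_integral_of_forall_compl_eq_zero
    intro x hx
    apply hf.2.2
    rw [Metric.mem_closedBall, dist_zero_right, not_le] at hx
    exact hx.le
  rw [h1, ← Real.norm_eq_abs]
  exact norm_setIntegral_le_of_norm_le_const (measure_closedBall_lt_top)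
    (fun x _ => by rw [Real.norm_eq_abs]; exact good_bound hf x)

/-- Translates of the test function. -/
theorem good_shift {k : ℕ} {S S' G : ℝ} {f : E → ℝ} (hf : Good0 k S G f) (a : E)
    (ha : S + ‖a‖ ≤ S') : Good0 k S' G (fun x => f (x + a)) := by
  refine ⟨hf.1.comp (contDiff_id.add contDiff_const), fun j hj x => ?_, fun x hx => ?_⟩
  · rw [iteratedFDeriv_comp_add_right]
    exact hf.2.1 j hj _
  · apply hf.2.2
    have h1 : ‖x‖ ≤ ‖x + a‖ + ‖a‖ := by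
      calc ‖x‖ = ‖(x + a) - a‖ := by rw [add_sub_cancel_right]
        _ ≤ ‖x + a‖ + ‖a‖ := norm_sub_le _ _
    linarith

/-- The sum over a coset does not change under translation by a lattice vector. -/
theorem tsum_coset (L : Submodule ℤ E) (F : E → ℝ) (x₀ l : E) (hl : l ∈ L) :
    ∑' x : L, F ((x : E) + x₀) = ∑' x : L, F ((x : E) + (x₀ - l)) := by
  rw [← (Equiv.addRight (⟨l, hl⟩ : L)).tsum_eq (fun x : L => F ((x : E) + (x₀ - l)))]
  refine tsum_congr fun x => ?_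
  simp only [Equiv.coe_addRight, Submodule.coe_add]
  congr 1
  abel

/-- The lattice sum is at most `G` times the number of lattice points in the ball, and vanishes
if there is no nonzero term. -/
theorem sum_bound {k : ℕ} {S G : ℝ} {f : E → ℝ} (hf : Good0 k S G f)
    (B : Module.Basis (Fin m) ℝ E) (x₀ : E) (y : ℝ) (hy : 0 < y) (x₁ : E)
    (hx₁ : x₁ ∈ Submodule.span ℤ (Set.range B)) (hx₁f : f (y⁻¹ • (x₁ + x₀)) ≠ 0) :
    |∑' x : Submodule.span ℤ (Set.range B), f (y⁻¹ • ((x : E) + x₀))| ≤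
      G * (({x : E | x ∈ Submodule.span ℤ (Set.range B) ∧ ‖x‖ ≤ 2 * S * y}.ncard : ℕ) : ℝ) := by
  have hnn : ∀ x : E, f (y⁻¹ • (x + x₀)) ≠ 0 → ‖x + x₀‖ ≤ S * y := by
    intro x hx
    by_contra hcon
    apply hx
    apply hf.2.2
    rw [norm_smul, Real.norm_of_nonneg (by positivity), ← div_eq_inv_mul, le_div_iff₀ hy]
    exact (not_le.mp hcon).le
  have hfin := span_finite B (2 * S * y)
  have hmaps : ∀ x : E, x ∈ Submodule.span ℤ (Set.range B) → f (y⁻¹ • (x + x₀)) ≠ 0 →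
      x - x₁ ∈ {x : E | x ∈ Submodule.span ℤ (Set.range B) ∧ ‖x‖ ≤ 2 * S * y} := by
    intro x hx hxf
    refine ⟨Submodule.sub_mem _ hx hx₁, ?_⟩
    have e : x - x₁ = (x + x₀) - (x₁ + x₀) := by abel
    rw [e]
    have h1 := hnn x hxf
    have h2 := hnn x₁ hx₁f
    refine (norm_sub_le _ _).trans ?_
    linarith
  set T : Set (Submodule.span ℤ (Set.range B)) := {x | f (y⁻¹ • ((x : E) + x₀)) ≠ 0} with hT
  have hinj : Function.Injective
      (fun x : Submodule.span ℤ (Set.range B) => (x : E) - x₁) := by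
    intro a b hab
    exact Subtype.ext (sub_left_injective hab)
  have hTfin : T.Finite := by
    refine Set.Finite.of_finite_image (f := fun x => (x : E) - x₁) (hfin.subset ?_) hinj.injOn
    rintro _ ⟨x, hx, rfl⟩
    exact hmaps x x.2 hx
  have hsupp : ∀ x : Submodule.span ℤ (Set.range B), x ∉ hTfin.toFinset →
      f (y⁻¹ • ((x : E) + x₀)) = 0 := by
    intro x hx
    rw [Set.Finite.mem_toFinset] at hx
    exact not_not.mp hx
  rw [tsum_eq_sum hsupp]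
  refine (Finset.abs_sum_le_sum_abs _ _).trans ?_
  refine (Finset.sum_le_card_nsmul _ _ G (fun x _ => good_bound hf _)).trans ?_
  rw [nsmul_eq_mul, mul_comm]
  have hG : 0 ≤ G := (abs_nonneg _).trans (good_bound hf 0)
  refine mul_le_mul_of_nonneg_left ?_ hG
  have h1 : hTfin.toFinset.card = T.ncard := (Set.ncard_eq_toFinset_card T hTfin).symm
  rw [h1]
  have h2 : T.ncard = ((fun x : Submodule.span ℤ (Set.range B) => (x : E) - x₁) '' T).ncard :=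
    (Set.ncard_image_of_injective T hinj).symm
  rw [h2]
  exact_mod_cast Set.ncard_le_ncard (by
    rintro _ ⟨x, hx, rfl⟩
    exact hmaps x x.2 hx) hfin

end

/-- The number of lattice points: the count needed in case B. -/
theorem caseB (m : ℕ) (hm : 2 ≤ m) (S : ℝ) (hS : 1 ≤ S) (C₀ : ℝ) (hC₀ : 1 ≤ C₀) :
    ∃ D : ℝ, 0 < D ∧
    ∀ (E : Type) [NormedAddCommGroup E] [InnerProductSpace ℝ E] [MeasurableSpace E]
      [BorelSpace E] [FiniteDimensional ℝ E] (B : Module.Basis (Fin m) ℝ E) (y s₁ u : ℝ),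
      0 < y → 0 ≤ s₁ → 0 < u → u < S⁻¹ → (∀ i, ‖B i‖ ≤ C₀ * y / u) →
      (∀ x ∈ Submodule.span ℤ (Set.range B), x ≠ 0 → ‖x‖ ≤ 2 * S * y → (y / ‖x‖) ^ m ≤ s₁) →
      ((({x : E | x ∈ Submodule.span ℤ (Set.range B) ∧ ‖x‖ ≤ 2 * S * y}.ncard : ℕ) : ℝ)) ^ 2 ≤
        D * ((1 + s₁) + (y ^ m / cov B) ^ 2 * hh m u) := by
  obtain ⟨C₃, hC₃, hct⟩ := count m
  have hS0 : 0 < S := by linarith
  have hC00 : 0 < C₀ := by linarith
  refine ⟨(10 * S) ^ m + (C₃ * 2 ^ m * (S ^ m * C₀ ^ m)) ^ 2, by positivity, ?_⟩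
  intro E _ _ _ _ _ B y s₁ u hy hs₁ hu hB1 hB hx₁
  have hV := cov_pos B
  have hhu := PointAux.hh_pos m u hu
  have hu1 : u < 1 := lt_of_lt_of_le hB1 (inv_le_one_of_one_le₀ hS)
  have huinv : 1 ≤ u⁻¹ := (one_le_inv₀ hu).mpr hu1.le
  have hhu1 : hh m u = u⁻¹ ^ (m - 1) := PointAux.hh_low m u hu hu1.le
  have hρb : 2 * S * y ≤ 2 * (C₀ * y / u) := by
    have h0 : S * y ≤ C₀ * y / u := by
      rw [le_div_iff₀ hu]
      have h1 : S * u ≤ 1 := by
        have := mul_le_mul_of_nonneg_left hB1.le hS0.le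
        rwa [mul_inv_cancel₀ hS0.ne'] at this
      nlinarith
    linarith
  have hb0 : 0 ≤ C₀ * y / u := by positivity
  obtain ⟨j, hj, hc1, hc2⟩ := hct E B (2 * (C₀ * y / u)) (2 * S * y) (by positivity) hρb
    (fun i => (hB i).trans (by linarith))
  set N : ℝ := (({x : E | x ∈ Submodule.span ℤ (Set.range B) ∧ ‖x‖ ≤ 2 * S * y}.ncard : ℕ) : ℝ)
    with hN
  have hN0 : 0 ≤ N := Nat.cast_nonneg _
  have hX1 : 0 ≤ (10 * S) ^ m * ((y ^ m / cov B) ^ 2 * hh m u) := by positivity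
  have hX2 : 0 ≤ (C₃ * 2 ^ m * (S ^ m * C₀ ^ m)) ^ 2 * (1 + s₁) := by positivity
  have hX3 : 0 ≤ (10 * S) ^ m * (1 + s₁) := by positivity
  have hX4 : 0 ≤ (C₃ * 2 ^ m * (S ^ m * C₀ ^ m)) ^ 2 * ((y ^ m / cov B) ^ 2 * hh m u) := by
    positivity
  have hexp : ((10 * S) ^ m + (C₃ * 2 ^ m * (S ^ m * C₀ ^ m)) ^ 2) *
      ((1 + s₁) + (y ^ m / cov B) ^ 2 * hh m u) =
      (10 * S) ^ m * (1 + s₁) + (10 * S) ^ m * ((y ^ m / cov B) ^ 2 * hh m u) +
      ((C₃ * 2 ^ m * (S ^ m * C₀ ^ m)) ^ 2 * (1 + s₁) +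
      (C₃ * 2 ^ m * (S ^ m * C₀ ^ m)) ^ 2 * ((y ^ m / cov B) ^ 2 * hh m u)) := by ring
  rw [hexp]
  rcases le_or_gt (2 * j) m with h2j | h2j
  · -- small rank
    set w : ℝ := s₁ ^ ((m : ℝ)⁻¹) with hw
    have hw0 : 0 ≤ w := Real.rpow_nonneg hs₁ _
    have hwm : w ^ m = s₁ := Real.rpow_inv_natCast_pow hs₁ (by omega)
    have hlam : ∀ x ∈ Submodule.span ℤ (Set.range B), x ≠ 0 → y / (w + 1) ≤ ‖x‖ := by
      intro x hx hx0
      have hxn : 0 < ‖x‖ := norm_pos_iff.mpr hx0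
      rw [div_le_iff₀ (by positivity)]
      rcases le_or_gt ‖x‖ (2 * S * y) with h | h
      · have h1 := hx₁ x hx hx0 h
        rw [← hwm] at h1
        have h2 := le_of_pow_le_pow_left₀ (by omega : m ≠ 0) hw0 h1
        rw [div_le_iff₀ hxn] at h2
        nlinarith
      · have h3 : y ≤ 2 * S * y := by nlinarith
        nlinarith
    have h1 := hc1 (y / (w + 1)) (by positivity) hlam
    have h2 : 1 + 2 * (2 * S * y) / (y / (w + 1)) ≤ 5 * S * (w + 1) := by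
      have e : 2 * (2 * S * y) / (y / (w + 1)) = 4 * S * (w + 1) := by
        field_simp; ring
      rw [e]
      nlinarith
    have h3 : N ≤ (5 * S * (w + 1)) ^ j :=
      h1.trans (pow_le_pow_left₀ (by positivity) h2 j)
    have h4 : N ^ 2 ≤ (5 * S * (w + 1)) ^ m := by
      calc N ^ 2 ≤ ((5 * S * (w + 1)) ^ j) ^ 2 := pow_le_pow_left₀ hN0 h3 2
        _ = (5 * S * (w + 1)) ^ (2 * j) := by rw [← pow_mul, mul_comm j 2]
        _ ≤ (5 * S * (w + 1)) ^ m := pow_le_pow_right₀ (by nlinarith) h2j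
    have h5 : (w + 1) ^ m ≤ 2 ^ m * (1 + s₁) := by
      have h6 := add_pow_le hw0 (zero_le_one) m
      rw [one_pow, hwm] at h6
      calc (w + 1) ^ m ≤ 2 ^ (m - 1) * (s₁ + 1) := h6
        _ ≤ 2 ^ m * (s₁ + 1) := by
          apply mul_le_mul_of_nonneg_right _ (by positivity)
          exact pow_le_pow_right₀ (by norm_num) (by omega)
        _ = 2 ^ m * (1 + s₁) := by ring
    have h6 : (5 * S * (w + 1)) ^ m ≤ (10 * S) ^ m * (1 + s₁) := by
      calc (5 * S * (w + 1)) ^ m = (5 * S) ^ m * (w + 1) ^ m := by rw [mul_pow]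
        _ ≤ (5 * S) ^ m * (2 ^ m * (1 + s₁)) := mul_le_mul_of_nonneg_left h5 (by positivity)
        _ = (10 * S) ^ m * (1 + s₁) := by
          rw [← mul_assoc, ← mul_pow]
          congr 2
          ring
    linarith
  · -- large rank
    have h1 : N * cov B ≤ C₃ * 2 ^ m * (S ^ m * C₀ ^ m) * y ^ m * (u ^ j * u⁻¹ ^ m) := by
      refine hc2.trans ?_
      have h2 : 2 * S * y / (2 * (C₀ * y / u)) = S * C₀⁻¹ * u := by
        field_simp
      rw [h2]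
      have h3 : (S * C₀⁻¹ * u) ^ j ≤ S ^ m * u ^ j := by
        rw [mul_pow, mul_pow]
        have h4 : S ^ j ≤ S ^ m := pow_le_pow_right₀ hS hj
        have h5 : C₀⁻¹ ^ j ≤ 1 := pow_le_one₀ (by positivity) (inv_le_one_of_one_le₀ hC₀)
        have h6 : S ^ j * C₀⁻¹ ^ j ≤ S ^ m * 1 :=
          mul_le_mul h4 h5 (by positivity) (by positivity)
        rw [mul_one] at h6
        exact mul_le_mul_of_nonneg_right h6 (by positivity)
      have h7 : (2 * (C₀ * y / u)) ^ m = 2 ^ m * (C₀ ^ m * y ^ m * u⁻¹ ^ m) := by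
        rw [mul_pow, div_eq_mul_inv, mul_pow, mul_pow]
      rw [h7]
      calc C₃ * (S * C₀⁻¹ * u) ^ j * (2 ^ m * (C₀ ^ m * y ^ m * u⁻¹ ^ m)) ≤
          C₃ * (S ^ m * u ^ j) * (2 ^ m * (C₀ ^ m * y ^ m * u⁻¹ ^ m)) := by gcongr
        _ = _ := by ring
    have h8 : N ≤ C₃ * 2 ^ m * (S ^ m * C₀ ^ m) * (y ^ m / cov B) * (u ^ j * u⁻¹ ^ m) := by
      rw [← le_div_iff₀ hV] at h1
      refine h1.trans (le_of_eq ?_)
      ring
    have h9 : (u ^ j * u⁻¹ ^ m) ^ 2 ≤ hh m u := by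
      rw [hhu1]
      have h10 : u ^ j * u⁻¹ ^ m = u⁻¹ ^ (m - j) := by
        rw [← Nat.add_sub_cancel' hj, pow_add, ← mul_assoc, ← mul_pow,
          mul_inv_cancel₀ hu.ne', one_pow, one_mul, Nat.add_sub_cancel_left]
      rw [h10, ← pow_mul]
      exact pow_le_pow_right₀ huinv (by omega)
    have h11 : N ^ 2 ≤
        (C₃ * 2 ^ m * (S ^ m * C₀ ^ m)) ^ 2 * ((y ^ m / cov B) ^ 2 * hh m u) := by
      calc N ^ 2 ≤ (C₃ * 2 ^ m * (S ^ m * C₀ ^ m) * (y ^ m / cov B) * (u ^ j * u⁻¹ ^ m)) ^ 2 :=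
            pow_le_pow_left₀ hN0 h8 2
        _ = (C₃ * 2 ^ m * (S ^ m * C₀ ^ m)) ^ 2 * (y ^ m / cov B) ^ 2 *
            (u ^ j * u⁻¹ ^ m) ^ 2 := by ring
        _ ≤ (C₃ * 2 ^ m * (S ^ m * C₀ ^ m)) ^ 2 * (y ^ m / cov B) ^ 2 * hh m u := by gcongr
        _ = _ := by ring
    linarith

/-- Case A -/
theorem caseA (m : ℕ) (hm : 2 ≤ m) (k : ℕ) (hk : m + 1 ≤ 2 * k) (S : ℝ) (hS : 1 ≤ S) (C₀ : ℝ)
    (hC₀ : 1 ≤ C₀) :
    ∃ A : ℝ, 0 < A ∧
    ∀ (E : Type) [NormedAddCommGroup E] [InnerProductSpace ℝ E] [MeasurableSpace E]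
      [BorelSpace E] [FiniteDimensional ℝ E] (B : Module.Basis (Fin m) ℝ E) (G : ℝ) (f : E → ℝ),
      Good0 k S G f → ∀ (x₀ : E) (y u : ℝ), 0 < y → 0 < u → S⁻¹ ≤ u →
      (∀ i, ‖B i‖ ≤ C₀ * y / u) →
      |∑' x : Submodule.span ℤ (Set.range B), f (y⁻¹ • ((x : E) + x₀)) -
        y ^ m / cov B * ∫ x, f x| ^ 2 ≤ A * (G ^ 2 * ((y ^ m / cov B) ^ 2 * hh m u)) := by
  have hS0 : 0 < S := by linarith
  have hC00 : 0 < C₀ := by linarith
  have hS'1 : 1 ≤ S + m * (C₀ * S) := by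
    have : 0 ≤ m * (C₀ * S) := by positivity
    linarith
  obtain ⟨C₁, hC₁, hsm⟩ := smooth0 m k (by omega) (S + m * (C₀ * S)) hS'1
  refine ⟨(C₁ * (1 + C₀ * S) ^ m * C₀ ^ k * S ^ k) ^ 2, by positivity, ?_⟩
  intro E _ _ _ _ _ B G f hf x₀ y u hy hu hA1 hB
  have hV := cov_pos B
  have hG : 0 ≤ G := (abs_nonneg _).trans (good_bound hf 0)
  have hb : 0 < C₀ * y / u := by positivity
  have h2 : C₀ * y / u ≤ C₀ * S * y := by
    rw [div_le_iff₀ hu]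
    have : 1 ≤ S * u := by
      have := mul_le_mul_of_nonneg_left hA1 hS0.le
      rwa [mul_inv_cancel₀ hS0.ne'] at this
    nlinarith [mul_pos hC00 hy]
  -- reduce the translation vector
  have hfl : x₀ - ZSpan.fract B x₀ ∈ Submodule.span ℤ (Set.range B) := by
    have e : x₀ - ZSpan.fract B x₀ = (ZSpan.floor B x₀ : E) := by
      rw [ZSpan.fract_apply]; abel
    rw [e]
    exact (ZSpan.floor B x₀).2
  have hsum := tsum_coset (Submodule.span ℤ (Set.range B)) (fun z => f (y⁻¹ • z)) x₀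
    (x₀ - ZSpan.fract B x₀) hfl
  rw [sub_sub_cancel] at hsum
  have hfr : ‖ZSpan.fract B x₀‖ ≤ m * (C₀ * y / u) := by
    refine (ZSpan.norm_fract_le (K := ℝ) B x₀).trans ?_
    calc ∑ i, ‖B i‖ ≤ ∑ _i : Fin m, C₀ * y / u := Finset.sum_le_sum fun i _ => hB i
      _ = m * (C₀ * y / u) := by simp
  set a : E := y⁻¹ • ZSpan.fract B x₀ with ha
  have han : S + ‖a‖ ≤ S + m * (C₀ * S) := by
    rw [ha, norm_smul, Real.norm_of_nonneg (by positivity), ← div_eq_inv_mul]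
    gcongr
    rw [div_le_iff₀ hy]
    calc ‖ZSpan.fract B x₀‖ ≤ m * (C₀ * y / u) := hfr
      _ ≤ m * (C₀ * S * y) := mul_le_mul_of_nonneg_left h2 (by positivity)
      _ = m * (C₀ * S) * y := by ring
  have hf' := good_shift hf a han
  have h1 := hsm E B (C₀ * y / u) hb hB G _ hf' y hy
  have hint : ∫ x, f (x + a) = ∫ x, f x := integral_add_right_eq_self f a
  rw [hint] at h1
  have hsum' : ∑' x : Submodule.span ℤ (Set.range B), f (y⁻¹ • ((x : E) + x₀)) =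
      ∑' x : Submodule.span ℤ (Set.range B), f (y⁻¹ • (x : E) + a) := by
    refine hsum.trans (tsum_congr fun x => ?_)
    rw [ha, ← smul_add]
  rw [← hsum'] at h1
  have h3 : (y + C₀ * y / u) ^ m ≤ (1 + C₀ * S) ^ m * y ^ m := by
    rw [← mul_pow]
    refine pow_le_pow_left₀ (by positivity) ?_ _
    linarith
  have h4 : C₀ * y / u / y = C₀ * u⁻¹ := by
    field_simp
  rw [h4] at h1
  have h5 : C₁ * G * ((y + C₀ * y / u) ^ m / cov B) * (C₀ * u⁻¹) ^ k ≤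
      C₁ * G * ((1 + C₀ * S) ^ m * y ^ m / cov B) * (C₀ * u⁻¹) ^ k := by
    gcongr
  have h6 := pow_le_pow_left₀ (abs_nonneg _) (h1.trans h5) 2
  refine h6.trans ?_
  have h7 : (C₁ * G * ((1 + C₀ * S) ^ m * y ^ m / cov B) * (C₀ * u⁻¹) ^ k) ^ 2 =
      (C₁ * (1 + C₀ * S) ^ m * C₀ ^ k) ^ 2 * G ^ 2 * (y ^ m / cov B) ^ 2 * u⁻¹ ^ (2 * k) := by
    rw [mul_comm 2 k, pow_mul]
    ring
  rw [h7]
  have h8 := PointAux.caseA m k hk S hS u hA1
  calc (C₁ * (1 + C₀ * S) ^ m * C₀ ^ k) ^ 2 * G ^ 2 * (y ^ m / cov B) ^ 2 * u⁻¹ ^ (2 * k)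
      ≤ (C₁ * (1 + C₀ * S) ^ m * C₀ ^ k) ^ 2 * G ^ 2 * (y ^ m / cov B) ^ 2 *
        (S ^ (2 * k) * hh m u) := mul_le_mul_of_nonneg_left h8 (by positivity)
    _ = _ := by
      rw [mul_comm 2 k, pow_mul]
      ring

/-- The main estimate, for a basis adapted to the dual bound. -/
theorem main (m : ℕ) (hm : 2 ≤ m) (k : ℕ) (hk : m + 1 ≤ 2 * k) (S : ℝ) (hS : 1 ≤ S) (C₀ : ℝ)
    (hC₀ : 1 ≤ C₀) :
    ∃ C : ℝ, 0 < C ∧
    ∀ (E : Type) [NormedAddCommGroup E] [InnerProductSpace ℝ E] [MeasurableSpace E]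
      [BorelSpace E] [FiniteDimensional ℝ E] (B : Module.Basis (Fin m) ℝ E) (G : ℝ) (f : E → ℝ),
      Good0 k S G f → ∀ (x₀ : E) (y n0 s₁ u : ℝ), 0 < y → 0 ≤ n0 → 0 ≤ s₁ → 0 < u →
      (∀ i, ‖B i‖ ≤ C₀ * y / u) →
      ((∃ x ∈ Submodule.span ℤ (Set.range B), f (y⁻¹ • (x + x₀)) ≠ 0) → 1 ≤ n0) →
      (∀ x ∈ Submodule.span ℤ (Set.range B), x ≠ 0 → ‖x‖ ≤ 2 * S * y → (y / ‖x‖) ^ m ≤ s₁) →
      |∑' x : Submodule.span ℤ (Set.range B), f (y⁻¹ • ((x : E) + x₀)) -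
          y ^ m / cov B * ∫ x, f x| ^ 2 ≤
        C * G ^ 2 * (n0 * (1 + s₁) + (y ^ m / cov B) ^ 2 * hh m u) := by
  obtain ⟨A, hA, hcA⟩ := caseA m hm k hk S hS C₀ hC₀
  obtain ⟨D, hD, hcB⟩ := caseB m hm S hS C₀ hC₀
  set v : ℝ := ((ENNReal.ofReal S) ^ m *
    ENNReal.ofReal (√Real.pi ^ m / Real.Gamma (m / 2 + 1))).toReal with hv
  have hv0 : 0 ≤ v := ENNReal.toReal_nonneg
  refine ⟨A + (2 * D + 2 * v ^ 2), by positivity, ?_⟩
  intro E _ _ _ _ _ B G f hf x₀ y n0 s₁ u hy hn0 hs₁ hu hB hn0' hx₁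
  have hV := cov_pos B
  have hG : 0 ≤ G := (abs_nonneg _).trans (good_bound hf 0)
  have hhu := PointAux.hh_pos m u hu
  have hX : 0 ≤ n0 * (1 + s₁) := by positivity
  have hY : 0 ≤ (y ^ m / cov B) ^ 2 * hh m u := by positivity
  have hG2 : 0 ≤ G ^ 2 := by positivity
  have hRHS : 0 ≤ G ^ 2 * (n0 * (1 + s₁) + (y ^ m / cov B) ^ 2 * hh m u) := by positivity
  have hYX : G ^ 2 * ((y ^ m / cov B) ^ 2 * hh m u) ≤
      G ^ 2 * (n0 * (1 + s₁) + (y ^ m / cov B) ^ 2 * hh m u) :=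
    mul_le_mul_of_nonneg_left (by linarith) hG2
  rcases le_or_gt S⁻¹ u with hA1 | hB1
  · have h1 := hcA E B G f hf x₀ y u hy hu hA1 hB
    refine h1.trans ?_
    have h2 := mul_le_mul_of_nonneg_left hYX hA.le
    have h3 : 0 ≤ (2 * D + 2 * v ^ 2) *
        (G ^ 2 * (n0 * (1 + s₁) + (y ^ m / cov B) ^ 2 * hh m u)) := by positivity
    linarith
  · have hu1 : u < 1 := lt_of_lt_of_le hB1 (inv_le_one_of_one_le₀ hS)
    have huinv : 1 ≤ u⁻¹ := (one_le_inv₀ hu).mpr hu1.le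
    have hone : 1 ≤ hh m u := by
      rw [PointAux.hh_low m u hu hu1.le]
      exact one_le_pow₀ huinv
    have hI : |y ^ m / cov B * ∫ x, f x| ^ 2 ≤
        v ^ 2 * (G ^ 2 * ((y ^ m / cov B) ^ 2 * hh m u)) := by
      have h1 := good_int hf
      rw [PointAux.ball_volume B hm S] at h1
      have h2 : |y ^ m / cov B * ∫ x, f x| ≤ y ^ m / cov B * (G * v) := by
        rw [abs_mul, abs_of_pos (by positivity : 0 < y ^ m / cov B)]
        exact mul_le_mul_of_nonneg_left h1 (by positivity)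
      refine (pow_le_pow_left₀ (abs_nonneg _) h2 2).trans ?_
      have h3 : (y ^ m / cov B * (G * v)) ^ 2 = v ^ 2 * (G ^ 2 * ((y ^ m / cov B) ^ 2 * 1)) := by
        ring
      rw [h3]
      gcongr
    have hSum : |∑' x : Submodule.span ℤ (Set.range B), f (y⁻¹ • ((x : E) + x₀))| ^ 2 ≤
        D * (G ^ 2 * (n0 * (1 + s₁) + (y ^ m / cov B) ^ 2 * hh m u)) := by
      by_cases hex : ∃ x ∈ Submodule.span ℤ (Set.range B), f (y⁻¹ • (x + x₀)) ≠ 0
      · have hn1 := hn0' hex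
        obtain ⟨x₁, hx₁L, hx₁f⟩ := hex
        have hsb := sum_bound hf B x₀ y hy x₁ hx₁L hx₁f
        have hNsq := hcB E B y s₁ u hy hs₁ hu hB1 hB hx₁
        set N : ℝ := (({x : E | x ∈ Submodule.span ℤ (Set.range B) ∧
          ‖x‖ ≤ 2 * S * y}.ncard : ℕ) : ℝ) with hN
        calc |∑' x : Submodule.span ℤ (Set.range B), f (y⁻¹ • ((x : E) + x₀))| ^ 2
            ≤ (G * N) ^ 2 := pow_le_pow_left₀ (abs_nonneg _) hsb 2
          _ = G ^ 2 * N ^ 2 := by ring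
          _ ≤ G ^ 2 * (D * ((1 + s₁) + (y ^ m / cov B) ^ 2 * hh m u)) :=
              mul_le_mul_of_nonneg_left hNsq hG2
          _ ≤ G ^ 2 * (D * (n0 * (1 + s₁) + (y ^ m / cov B) ^ 2 * hh m u)) := by
              gcongr
              have : 0 ≤ 1 + s₁ := by linarith
              nlinarith
          _ = _ := by ring
      · have hz : ∑' x : Submodule.span ℤ (Set.range B), f (y⁻¹ • ((x : E) + x₀)) = 0 := by
          have : ∀ x : Submodule.span ℤ (Set.range B), f (y⁻¹ • ((x : E) + x₀)) = 0 := by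
            intro x
            by_contra hcon
            exact hex ⟨x, x.2, hcon⟩
          simp only [this, tsum_zero]
        rw [hz, abs_zero]
        have : 0 ≤ D * (G ^ 2 * (n0 * (1 + s₁) + (y ^ m / cov B) ^ 2 * hh m u)) := by positivity
        simpa using this
    have hsub : |∑' x : Submodule.span ℤ (Set.range B), f (y⁻¹ • ((x : E) + x₀)) -
        y ^ m / cov B * ∫ x, f x| ^ 2 ≤
        2 * |∑' x : Submodule.span ℤ (Set.range B), f (y⁻¹ • ((x : E) + x₀))| ^ 2 +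
          2 * |y ^ m / cov B * ∫ x, f x| ^ 2 := by
      rw [sq_abs, sq_abs, sq_abs]
      nlinarith [sq_nonneg (∑' x : Submodule.span ℤ (Set.range B), f (y⁻¹ • ((x : E) + x₀)) +
        y ^ m / cov B * ∫ x, f x)]
    have h3 := mul_le_mul_of_nonneg_left hYX (sq_nonneg v)
    have h4 : 0 ≤ A * (G ^ 2 * (n0 * (1 + s₁) + (y ^ m / cov B) ^ 2 * hh m u)) := by positivity
    linarith

end PointCAux

theorem pointC (m : ℕ) (hm : 2 ≤ m) (k : ℕ) (hk : m + 1 ≤ 2 * k) (S : ℝ) (hS : 1 ≤ S) :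
    ∃ C : ℝ, 0 < C ∧
    ∀ (E : Type) [NormedAddCommGroup E] [InnerProductSpace ℝ E] [MeasurableSpace E]
      [BorelSpace E] [FiniteDimensional ℝ E] (B : Module.Basis (Fin m) ℝ E) (G : ℝ) (f : E → ℝ),
      Good0 k S G f → ∀ (x₀ : E) (y n0 s₁ s₂ : ℝ), 0 < y → 0 ≤ n0 → 0 ≤ s₁ →
      ((∃ x ∈ Submodule.span ℤ (Set.range B), f (y⁻¹ • (x + x₀)) ≠ 0) → 1 ≤ n0) →
      (∀ x ∈ Submodule.span ℤ (Set.range B), x ≠ 0 → ‖x‖ ≤ 2 * S * y → (y / ‖x‖) ^ m ≤ s₁) →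
      (∀ ξ : E, ξ ≠ 0 → (∀ x ∈ Submodule.span ℤ (Set.range B), ∃ n : ℤ, ⟪ξ, x⟫_ℝ = n) →
        hh m (y * ‖ξ‖) ≤ s₂) →
      |∑' x : Submodule.span ℤ (Set.range B), f (y⁻¹ • ((x : E) + x₀)) -
          y ^ m / cov B * ∫ x, f x| ^ 2 ≤
        C * G ^ 2 * (n0 * (1 + s₁) + (y ^ m / cov B) ^ 2 * s₂) := by
  obtain ⟨C₀, hC₀, htr⟩ := trans m
  obtain ⟨C, hC, hmain⟩ := PointCAux.main m hm k hk S hS C₀ hC₀
  refine ⟨C, hC, ?_⟩
  intro E _ _ _ _ _ B G f hf x₀ y n0 s₁ s₂ hy hn0 hs₁ hn0' hx₁ hx₂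
  obtain ⟨ξ₀, hξ₀, hξ₀L⟩ := PointAux.exists_dual hm B
  have hξn : 0 < ‖ξ₀‖ := norm_pos_iff.mpr hξ₀
  have hs₂ : 0 < s₂ := lt_of_lt_of_le (PointAux.hh_pos m (y * ‖ξ₀‖) (by positivity))
    (hx₂ ξ₀ hξ₀ hξ₀L)
  obtain ⟨u, hu, hus⟩ := PointAux.exists_u m hm s₂ hs₂
  have hμ : ∀ ξ : E, ξ ≠ 0 →
      (∀ x ∈ Submodule.span ℤ (Set.range B), ∃ n : ℤ, ⟪ξ, x⟫_ℝ = n) → u / y ≤ ‖ξ‖ := by
    intro ξ hξ hξL
    rw [div_le_iff₀ hy]
    by_contra hcon
    have h1 : 0 < ‖ξ‖ := norm_pos_iff.mpr hξ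
    have h2 := PointAux.hh_lt m hm (y * ‖ξ‖) u (by positivity) (by linarith)
    have h3 := hx₂ ξ hξ hξL
    rw [hus] at h2
    linarith
  obtain ⟨B', hspan, hB'⟩ := htr E B (u / y) (by positivity) hμ
  rw [← hspan] at hx₁ hn0' ⊢
  rw [← cov_congr B B' hspan, ← hus]
  refine hmain E B' G f hf x₀ y n0 s₁ u hy hn0 hs₁ hu (fun i => ?_) hn0' hx₁
  refine (hB' i).trans (le_of_eq ?_)
  field_simp

end Pool.RC
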