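import Pool.Agent.RC.Defs

set_option linter.all false

/-!
# Module TESTSG: the test function restricted to one orthant

PAPER PROOF. Let `Φ (u) = PhiS K g (toMixed u)`. By `test_good` (`Pool/Agent/HDZ/TestGood.lean`) `Φ` is `Good k S (C G)`. If `Φ u ≠ 0` then
`norm (x)^2 > 1` (`g` is supported in `[1,16]`) and `normAtPlace w x < 2` for `w ≠ w₀` (see `support_bound` there), so `|x_w| ≥ 2^{-m}` for every real `w`
(for `w = w₀`: `1 < norm x = ∏ normAtPlace ^ mult ≤ |x_{w₀}| 2^{m}`; for `w ≠ w₀` even `|x_w| > 1`). So `Φ` vanishes on the neighbourhood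
`{u | ∃ w real, |x_w| < 2^{-m}}` of the walls.
`fs_good`: every point `u` has a neighbourhood on which `FS K g s` equals `Φ` or equals `0`: if `|x_w| < 2^{-m}` for some real `w`, both `Φ` and `FS` vanish near `u`; otherwise all `x_w ≠ 0` and
`isSg K s` is constant near `u`. Hence `ContDiff` (`ContDiffAt` is local), and `iteratedFDeriv ℝ j (FS K g s) u` is `iteratedFDeriv ℝ j Φ u` or `0`
(`Filter.EventuallyEq.iteratedFDeriv`), and the bounds and the support are those of `Φ`.
`fs_integral`: the sign changes `negAt` preserve the volume and `PhiS`, so the integrals of all the `FS K g s` agree.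
`∑_s FS K g s = Φ`, and the number of sign vectors is `2 ^ nrRealPlaces K`.
`iphi_bound`: `|Φ| ≤ C G` and `Φ = 0` outside the ball of radius `S`, of volume depending only on `m`.
-/

open scoped NumberField nonZeroDivisors ENNReal
open NumberField NumberField.InfinitePlace NumberField.mixedEmbedding NumberField.Units
  NumberField.Units.dirichletUnitTheorem MeasureTheory Pool.ZD Pool.HDZ Pool.DM

namespace Pool.RC

namespace TSg

variable (K : Type) [Field K] [NumberField K]

theorem wall_bound {k : ℕ} {G : ℝ} {g : ℝ → ℝ} (hg : NiceS k G g) (x : mixedSpace K)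
    (hne : PhiS K g x ≠ 0) (w : InfinitePlace K) (hw : IsReal w) :
    (1 / 4 : ℝ) ^ Module.finrank ℚ K ≤ normAtPlace w x ^ 2 := by
  classical
  rw [TG.PhiS_eq] at hne
  have h1 := left_ne_zero_of_mul hne
  have h2 := right_ne_zero_of_mul hne
  rw [Finset.prod_ne_zero_iff] at h2
  have h3 : ∀ w : InfinitePlace K, w ≠ w₀ → 1 < normAtPlace w x ^ 2 ∧ normAtPlace w x ^ 2 < 4 :=
    fun w hw => TG.psiS_ne_zero (h2 ⟨w, hw⟩ (Finset.mem_univ _))
  have h4 : 1 < ∏ w : InfinitePlace K, (normAtPlace w x ^ 2) ^ mult w := by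
    by_contra hcon
    exact h1 (hg.2.2 _ (Or.inl (not_lt.mp hcon)))
  by_cases hw0 : w = w₀
  · subst hw0
    rw [← Finset.mul_prod_erase Finset.univ _ (Finset.mem_univ (w₀ : InfinitePlace K))] at h4
    have hm1 : mult (w₀ : InfinitePlace K) = 1 := by unfold mult; rw [if_pos hw]
    rw [hm1, pow_one] at h4
    have h5 : ∏ w ∈ Finset.univ.erase (w₀ : InfinitePlace K), (normAtPlace w x ^ 2) ^ mult w ≤
        (4 : ℝ) ^ Module.finrank ℚ K := by
      calc ∏ w ∈ Finset.univ.erase (w₀ : InfinitePlace K), (normAtPlace w x ^ 2) ^ mult w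
          ≤ ∏ w ∈ Finset.univ.erase (w₀ : InfinitePlace K), (4 : ℝ) ^ mult w :=
            Finset.prod_le_prod (fun _ _ => by positivity) fun w hw =>
              pow_le_pow_left₀ (by positivity) (h3 w (Finset.ne_of_mem_erase hw)).2.le _
        _ ≤ (4 : ℝ) ^ mult (w₀ : InfinitePlace K) *
              ∏ w ∈ Finset.univ.erase (w₀ : InfinitePlace K), (4 : ℝ) ^ mult w := by
            refine le_mul_of_one_le_left ?_ ?_
            · positivity
            · exact one_le_pow₀ (by norm_num)
        _ = ∏ w : InfinitePlace K, (4 : ℝ) ^ mult w :=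
            Finset.mul_prod_erase Finset.univ (fun w : InfinitePlace K => (4 : ℝ) ^ mult w)
              (Finset.mem_univ _)
        _ = (4 : ℝ) ^ Module.finrank ℚ K := by
            rw [Finset.prod_pow_eq_pow_sum, sum_mult_eq]
    have h6 : 1 < normAtPlace (w₀ : InfinitePlace K) x ^ 2 * (4 : ℝ) ^ Module.finrank ℚ K :=
      h4.trans_le (mul_le_mul_of_nonneg_left h5 (sq_nonneg _))
    rw [one_div, inv_pow]
    rw [inv_le_iff_one_le_mul₀ (by positivity)]
    exact h6.le
  · have h5 := (h3 w hw0).1
    have h6 : (1 / 4 : ℝ) ^ Module.finrank ℚ K ≤ 1 := pow_le_one₀ (by norm_num) (by norm_num)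
    linarith

open scoped Classical in
theorem fs_local {k : ℕ} {G : ℝ} {g : ℝ → ℝ} (hg : NiceS k G g) (s : RP K → ℤˣ)
    (u : euclidean.mixedSpace K) :
    (FS K g s =ᶠ[nhds u] fun v => PhiS K g (euclidean.toMixed K v)) ∨
      (FS K g s =ᶠ[nhds u] fun _ => (0 : ℝ)) := by
  have hcont : ∀ w : RP K, Continuous fun v : euclidean.mixedSpace K =>
      (euclidean.toMixed K v).1 w := fun w =>
    (continuous_apply w).comp (continuous_fst.comp (euclidean.toMixed K).continuous)
  by_cases hA : ∃ w : RP K, normAtPlace w.1 (euclidean.toMixed K u) ^ 2 <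
      (1 / 4 : ℝ) ^ Module.finrank ℚ K
  · obtain ⟨w, hw⟩ := hA
    right
    have hopen : IsOpen {v : euclidean.mixedSpace K |
        normAtPlace w.1 (euclidean.toMixed K v) ^ 2 < (1 / 4 : ℝ) ^ Module.finrank ℚ K} :=
      isOpen_lt (((continuous_normAtPlace w.1).comp (euclidean.toMixed K).continuous).pow 2)
        continuous_const
    filter_upwards [hopen.mem_nhds hw] with v hv
    have h0 : PhiS K g (euclidean.toMixed K v) = 0 := by
      by_contra hne
      have := wall_bound K hg _ hne w.1 w.2
      exact absurd hv (not_lt.mpr this)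
    unfold FS
    rw [h0]
    simp
  · push Not at hA
    have hne : ∀ w : RP K, (euclidean.toMixed K u).1 w ≠ 0 := by
      intro w h0
      have h1 := hA w
      rw [normAtPlace_apply_of_isReal w.2] at h1
      have h2 : (euclidean.toMixed K u).1 ⟨w.1, w.2⟩ = 0 := h0
      rw [h2, norm_zero] at h1
      have h3 : (0 : ℝ) < (1 / 4 : ℝ) ^ Module.finrank ℚ K := by positivity
      rw [zero_pow two_ne_zero] at h1
      linarith
    have hev : ∀ᶠ v in nhds u, ∀ w : RP K,
        0 < (euclidean.toMixed K u).1 w * (euclidean.toMixed K v).1 w := by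
      rw [Filter.eventually_all]
      intro w
      have hopen : IsOpen {v : euclidean.mixedSpace K |
          0 < (euclidean.toMixed K u).1 w * (euclidean.toMixed K v).1 w} :=
        isOpen_lt continuous_const (continuous_const.mul (hcont w))
      refine hopen.mem_nhds ?_
      show 0 < (euclidean.toMixed K u).1 w * (euclidean.toMixed K u).1 w
      exact mul_self_pos.mpr (hne w)
    have hiff : ∀ᶠ v in nhds u, (isSg K s (euclidean.toMixed K v) ↔
        isSg K s (euclidean.toMixed K u)) := by
      filter_upwards [hev] with v hv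
      unfold isSg
      refine forall_congr' fun w => ?_
      have h1 := hv w
      have hs : ((s w : ℤ) : ℝ) = 1 ∨ ((s w : ℤ) : ℝ) = -1 := by
        rcases Int.units_eq_one_or (s w) with h | h <;> rw [h] <;> simp
      rcases hs with h | h <;> rw [h]
      · rw [one_mul, one_mul]
        rcases pos_and_pos_or_neg_and_neg_of_mul_pos h1 with h2 | h2
        · exact ⟨fun _ => h2.1, fun _ => h2.2⟩
        · exact ⟨fun h => absurd h (not_lt.mpr h2.2.le), fun h => absurd h (not_lt.mpr h2.1.le)⟩
      · rcases pos_and_pos_or_neg_and_neg_of_mul_pos h1 with h2 | h2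
        · constructor <;> intro h <;> linarith [h2.1, h2.2]
        · constructor <;> intro h <;> linarith [h2.1, h2.2]
    by_cases hs : isSg K s (euclidean.toMixed K u)
    · left
      filter_upwards [hiff] with v hv
      unfold FS
      rw [if_pos (hv.mpr hs)]
    · right
      filter_upwards [hiff] with v hv
      unfold FS
      rw [if_neg (fun h => hs (hv.mp h))]

open scoped Classical in
theorem good0 {k : ℕ} {S C G : ℝ} {g : ℝ → ℝ} (hg : NiceS k G g)
    (h : Good k S (C * G) (fun u : euclidean.mixedSpace K => PhiS K g (euclidean.toMixed K u)))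
    (s : RP K → ℤˣ) : Good0 k S (C * G) (FS K g s) := by
  have hCG : 0 ≤ C * G := (norm_nonneg _).trans (h.2.1 0 (Nat.zero_le _) 0)
  refine ⟨?_, ?_, ?_⟩
  · rw [contDiff_iff_contDiffAt]
    intro u
    rcases fs_local K hg s u with h1 | h1
    · exact (h.1.contDiffAt).congr_of_eventuallyEq h1
    · exact (contDiffAt_const).congr_of_eventuallyEq h1
  · intro j hj u
    rcases fs_local K hg s u with h1 | h1
    · rw [(Filter.EventuallyEq.iteratedFDeriv ℝ h1 j).eq_of_nhds]
      exact h.2.1 j hj u
    · rw [(Filter.EventuallyEq.iteratedFDeriv ℝ h1 j).eq_of_nhds]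
      have e : iteratedFDeriv ℝ j (fun _ : euclidean.mixedSpace K => (0 : ℝ)) u = 0 := by
        simp
      rw [e, norm_zero]
      exact hCG
  · intro u hu
    have h0 := h.2.2.1 u hu
    unfold FS
    split_ifs
    · exact h0
    · rfl

theorem isSg_one_negAt (s : RP K → ℤˣ) (x : mixedSpace K) :
    isSg K 1 (negAt {w | s w = -1} x) ↔ isSg K s x := by
  unfold isSg
  refine forall_congr' fun w => ?_
  rcases Int.units_eq_one_or (s w) with h | h
  · have hw : w ∉ {w | s w = -1} := by
      simp only [Set.mem_setOf_eq, h]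
      decide
    rw [negAt_apply_isReal_and_notMem x hw, h]
    simp
  · have hw : w ∈ {w | s w = -1} := h
    rw [negAt_apply_isReal_and_mem x hw, h]
    simp

open scoped Classical in
theorem integral_mixed {F : mixedSpace K → ℝ} :
    ∫ u : euclidean.mixedSpace K, F (euclidean.toMixed K u) = ∫ x : mixedSpace K, F x :=
  (euclidean.volumePreserving_toMixed K).integral_comp
    (euclidean.toMixed K).toHomeomorph.measurableEmbedding F

open scoped Classical in
theorem integral_neg (S : Set (RP K)) (F : mixedSpace K → ℝ) :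
    ∫ x : mixedSpace K, F (negAt S x) = ∫ x : mixedSpace K, F x :=
  (volume_preserving_negAt (s := S)).integral_comp
    (negAt S).toHomeomorph.measurableEmbedding F

open scoped Classical in
theorem fs_int_eq (g : ℝ → ℝ) (s : RP K → ℤˣ) :
    ∫ u : euclidean.mixedSpace K, FS K g s u = ∫ u : euclidean.mixedSpace K, FS K g 1 u := by
  have e1 : ∀ s : RP K → ℤˣ, ∫ u : euclidean.mixedSpace K, FS K g s u =
      ∫ x : mixedSpace K, (if isSg K s x then PhiS K g x else 0) := fun s =>
    integral_mixed K (F := fun x => if isSg K s x then PhiS K g x else 0)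
  rw [e1, e1, ← integral_neg K {w | s w = -1} (fun x => if isSg K 1 x then PhiS K g x else 0)]
  refine integral_congr_ae (Filter.Eventually.of_forall fun x => ?_)
  show (if isSg K s x then PhiS K g x else 0) =
    if isSg K 1 (negAt {w | s w = -1} x) then PhiS K g (negAt {w | s w = -1} x) else 0
  have h1 : PhiS K g (negAt {w | s w = -1} x) = PhiS K g x :=
    PhiS_congr K g _ _ fun w => normAtPlace_negAt _ _ _
  rw [h1, if_congr (isSg_one_negAt K s x) rfl rfl]

open scoped Classical in
theorem sum_fs {k : ℕ} {G : ℝ} {g : ℝ → ℝ} (hg : NiceS k G g) (u : euclidean.mixedSpace K) :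
    ∑ s : RP K → ℤˣ, FS K g s u = PhiS K g (euclidean.toMixed K u) := by
  set x := euclidean.toMixed K u with hx
  have hF : ∀ s, FS K g s u = if isSg K s x then PhiS K g x else 0 := fun s => rfl
  simp only [hF]
  by_cases hne : ∀ w : RP K, x.1 w ≠ 0
  · let s0 : RP K → ℤˣ := fun w => if 0 < x.1 w then 1 else -1
    have hs0 : isSg K s0 x := by
      intro w
      show 0 < (((if 0 < x.1 w then 1 else -1 : ℤˣ) : ℤ) : ℝ) * x.1 w
      split_ifs with h
      · simpa using h
      · have h2 : x.1 w < 0 := lt_of_le_of_ne (not_lt.mp h) (hne w)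
        simpa using h2
    rw [Finset.sum_eq_single s0]
    · rw [if_pos hs0]
    · intro s _ hs
      rw [if_neg]
      intro hcon
      apply hs
      funext w
      have h1 := hcon w
      show s w = if 0 < x.1 w then 1 else -1
      rcases Int.units_eq_one_or (s w) with h | h
      · rw [h] at h1
        have h2 : 0 < x.1 w := by simpa using h1
        rw [if_pos h2, h]
      · rw [h] at h1
        have h2 : x.1 w < 0 := by simpa using h1
        rw [if_neg (not_lt.mpr h2.le), h]
    · intro h; exact absurd (Finset.mem_univ _) h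
  · push Not at hne
    obtain ⟨w, hw⟩ := hne
    have h0 : PhiS K g x = 0 := by
      by_contra hcon
      have h1 := wall_bound K hg x hcon w.1 w.2
      rw [normAtPlace_apply_of_isReal w.2] at h1
      have h2 : x.1 ⟨w.1, w.2⟩ = 0 := hw
      rw [h2, norm_zero] at h1
      have h3 : (0 : ℝ) < (1 / 4 : ℝ) ^ Module.finrank ℚ K := by positivity
      rw [zero_pow two_ne_zero] at h1
      linarith
    rw [h0]
    simp

end TSg

open scoped Classical in
theorem fs_good (m k : ℕ) (hm : 1 ≤ m) : ∃ C S : ℝ, 0 < C ∧ 1 ≤ S ∧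
    ∀ (K : Type) [Field K] [NumberField K], Module.finrank ℚ K = m →
    ∀ (G : ℝ) (g : ℝ → ℝ), NiceS k G g → ∀ s : RP K → ℤˣ, Good0 k S (C * G) (FS K g s) := by
  obtain ⟨C, S, hC, hS, h⟩ := test_good m k hm
  exact ⟨C, S, hC, hS, fun K _ _ hK G g hg s => TSg.good0 K hg (h K hK G g hg) s⟩

open scoped Classical in
theorem fs_integral (K : Type) [Field K] [NumberField K] (k : ℕ) (G : ℝ) (g : ℝ → ℝ)
    (hg : NiceS k G g) (s : RP K → ℤˣ) :
    ∫ u : euclidean.mixedSpace K, FS K g s u = IPhi K g / 2 ^ nrRealPlaces K := by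
  obtain ⟨C, S, hC, hS, h⟩ := fs_good (Module.finrank ℚ K) k Module.finrank_pos
  have hint : ∀ s : RP K → ℤˣ, Integrable (FS K g s) := by
    intro s
    have h1 := h K rfl G g hg s
    refine (h1.1.continuous).integrable_of_hasCompactSupport ?_
    refine HasCompactSupport.intro (isCompact_closedBall (0 : euclidean.mixedSpace K) S) ?_
    intro u hu
    apply h1.2.2
    rw [mem_closedBall_zero_iff, not_le] at hu
    exact hu.le
  have h1 : IPhi K g = ∑ s : RP K → ℤˣ, ∫ u : euclidean.mixedSpace K, FS K g s u := by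
    rw [← integral_finset_sum _ fun s _ => hint s]
    unfold IPhi
    refine integral_congr_ae (Filter.Eventually.of_forall fun u => ?_)
    exact (TSg.sum_fs K hg u).symm
  rw [h1, Finset.sum_congr rfl fun s _ => TSg.fs_int_eq K g s, Finset.sum_const,
    Finset.card_univ, nsmul_eq_mul, TSg.fs_int_eq K g s]
  have hcard : Fintype.card (RP K → ℤˣ) = 2 ^ nrRealPlaces K := by
    rw [Fintype.card_fun]
    congr 1
  rw [hcard]
  push_cast
  field_simp

theorem iphi_bound (m k : ℕ) (hm : 1 ≤ m) : ∃ C : ℝ, 0 < C ∧
    ∀ (K : Type) [Field K] [NumberField K], Module.finrank ℚ K = m →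
    ∀ (G : ℝ) (g : ℝ → ℝ), NiceS k G g → |IPhi K g| ≤ C * G := by
  classical
  obtain ⟨C, S, hC, hS, h⟩ := test_good m k hm
  set V : ENNReal := volume (Metric.closedBall (0 : EuclideanSpace ℝ (Fin m)) 1) with hV
  have hVt : V ≠ ⊤ := measure_closedBall_lt_top.ne
  have hV0 : V ≠ 0 := (Metric.measure_closedBall_pos volume _ one_pos).ne'
  refine ⟨C * (S ^ m * V.toReal), mul_pos hC (mul_pos (by positivity)
    (ENNReal.toReal_pos hV0 hVt)), ?_⟩
  intro K _ _ hK G g hg
  have h1 := h K hK G g hg
  have hfr : Module.finrank ℝ (euclidean.mixedSpace K) = m := by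
    rw [euclidean.finrank, hK]
  have hS0 : 0 ≤ S := by linarith
  have hvol : volume (Metric.closedBall (0 : euclidean.mixedSpace K) S) =
      ENNReal.ofReal (S ^ m) * V := by
    rw [Measure.addHaar_closedBall' volume _ hS0, hfr,
      volume_unit_ball (Module.finBasisOfFinrankEq ℝ (euclidean.mixedSpace K) hfr)]
  have hvr : volume.real (Metric.closedBall (0 : euclidean.mixedSpace K) S) =
      S ^ m * V.toReal := by
    rw [Measure.real, hvol, ENNReal.toReal_mul, ENNReal.toReal_ofReal (by positivity)]
  have hset : IPhi K g = ∫ u in Metric.closedBall (0 : euclidean.mixedSpace K) S,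
      PhiS K g (euclidean.toMixed K u) := by
    unfold IPhi
    rw [setIntegral_eq_integral_of_forall_compl_eq_zero]
    intro u hu
    apply h1.2.2.1
    rw [mem_closedBall_zero_iff, not_le] at hu
    exact hu.le
  rw [hset, ← Real.norm_eq_abs]
  have h2 := norm_setIntegral_le_of_norm_le_const (μ := volume)
    (s := Metric.closedBall (0 : euclidean.mixedSpace K) S)
    (f := fun u => PhiS K g (euclidean.toMixed K u)) (C := C * G)
    measure_closedBall_lt_top (fun u _ => by
      have := h1.2.1 0 (Nat.zero_le _) u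
      rw [norm_iteratedFDeriv_zero] at this
      exact this)
  refine h2.trans (le_of_eq ?_)
  rw [hvr]
  ring

end Pool.RC
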