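import Pool.Agent.RC.PointC
import Pool.Agent.RC.TestSg
import Pool.Agent.RC.Types

/-!
# Module PTT: the pointwise bound for all types

PAPER PROOF (compare `pt_bound` in `Pool/Agent/HDZ/KeyP.lean`). `fs_good` gives `CT`, `S₀`; `pointC` with `S₀` gives `CP`; take `S = 2 S₀`. Fix `t`, `e = toMixed`.
`lat_basis m K hK (𝔪 * J) t` gives the basis `B` of the scaled lattice of `𝔪 J`, `cov B = VJ K (𝔪 * J)`.

Fix a type `β = (u, s)`. As `J` is prime to `𝔪` there is `a ∈ J` with `mk a = u` (`Ideal.sup_eq_top`/CRT: write `1 = j + μ`, `j ∈ J`, `μ ∈ 𝔪`, and `a = j r` with `mk r = u`), and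
`{x ∈ J | mk x = u} = a + 𝔪 J` (`𝔪 ⊓ J = 𝔪 * J`, `Ideal.inf_eq_mul_of_isCoprime`). With `x₀ = e.symm (sg t * a)` and `l = e.symm (sg t * b)`, `b ∈ 𝔪 J`, the sum
`(TT K 𝔪 J β g y t).toReal = ∑_{l ∈ span B} FS K g s (y⁻¹ • (l + x₀))`: the signs of `sg t * x` and of `y⁻¹ • (sg t * x)` are those of `x` (`sc_pos`, `y > 0`), the term `x = 0` contributes `0` (`PhiS_zero`), and
`ENNReal.tsum_toReal_eq` as in `toReal_TS`. `∫ FS K g s = IPhi K g / 2^r₁` (`fs_integral`).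
Apply `pointC` with `s₁ = y^m (L1 K m (𝔪 * J) (S y) t).toReal` and `s₂ = (L2 K m J' (y/n) t).toReal` (as in `pt_bound`) and `n0 β = 1` if some `x ∈ NZ J` with `isTy β x` has
`‖sg t x‖ ≤ S₀ y` (`en`), `0` otherwise (if `FS (y⁻¹ (l + x₀)) ≠ 0` then `en (sg t x) ≤ S₀ y` as `FS` is supported in the ball of radius `S₀`).
Sum over `β`: `∑_β n0 β ≤ card (Ty)` for the term with `s₁`; and `∑_β n0 β ≤ #{x ∈ NZ J | en (sg t x) ≤ S₀ y}` (different types have different elements, `isTy_unique`)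
`≤ ∑_{x ∈ NZ J, en ≤ S₀ y} (S₀ y / en)^m ≤ S₀^m y^m (L1 K m J (S y) t).toReal`. So
`∑_β |…|² ≤ CP (CT G)² (∑_β n0 β + (∑_β n0 β) s₁ + card (Ty) (y^m/V)² s₂) ≤ C G² (y^m L1(J) + card (Ty) (y^m L1(𝔪 J) + (y^m/V)² L2))`.
-/

open scoped NumberField nonZeroDivisors ENNReal InnerProductSpace
open NumberField NumberField.InfinitePlace NumberField.mixedEmbedding NumberField.Units
  NumberField.Units.dirichletUnitTheorem MeasureTheory Pool.ZD Pool.HDZ Pool.DM

namespace Pool.RC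

namespace PtTaux

variable (K : Type) [Field K] [NumberField K]

theorem sg_fst (t : logSpace K) (x : mixedSpace K) (w : RP K) :
    (sg K t * x).1 w = sc K t w.1 * x.1 w := by
  unfold sg
  rw [mixedSpaceOfRealSpace_apply]
  rfl

theorem isSg_scale (s : RP K → ℤˣ) (x : mixedSpace K) (t : logSpace K) {y : ℝ} (hy : 0 < y) :
    isSg K s (y⁻¹ • (sg K t * x)) ↔ isSg K s x := by
  unfold isSg
  refine forall_congr' fun w => ?_
  have h1 : (y⁻¹ • (sg K t * x)).1 w = (y⁻¹ * sc K t w.1) * x.1 w := by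
    rw [Prod.smul_fst, Pi.smul_apply, sg_fst, smul_eq_mul, mul_assoc]
  rw [h1]
  have h2 : 0 < y⁻¹ * sc K t w.1 := mul_pos (inv_pos.mpr hy) (sc_pos K t w.1)
  rw [show ((s w : ℤ) : ℝ) * ((y⁻¹ * sc K t w.1) * x.1 w) =
    (y⁻¹ * sc K t w.1) * (((s w : ℤ) : ℝ) * x.1 w) by ring]
  exact mul_pos_iff_of_pos_left h2

variable {K}

/-- Elements of a residue class in an ideal prime to the modulus. -/
theorem exists_rep {𝔪 J : (Ideal (𝓞 K))⁰} (h : Cop K 𝔪 J) (u : 𝓞 K ⧸ (𝔪 : Ideal (𝓞 K))) :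
    ∃ a : 𝓞 K, a ∈ (J : Ideal (𝓞 K)) ∧ Ideal.Quotient.mk (𝔪 : Ideal (𝓞 K)) a = u := by
  obtain ⟨r, hr⟩ := Ideal.Quotient.mk_surjective u
  obtain ⟨j, hj, μ, hμ, hjμ⟩ := Submodule.mem_sup.mp
    (show (1 : 𝓞 K) ∈ (J : Ideal (𝓞 K)) ⊔ (𝔪 : Ideal (𝓞 K)) by
      rw [Ideal.isCoprime_iff_sup_eq.mp h]; trivial)
  refine ⟨j * r, Ideal.mul_mem_right _ _ hj, ?_⟩
  rw [← hr, Ideal.Quotient.eq]
  have h1 : j * r - r = - (μ * r) := by
    linear_combination r * hjμ
  rw [h1]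
  exact neg_mem (Ideal.mul_mem_right _ _ hμ)

theorem mem_mul_iff {𝔪 J : (Ideal (𝓞 K))⁰} (h : Cop K 𝔪 J) (x : 𝓞 K) :
    x ∈ ((𝔪 * J : (Ideal (𝓞 K))⁰) : Ideal (𝓞 K)) ↔
      x ∈ (𝔪 : Ideal (𝓞 K)) ∧ x ∈ (J : Ideal (𝓞 K)) := by
  have h1 : ((𝔪 * J : (Ideal (𝓞 K))⁰) : Ideal (𝓞 K)) = (𝔪 : Ideal (𝓞 K)) ⊓ (J : Ideal (𝓞 K)) := by
    rw [Submonoid.coe_mul, Ideal.mul_eq_inf_of_isCoprime h.symm]
  rw [h1]
  exact Iff.rfl

end PtTaux

open PtTaux

theorem toReal_TT {K : Type} [Field K] [NumberField K] {k : ℕ} {G : ℝ} {g : ℝ → ℝ}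
    (hg : NiceS k G g) (hg0 : ∀ u, 0 ≤ g u) {𝔪 J : (Ideal (𝓞 K))⁰} (h : Cop K 𝔪 J)
    (β : Ty K 𝔪) (a : 𝓞 K) (ha : a ∈ (J : Ideal (𝓞 K)))
    (hau : Ideal.Quotient.mk (𝔪 : Ideal (𝓞 K)) a = (β.1 : 𝓞 K ⧸ (𝔪 : Ideal (𝓞 K))))
    {y : ℝ} (hy : 0 < y) (t : logSpace K) :
    open scoped Classical in
    (TT K 𝔪 J β g y t).toReal = ∑' b : ((𝔪 * J : (Ideal (𝓞 K))⁰) : Ideal (𝓞 K)),
      FS K g β.2 (y⁻¹ • ((euclidean.toMixed K).symm (sg K t * mixedEmbedding K ((b : 𝓞 K) : K)) +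
        (euclidean.toMixed K).symm (sg K t * mixedEmbedding K (a : K)))) := by
  classical
  set F : ↥(J : Ideal (𝓞 K)) → ℝ := fun x => if isTy K 𝔪 β (x : 𝓞 K) then
    PhiS K g (y⁻¹ • (sg K t * mixedEmbedding K ((x : 𝓞 K) : K))) else 0 with hF
  have h1 : (TT K 𝔪 J β g y t).toReal = ∑' x : (J : Ideal (𝓞 K)), F x := by
    unfold TT
    rw [ENNReal.tsum_toReal_eq (fun x => by split_ifs <;> simp)]
    have h0 : ∀ x : NZ K J, ((if isTy K 𝔪 β (x : 𝓞 K) then ENNReal.ofReal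
        (PhiS K g (y⁻¹ • (sg K t * mixedEmbedding K ((x : 𝓞 K) : K)))) else 0 : ℝ≥0∞)).toReal =
        F ⟨x.1, x.2.1⟩ := by
      intro x
      simp only [hF]
      split_ifs
      · exact ENNReal.toReal_ofReal (PhiS_nonneg K hg0 _)
      · rfl
    simp only [h0]
    have hinj : Function.Injective (fun x : NZ K J => (⟨x.1, x.2.1⟩ : (J : Ideal (𝓞 K)))) := by
      intro a b hab
      simpa [Subtype.ext_iff] using hab
    rw [← hinj.tsum_eq (f := F)]
    intro x hx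
    rw [Function.mem_support] at hx
    by_cases h : x = 0
    · exfalso
      apply hx
      rw [h]
      simp only [hF, ZeroMemClass.coe_zero, map_zero, mul_zero, smul_zero]
      rw [PhiS_zero K hg, ite_self]
    · exact ⟨⟨x.1, x.2, fun h' => h (Subtype.ext h')⟩, rfl⟩
  rw [h1]
  let φ : ↥((𝔪 * J : (Ideal (𝓞 K))⁰) : Ideal (𝓞 K)) → ↥(J : Ideal (𝓞 K)) := fun b =>
    ⟨b.1 + a, add_mem ((mem_mul_iff h _).mp b.2).2 ha⟩
  have hφ : Function.Injective φ := by
    intro b c hbc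
    have : b.1 + a = c.1 + a := congrArg Subtype.val hbc
    exact Subtype.ext (add_right_cancel this)
  rw [← hφ.tsum_eq (f := F)]
  · refine tsum_congr fun b => ?_
    have h2 : euclidean.toMixed K (y⁻¹ • ((euclidean.toMixed K).symm
        (sg K t * mixedEmbedding K ((b : 𝓞 K) : K)) +
        (euclidean.toMixed K).symm (sg K t * mixedEmbedding K (a : K)))) =
        y⁻¹ • (sg K t * mixedEmbedding K ((b.1 + a : 𝓞 K) : K)) := by
      rw [map_smul, map_add, ContinuousLinearEquiv.apply_symm_apply,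
        ContinuousLinearEquiv.apply_symm_apply]
      push_cast
      rw [map_add, mul_add]
    unfold FS
    rw [h2, isSg_scale K _ _ _ hy]
    simp only [hF, φ]
    have h3 : isTy K 𝔪 β (b.1 + a) ↔ isSg K β.2 (mixedEmbedding K ((b.1 + a : 𝓞 K) : K)) := by
      unfold isTy
      have h4 : Ideal.Quotient.mk (𝔪 : Ideal (𝓞 K)) (b.1 + a) =
          (β.1 : 𝓞 K ⧸ (𝔪 : Ideal (𝓞 K))) := by
        rw [map_add, hau, Ideal.Quotient.eq_zero_iff_mem.mpr ((mem_mul_iff h _).mp b.2).1, zero_add]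
      exact and_iff_right h4
    by_cases h5 : isTy K 𝔪 β (b.1 + a)
    · rw [if_pos h5, if_pos (h3.mp h5)]
    · rw [if_neg h5, if_neg (fun h6 => h5 (h3.mpr h6))]
  · intro x hx
    rw [Function.mem_support] at hx
    have h2 : isTy K 𝔪 β (x : 𝓞 K) := by
      by_contra h3
      apply hx
      simp only [hF]
      rw [if_neg h3]
    have h3 : (x : 𝓞 K) - a ∈ (𝔪 : Ideal (𝓞 K)) := by
      rw [← Ideal.Quotient.eq, hau]
      exact h2.1
    exact ⟨⟨(x : 𝓞 K) - a, (mem_mul_iff h _).mpr ⟨h3, sub_mem x.2 ha⟩⟩,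
      Subtype.ext (sub_add_cancel _ _)⟩

open scoped Classical in
/-- Indicator that some element of type `β` lies in the ball of radius `r`. -/
noncomputable def nb (K : Type) [Field K] [NumberField K] (𝔪 J : (Ideal (𝓞 K))⁰) (β : Ty K 𝔪)
    (t : logSpace K) (r : ℝ) : ℝ :=
  if ∃ x : NZ K J, isTy K 𝔪 β (x : 𝓞 K) ∧
    en K (sg K t * mixedEmbedding K ((x : 𝓞 K) : K)) ≤ r then 1 else 0

theorem sg_ne {K : Type} [Field K] [NumberField K] (t : logSpace K) {x : 𝓞 K} (hx : x ≠ 0) :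
    sg K t * mixedEmbedding K (x : K) ≠ 0 := by
  intro h
  have h1 := norm_sg_mul K t (mixedEmbedding K (x : K))
  rw [h, map_zero] at h1
  have h2 := (norm_eq_zero_iff' (x := mixedEmbedding K (x : K)) ⟨_, rfl⟩).mp h1.symm
  apply hx
  have h3 := (mixedEmbedding_injective K) (h2.trans (map_zero _).symm)
  exact_mod_cast h3

theorem sum_nb_le {K : Type} [Field K] [NumberField K] (m : ℕ) (𝔪 J : (Ideal (𝓞 K))⁰)
    (t : logSpace K) {r r' : ℝ} (hr : 0 < r) (hrr : r ≤ r') (hL : L1 K m J r' t < ⊤) :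
    ∑ β : Ty K 𝔪, nb K 𝔪 J β t r ≤ r ^ m * (L1 K m J r' t).toReal := by
  classical
  set v : NZ K J → ℝ≥0∞ := fun x => if en K (sg K t * mixedEmbedding K ((x : 𝓞 K) : K)) ≤ r' then
    ENNReal.ofReal ((en K (sg K t * mixedEmbedding K ((x : 𝓞 K) : K)))⁻¹ ^ m) else 0 with hv
  have hnb0 : ∀ β, 0 ≤ nb K 𝔪 J β t r := fun β => by unfold nb; split_ifs <;> norm_num
  have h1 : ∀ β : Ty K 𝔪, ENNReal.ofReal (nb K 𝔪 J β t r) ≤
      ENNReal.ofReal (r ^ m) * ∑' x : NZ K J, (if isTy K 𝔪 β (x : 𝓞 K) then v x else 0) := by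
    intro β
    unfold nb
    split_ifs with h
    · obtain ⟨x, hx, hxr⟩ := h
      have hpos : 0 < en K (sg K t * mixedEmbedding K ((x : 𝓞 K) : K)) := en_pos K _ (sg_ne t x.2.2)
      refine le_trans ?_ (mul_le_mul_right (ENNReal.le_tsum x) _)
      rw [if_pos hx]
      simp only [hv]
      rw [if_pos (hxr.trans hrr), ← ENNReal.ofReal_mul (by positivity)]
      apply ENNReal.ofReal_le_ofReal
      rw [← mul_pow]
      apply one_le_pow₀
      rw [← div_eq_mul_inv, le_div_iff₀ hpos, one_mul]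
      exact hxr
    · simp
  have h2 : ∑ β : Ty K 𝔪, ∑' x : NZ K J, (if isTy K 𝔪 β (x : 𝓞 K) then v x else 0) ≤
      L1 K m J r' t := by
    rw [← Summable.tsum_finsetSum (fun β _ => ENNReal.summable)]
    unfold L1
    refine ENNReal.tsum_le_tsum fun x => ?_
    change _ ≤ v x
    by_cases h : ∃ β, isTy K 𝔪 β (x : 𝓞 K)
    · obtain ⟨β₀, hβ₀⟩ := h
      rw [Finset.sum_eq_single β₀]
      · rw [if_pos hβ₀]
      · intro β _ hβ
        rw [if_neg]
        intro h3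
        exact hβ (isTy_unique K 𝔪 h3 hβ₀)
      · intro h3
        exact absurd (Finset.mem_univ _) h3
    · push Not at h
      rw [Finset.sum_eq_zero]
      · exact bot_le
      · intro β _
        rw [if_neg (h β)]
  have h3 : ENNReal.ofReal (∑ β : Ty K 𝔪, nb K 𝔪 J β t r) ≤ ENNReal.ofReal (r ^ m) *
      L1 K m J r' t := by
    rw [ENNReal.ofReal_sum_of_nonneg (fun β _ => hnb0 β)]
    refine (Finset.sum_le_sum fun β _ => h1 β).trans ?_
    rw [← Finset.mul_sum]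
    exact mul_le_mul_right h2 _
  have h4 : ENNReal.ofReal (r ^ m) * L1 K m J r' t ≠ ⊤ := ENNReal.mul_ne_top
    ENNReal.ofReal_ne_top hL.ne
  have h5 := (ENNReal.ofReal_le_iff_le_toReal h4).mp h3
  rwa [ENNReal.toReal_mul, ENNReal.toReal_ofReal (by positivity)] at h5

theorem pt_type (m : ℕ) (hm : 2 ≤ m) (k : ℕ) (hk : m + 1 ≤ 2 * k) : ∃ C S : ℝ, 0 < C ∧ 1 ≤ S ∧
    ∀ (K : Type) [Field K] [NumberField K], Module.finrank ℚ K = m →
    ∀ (𝔪 J J' : (Ideal (𝓞 K))⁰) (n : ℕ), Cop K 𝔪 J → 0 < n →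
      (open scoped Classical in ∀ (t : logSpace K) (ξ : euclidean.mixedSpace K), ξ ≠ 0 →
        (∀ x : 𝓞 K, x ∈ ((𝔪 * J : (Ideal (𝓞 K))⁰) : Ideal (𝓞 K)) → ∃ k : ℤ,
          ⟪ξ, (euclidean.toMixed K).symm (sg K t * mixedEmbedding K (x : K))⟫_ℝ = k) →
        ∃ y : NZ K J', en K (sg K (-t) * mixedEmbedding K ((y : 𝓞 K) : K)) ≤ n * ‖ξ‖) →
    ∀ (G : ℝ) (g : ℝ → ℝ), NiceS k G g → (∀ u, 0 ≤ g u) →
    ∀ (y : ℝ), 0 < y → ∀ t : logSpace K, L1 K m J (S * y) t < ⊤ →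
      L1 K m (𝔪 * J) (S * y) t < ⊤ → L2 K m J' (y / n) t < ⊤ →
      ∑ β : Ty K 𝔪, |(TT K 𝔪 J β g y t).toReal -
          y ^ m / VJ K (𝔪 * J) * (IPhi K g / 2 ^ nrRealPlaces K)| ^ 2 ≤
        C * G ^ 2 * (y ^ m * (L1 K m J (S * y) t).toReal +
          Fintype.card (Ty K 𝔪) * (y ^ m * (L1 K m (𝔪 * J) (S * y) t).toReal +
            (y ^ m / VJ K (𝔪 * J)) ^ 2 * (L2 K m J' (y / n) t).toReal)) := by
  classical
  obtain ⟨CT, S, hCT, hS, hT⟩ := fs_good m k (by omega)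
  obtain ⟨CP, hCP, hP⟩ := pointC m hm k hk S hS
  have hSm : 1 ≤ S ^ m := one_le_pow₀ hS
  refine ⟨CP * CT ^ 2 * S ^ m, 2 * S, by positivity, by linarith, ?_⟩
  intro K _ _ hK 𝔪 J J' n hcop hn hdual G g hg hg0 y hy t hL1 hL1' hL2
  obtain ⟨B, hB, hcov⟩ := lat_basis m K hK (𝔪 * J) t
  have hfin : FiniteDimensional ℝ (euclidean.mixedSpace K) := inferInstance
  set e := euclidean.toMixed K with he
  have hcov' : cov B = VJ K (𝔪 * J) := hcov
  have hnR : (0 : ℝ) < n := by exact_mod_cast hn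
  set s₁ : ℝ := y ^ m * (L1 K m (𝔪 * J) (2 * S * y) t).toReal with hs₁
  set s₂ : ℝ := (L2 K m J' (y / n) t).toReal with hs₂
  set V := VJ K (𝔪 * J) with hV
  have hs₁0 : 0 ≤ s₁ := by positivity
  have hs₂0 : 0 ≤ s₂ := ENNReal.toReal_nonneg
  have key : ∀ β : Ty K 𝔪, |(TT K 𝔪 J β g y t).toReal -
      y ^ m / V * (IPhi K g / 2 ^ nrRealPlaces K)| ^ 2 ≤
      CP * (CT * G) ^ 2 * (nb K 𝔪 J β t (S * y) * (1 + s₁) + (y ^ m / V) ^ 2 * s₂) := by
    intro β
    obtain ⟨a, ha, hau⟩ := exists_rep hcop (β.1 : 𝓞 K ⧸ (𝔪 : Ideal (𝓞 K)))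
    have hgood := hT K hK G g hg β.2
    have hnb0 : 0 ≤ nb K 𝔪 J β t (S * y) := by unfold nb; split_ifs <;> norm_num
    have key := hP (euclidean.mixedSpace K) B (CT * G) _ hgood
      (e.symm (sg K t * mixedEmbedding K (a : K))) y (nb K 𝔪 J β t (S * y)) s₁ s₂ hy hnb0 hs₁0
      (by
        rintro ⟨x, hx, hne⟩
        obtain ⟨b, hb, rfl⟩ := (hB x).mp hx
        have h2 : e (y⁻¹ • (e.symm (sg K t * mixedEmbedding K (b : K)) +
            e.symm (sg K t * mixedEmbedding K (a : K)))) =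
            y⁻¹ • (sg K t * mixedEmbedding K ((b + a : 𝓞 K) : K)) := by
          rw [map_smul, map_add, ContinuousLinearEquiv.apply_symm_apply,
            ContinuousLinearEquiv.apply_symm_apply]
          push_cast
          rw [map_add, mul_add]
        have hlt : ‖y⁻¹ • (e.symm (sg K t * mixedEmbedding K (b : K)) +
            e.symm (sg K t * mixedEmbedding K (a : K)))‖ < S := by
          by_contra h3
          exact hne (hgood.2.2 _ (not_lt.mp h3))
        unfold FS at hne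
        rw [h2] at hne
        have hsg : isSg K β.2 (y⁻¹ • (sg K t * mixedEmbedding K ((b + a : 𝓞 K) : K))) := by
          by_contra h3
          rw [if_neg h3] at hne
          exact hne rfl
        rw [if_pos hsg] at hne
        rw [isSg_scale K _ _ _ hy] at hsg
        have hbm := (mem_mul_iff hcop b).mp hb
        have hty : isTy K 𝔪 β (b + a) := by
          refine ⟨?_, hsg⟩
          rw [map_add, hau, Ideal.Quotient.eq_zero_iff_mem.mpr hbm.1, zero_add]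
        have hne0 : b + a ≠ 0 := by
          intro h3
          apply hne
          rw [h3]
          simp only [ZeroMemClass.coe_zero, map_zero, mul_zero, smul_zero]
          exact PhiS_zero K hg
        unfold nb
        rw [if_pos]
        refine ⟨⟨b + a, add_mem hbm.2 ha, hne0⟩, hty, ?_⟩
        rw [en_eq]
        have h4 : (euclidean.toMixed K).symm (sg K t * mixedEmbedding K ((b + a : 𝓞 K) : K)) =
            e.symm (sg K t * mixedEmbedding K (b : K)) +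
            e.symm (sg K t * mixedEmbedding K (a : K)) := by
          rw [← map_add, ← mul_add, ← map_add]
          push_cast
          rfl
        change ‖(euclidean.toMixed K).symm (sg K t * mixedEmbedding K ((b + a : 𝓞 K) : K))‖ ≤ _
        rw [h4]
        rw [_root_.norm_smul, Real.norm_eq_abs, abs_of_pos (inv_pos.mpr hy), inv_mul_lt_iff₀ hy] at hlt
        linarith [hlt])
      (by
        intro x hx hx0 hxS
        obtain ⟨a, ha, rfl⟩ := (hB x).mp hx
        have ha0 : a ≠ 0 := by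
          rintro rfl
          apply hx0
          simp
        rw [← en_eq] at hxS ⊢
        have h1 : ENNReal.ofReal ((en K (sg K t * mixedEmbedding K (a : K)))⁻¹ ^ m) ≤
            L1 K m (𝔪 * J) (2 * S * y) t := by
          unfold L1
          refine le_trans (le_of_eq ?_) (ENNReal.le_tsum (⟨a, ha, ha0⟩ : NZ K (𝔪 * J)))
          rw [if_pos hxS]
        have h2 := (ENNReal.ofReal_le_iff_le_toReal hL1'.ne).mp h1
        rw [div_eq_mul_inv, mul_pow]
        exact mul_le_mul_of_nonneg_left h2 (by positivity))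
      (by
        intro ξ hξ hd
        obtain ⟨b, hb⟩ := hdual t ξ hξ (fun x hx => hd _ ((hB _).mpr ⟨x, hx, rfl⟩))
        have h1 : ENNReal.ofReal (hh m (y / n * en K (sg K (-t) * mixedEmbedding K ((b : 𝓞 K) : K)))) ≤
            L2 K m J' (y / n) t := by
          unfold L2
          exact ENNReal.le_tsum b
        have h2 := (ENNReal.ofReal_le_iff_le_toReal hL2.ne).mp h1
        refine le_trans ?_ h2
        have h3 : 0 < en K (sg K (-t) * mixedEmbedding K ((b : 𝓞 K) : K)) :=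
          en_pos K _ (sg_ne (-t) b.2.2)
        refine hh_anti m (by positivity) ?_
        calc y / n * en K (sg K (-t) * mixedEmbedding K ((b : 𝓞 K) : K)) ≤ y / n * (n * ‖ξ‖) :=
              mul_le_mul_of_nonneg_left hb (by positivity)
          _ = y * ‖ξ‖ := by field_simp)
    have hsum : ∑' x : Submodule.span ℤ (Set.range B), FS K g β.2 (y⁻¹ •
        ((x : euclidean.mixedSpace K) + e.symm (sg K t * mixedEmbedding K (a : K)))) =
        (TT K 𝔪 J β g y t).toReal := by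
      rw [toReal_TT hg hg0 hcop β a ha hau hy t]
      let φ : ((𝔪 * J : (Ideal (𝓞 K))⁰) : Ideal (𝓞 K)) → Submodule.span ℤ (Set.range B) := fun a =>
        ⟨e.symm (sg K t * mixedEmbedding K ((a : 𝓞 K) : K)), (hB _).mpr ⟨a.1, a.2, rfl⟩⟩
      have hφ : Function.Bijective φ := by
        constructor
        · intro a b hab
          have h1 : e.symm (sg K t * mixedEmbedding K ((a : 𝓞 K) : K)) =
              e.symm (sg K t * mixedEmbedding K ((b : 𝓞 K) : K)) := congrArg Subtype.val hab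
          have h2 := e.symm.injective h1
          by_contra hne'
          have h3 : ((a : 𝓞 K) - (b : 𝓞 K)) ≠ 0 := fun h => hne' (Subtype.ext (sub_eq_zero.mp h))
          apply sg_ne t h3
          push_cast
          rw [map_sub, mul_sub, h2, sub_self]
        · intro x
          obtain ⟨a, ha, hxa⟩ := (hB x).mp x.2
          exact ⟨⟨a, ha⟩, Subtype.ext hxa.symm⟩
      rw [← (Equiv.ofBijective φ hφ).tsum_eq]
      rfl
    rw [hsum, hcov', fs_integral K k G g hg β.2] at key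
    exact key
  refine (Finset.sum_le_sum fun β _ => key β).trans ?_
  rw [← Finset.mul_sum, Finset.sum_add_distrib, ← Finset.sum_mul, Finset.sum_const,
    Finset.card_univ, nsmul_eq_mul]
  have hn1 : ∑ β : Ty K 𝔪, nb K 𝔪 J β t (S * y) ≤
      (S * y) ^ m * (L1 K m J (2 * S * y) t).toReal :=
    sum_nb_le m 𝔪 J t (by positivity) (by nlinarith) hL1
  have hn2 : ∑ β : Ty K 𝔪, nb K 𝔪 J β t (S * y) ≤ Fintype.card (Ty K 𝔪) := by
    refine (Finset.sum_le_sum (g := fun _ => (1 : ℝ)) fun β _ => ?_).trans (le_of_eq (by simp))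
    unfold nb
    split_ifs <;> norm_num
  set N := ∑ β : Ty K 𝔪, nb K 𝔪 J β t (S * y) with hN
  set c : ℝ := (Fintype.card (Ty K 𝔪) : ℝ) with hc
  have hc0 : 0 ≤ c := Nat.cast_nonneg _
  set l := (L1 K m J (2 * S * y) t).toReal with hl
  have hl0 : 0 ≤ l := ENNReal.toReal_nonneg
  have h1 : N * (1 + s₁) + c * ((y ^ m / V) ^ 2 * s₂) ≤
      S ^ m * (y ^ m * l + c * (s₁ + (y ^ m / V) ^ 2 * s₂)) := by
    have h2 : N * s₁ ≤ c * s₁ := mul_le_mul_of_nonneg_right hn2 hs₁0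
    have h3 : c * s₁ ≤ S ^ m * (c * s₁) := le_mul_of_one_le_left (by positivity) hSm
    have h4 : c * ((y ^ m / V) ^ 2 * s₂) ≤ S ^ m * (c * ((y ^ m / V) ^ 2 * s₂)) :=
      le_mul_of_one_le_left (by positivity) hSm
    rw [mul_pow] at hn1
    nlinarith
  calc CP * (CT * G) ^ 2 * (N * (1 + s₁) + c * ((y ^ m / V) ^ 2 * s₂))
      ≤ CP * (CT * G) ^ 2 * (S ^ m * (y ^ m * l + c * (s₁ + (y ^ m / V) ^ 2 * s₂))) :=
        mul_le_mul_of_nonneg_left h1 (by positivity)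
    _ = _ := by ring

end Pool.RC
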