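import Pool.Agent.RC.KeyT
import Pool.Agent.RC.Decomp
import Pool.Agent.HDZ.TestIntS

/-!
# Module RAYLS: the two inequalities of the density machine for the ray class characters

PAPER PROOF. Fix `K`, `𝔪`, representatives `J` (`exists_reps`), `Q = √D N𝔪`, `D = DK K`, `H = h RK N𝔪`, `w = torsionOrder K`, `RK = regulator / w`, `P = h card (Ty K 𝔪) ≤ 2^m h N𝔪`
(`card_Ty_le`). `test_int m` (`Pool/Agent/HDZ/TestIntS.lean`) gives `c > 0` (depending on `m`) and `cK ≥ c` with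
`∫⁻ ofReal (PhiS K g (sg t x)) = ofReal (cK * g (norm x ^ 2))` for all `g ≥ 0`; with `g = 1` this is the hypothesis `hint` of `decomp`, `qw_lt_top`.

`EE` of a real function: for `g ≥ 0` nice, `E_p (g) := (∫⁻ TT …).toReal` equals `EE K 𝔪 (J A) A Z β (fun I => g ((nm K I/Z)^2))` (as a complex number; `regroup`, `qw_lt_top`, finite support
`finite_Cls`/`summable_g`). For `c` with `‖c I‖ ≤ g ((nm K I/Z)^2)` we get `‖EE (c)‖ ≤ E_p (g)` (`qw ≥ 0`).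

`ray_LSI`: given `x ≥ 1` and `c`, let `Z = max 1 (2x/3)`, `g = g0` (`Pool/Agent/HDZ/Mean.lean`: `g0 = 1` on `[3/2,10]`, `g0_nice`); `c I ≠ 0` implies `(nm/Z)^2 ∈ [3/2,10]` (see `class_count` in
`Pool/Agent/HDZ/HR.lean`). By `decomp` and `bessel_vv`
`(w cK)² ∑_χ ‖∑' c χ‖² ≤ P ∑_p ‖EE_p (c)‖² ≤ P ∑_p E_p (g0)² ≤ 2 P ∑_p |E_p - MT|² + 2 P² MT²`. `type_mean` bounds the first sum by `C regulator w (Q Z)^ε Z`; and
`|MT| ≤ C regulator Z / Q` (`iphi_bound`, `VJ K 𝔪 = 2^{-r₂} Q`). Divide by `(w cK)² ≥ (w c)²`: the first term is `≤ C P RK (Q Z)^ε Z ≤ C H (Q x)^ε x`, the second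
`≤ C (P RK)² Z²/Q² ≤ C H² x²/Q² = C H (H/Q) x²/Q` and `H/Q = h RK/√D ≤ C D^{ε/2}` (`Pool.HDZ.hR_le` with `ε/2`), `D^{ε/2} ≤ Q^ε ≤ (Q x)^ε` (`D ≤ Q²`).

`ray_LSII`: for `g ≥ 0` real with `NiceS k G g`: `decomp`, `sum_vv` (subtract the constant `MT`), `bessel_vv`, `type_mean`:
`(w cK)² ∑_χ ‖∑' χ g‖² ≤ P ∑_p |E_p - MT|² ≤ P C G² regulator w (Q Z)^ε Z`. For complex `g` with `NiceI k G g` use
`g = (Re g + G g0) - G g0 + i (Im g + G g0) - i G g0` (`nice_add`, `nice_smul`, `niceI_comp`, `NiceI.bound` in `Pool/Agent/HDZ/Mean.lean`; all four functions are `≥ 0` and `NiceS` with constant `C G`) and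
`‖a + b + c + d‖² ≤ 4 (‖a‖² + …)`. (`DM.LSI`, `DM.LSII` are defined in `Pool/Agent/DM/Defs.lean`; compare `Pool/Agent/DM/ClassLS.lean`.)
-/

open scoped NumberField nonZeroDivisors ENNReal
open NumberField NumberField.InfinitePlace NumberField.mixedEmbedding NumberField.Units
  NumberField.Units.dirichletUnitTheorem MeasureTheory Pool.ZD Pool.HDZ Pool.DM

namespace Pool.RC

namespace RayAux

open Pool.HDZ.MeanAux

section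

variable (K : Type) [Field K] [NumberField K] (𝔪 : (Ideal (𝓞 K))⁰)

theorem supp_le {V : Type} [NormedAddCommGroup V] {g : ℝ → V}
    (h0 : ∀ u, (u ≤ 1 ∨ 16 ≤ u) → g u = 0) (Z : ℝ) (hZ : 0 < Z) (I : (Ideal (𝓞 K))⁰)
    (hI : g ((nm K I / Z) ^ 2) ≠ 0) : nm K I ≤ 4 * Z := by
  by_contra h
  apply hI
  refine h0 _ (Or.inr ?_)
  have h1 : 4 ≤ nm K I / Z := by
    rw [le_div_iff₀ hZ]
    exact (not_le.mp h).le
  nlinarith

theorem fin_supp {V : Type} [NormedAddCommGroup V] {g : ℝ → V}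
    (h0 : ∀ u, (u ≤ 1 ∨ 16 ≤ u) → g u = 0) (Z : ℝ) (hZ : 0 < Z) :
    {I : (Ideal (𝓞 K))⁰ | g ((nm K I / Z) ^ 2) ≠ 0}.Finite :=
  (finite_le K (4 * Z)).subset fun I hI => supp_le K h0 Z hZ I hI

theorem summ (χ : DM.Mul K) {g : ℝ → ℂ} (h0 : ∀ u, (u ≤ 1 ∨ 16 ≤ u) → g u = 0) (Z : ℝ)
    (hZ : 0 < Z) : Summable (fun I : (Ideal (𝓞 K))⁰ => χ I * g ((nm K I / Z) ^ 2)) := by
  refine summable_of_hasFiniteSupport ((fin_supp K h0 Z hZ).subset ?_)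
  intro I hI
  rw [Function.mem_support] at hI
  intro h
  exact hI (by rw [h, mul_zero])

open scoped Classical in
theorem E_eq (J : (Ideal (𝓞 K))⁰) (A : ClassGroup (𝓞 K)) (hJ : ClassGroup.mk0 J = A⁻¹)
    (hJc : Cop K 𝔪 J) (cK : ℝ)
    (hint : ∀ x : mixedSpace K, mixedEmbedding.norm x ≠ 0 →
      ∫⁻ t : logSpace K, ENNReal.ofReal (PhiS K (fun _ => 1) (sg K t * x)) = ENNReal.ofReal cK)
    (g : ℝ → ℝ) (hg : ∀ u, 0 ≤ g u) (Z : ℝ) (hZ : 0 < Z) (β : Ty K 𝔪) :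
    (∫⁻ t in FD K, TT K 𝔪 J β g (yy K J Z) t).toReal =
      ∑' I : Cls K A, g ((nm K I / Z) ^ 2) * (qw K 𝔪 J Z β I).toReal := by
  rw [regroup K 𝔪 J A hJ g hg Z hZ β, ENNReal.tsum_toReal_eq]
  · refine tsum_congr fun I => ?_
    rw [ENNReal.toReal_mul, ENNReal.toReal_ofReal (hg _)]
  · intro I
    exact ENNReal.mul_ne_top ENNReal.ofReal_ne_top
      (qw_lt_top K 𝔪 J A hJ hJc cK hint Z hZ β I).ne

open scoped Classical in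
theorem EE_eq (J : (Ideal (𝓞 K))⁰) (A : ClassGroup (𝓞 K)) (hJ : ClassGroup.mk0 J = A⁻¹)
    (hJc : Cop K 𝔪 J) (cK : ℝ)
    (hint : ∀ x : mixedSpace K, mixedEmbedding.norm x ≠ 0 →
      ∫⁻ t : logSpace K, ENNReal.ofReal (PhiS K (fun _ => 1) (sg K t * x)) = ENNReal.ofReal cK)
    (g : ℝ → ℝ) (hg : ∀ u, 0 ≤ g u) (Z : ℝ) (hZ : 0 < Z) (β : Ty K 𝔪) :
    EE K 𝔪 J A Z β (fun I => (g ((nm K I / Z) ^ 2) : ℂ)) =
      (((∫⁻ t in FD K, TT K 𝔪 J β g (yy K J Z) t).toReal : ℝ) : ℂ) := by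
  rw [E_eq K 𝔪 J A hJ hJc cK hint g hg Z hZ β, Complex.ofReal_tsum]
  unfold EE
  refine tsum_congr fun I => ?_
  push_cast
  rfl

open scoped Classical in
theorem EE_le (J : (Ideal (𝓞 K))⁰) (A : ClassGroup (𝓞 K)) (hJ : ClassGroup.mk0 J = A⁻¹)
    (hJc : Cop K 𝔪 J) (cK : ℝ)
    (hint : ∀ x : mixedSpace K, mixedEmbedding.norm x ≠ 0 →
      ∫⁻ t : logSpace K, ENNReal.ofReal (PhiS K (fun _ => 1) (sg K t * x)) = ENNReal.ofReal cK)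
    (g : ℝ → ℝ) (hg : ∀ u, 0 ≤ g u) (h0 : ∀ u, (u ≤ 1 ∨ 16 ≤ u) → g u = 0)
    (Z : ℝ) (hZ : 0 < Z) (β : Ty K 𝔪) (c : (Ideal (𝓞 K))⁰ → ℂ)
    (hc : ∀ I, ‖c I‖ ≤ g ((nm K I / Z) ^ 2)) :
    ‖EE K 𝔪 J A Z β c‖ ≤ (∫⁻ t in FD K, TT K 𝔪 J β g (yy K J Z) t).toReal := by
  rw [E_eq K 𝔪 J A hJ hJc cK hint g hg Z hZ β]
  unfold EE
  have hsum : Summable (fun I : Cls K A => g ((nm K I / Z) ^ 2) * (qw K 𝔪 J Z β I).toReal) := by
    refine summable_of_hasFiniteSupport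
      (((fin_supp K h0 Z hZ).preimage Subtype.coe_injective.injOn).subset ?_)
    intro I hI
    rw [Function.mem_support] at hI
    intro h
    exact hI (by rw [h, zero_mul])
  refine tsum_of_norm_bounded hsum.hasSum ?_
  intro I
  rw [norm_mul, Complex.norm_real, Real.norm_eq_abs, abs_of_nonneg ENNReal.toReal_nonneg]
  exact mul_le_mul_of_nonneg_right (hc _) ENNReal.toReal_nonneg

open scoped Classical in
/-- `decomp` and Bessel's inequality. -/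
theorem bess (J : ClassGroup (𝓞 K) → (Ideal (𝓞 K))⁰) (hJ : Reps K 𝔪 J) (cK : ℝ) (hc : 0 ≤ cK)
    (hint : ∀ x : mixedSpace K, mixedEmbedding.norm x ≠ 0 →
      ∫⁻ t : logSpace K, ENNReal.ofReal (PhiS K (fun _ => 1) (sg K t * x)) = ENNReal.ofReal cK)
    (F : Finset (DM.Mul K)) (hF : ∀ χ ∈ F, IsRay K 𝔪 χ) (Z : ℝ) (hZ : 0 < Z)
    (c : (Ideal (𝓞 K))⁰ → ℂ) (hfin : {I | c I ≠ 0}.Finite) (a : ℂ)
    (ha : a = 0 ∨ ∀ χ ∈ F, ¬ IsPrin K 𝔪 χ) :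
    (torsionOrder K * cK) ^ 2 * ∑ χ ∈ F, ‖∑' I, c I * χ I‖ ^ 2 ≤
      (classNumber K * Fintype.card (Ty K 𝔪)) *
        ∑ p : ClassGroup (𝓞 K) × Ty K 𝔪, ‖EE K 𝔪 (J p.1) p.1 Z p.2 c - a‖ ^ 2 := by
  have h1 : (torsionOrder K * cK) ^ 2 * ∑ χ ∈ F, ‖∑' I, c I * χ I‖ ^ 2 =
      ∑ χ ∈ F, ‖∑ p : ClassGroup (𝓞 K) × Ty K 𝔪, vv K 𝔪 J χ p *
        (EE K 𝔪 (J p.1) p.1 Z p.2 c - a)‖ ^ 2 := by
    rw [Finset.mul_sum]
    refine Finset.sum_congr rfl fun χ hχ => ?_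
    have h2 : ∑ p : ClassGroup (𝓞 K) × Ty K 𝔪, vv K 𝔪 J χ p *
        (EE K 𝔪 (J p.1) p.1 Z p.2 c - a) = (torsionOrder K * cK : ℂ) * ∑' I, c I * χ I := by
      rw [decomp K 𝔪 J hJ cK hc hint χ (hF χ hχ) Z hZ c hfin]
      have h3 : ∑ p : ClassGroup (𝓞 K) × Ty K 𝔪, vv K 𝔪 J χ p *
          (EE K 𝔪 (J p.1) p.1 Z p.2 c - a) =
          ∑ p : ClassGroup (𝓞 K) × Ty K 𝔪, vv K 𝔪 J χ p * EE K 𝔪 (J p.1) p.1 Z p.2 c -
            (∑ p : ClassGroup (𝓞 K) × Ty K 𝔪, vv K 𝔪 J χ p) * a := by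
        rw [Finset.sum_mul, ← Finset.sum_sub_distrib]
        exact Finset.sum_congr rfl fun p _ => by ring
      rw [h3]
      rcases ha with h | h
      · rw [h, mul_zero, sub_zero]
      · rw [sum_vv K 𝔪 J hJ χ (hF χ hχ) (h χ hχ), zero_mul, sub_zero]
    have h4 : ‖(torsionOrder K * cK : ℂ)‖ = torsionOrder K * cK := by
      rw [norm_mul, Complex.norm_natCast, Complex.norm_real, Real.norm_eq_abs, abs_of_nonneg hc]
    rw [h2, norm_mul, h4]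
    ring
  rw [h1]
  exact bessel_vv K 𝔪 J hJ F hF _

theorem one_le_nm' (I : (Ideal (𝓞 K))⁰) : 1 ≤ nm K I := by
  have h : Ideal.absNorm (I : Ideal (𝓞 K)) ≠ 0 := by
    rw [Ne, Ideal.absNorm_eq_zero_iff]
    exact nonZeroDivisors.coe_ne_zero I
  have h2 : 1 ≤ Ideal.absNorm (I : Ideal (𝓞 K)) := Nat.one_le_iff_ne_zero.mpr h
  unfold nm
  exact_mod_cast h2

theorem reg_eq : regulator K = RK K * torsionOrder K := by
  have h : (torsionOrder K : ℝ) ≠ 0 := by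
    exact_mod_cast (torsionOrder_pos K).ne'
  unfold RK
  field_simp

theorem MT_le {m : ℕ} (hK : Module.finrank ℚ K = m) (g : ℝ → ℝ) (Z B : ℝ) (hZ : 0 ≤ Z)
    (hB : |IPhi K g| ≤ B) : |MT K 𝔪 g Z| ≤
      RK K * torsionOrder K * Z * B * 2 ^ m / (Real.sqrt (DK K) * nm K 𝔪) := by
  have hD : 1 ≤ DK K := HRaux.one_le_DK K
  have hs : 0 < Real.sqrt (DK K) := Real.sqrt_pos.mpr (by linarith)
  have hN : 0 < nm K 𝔪 := by linarith [one_le_nm' K 𝔪]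
  have hB0 : 0 ≤ B := (abs_nonneg _).trans hB
  have hr2 : nrComplexPlaces K ≤ m := by
    have h1 := card_add_two_mul_card_eq_rank K
    omega
  unfold MT VJ
  rw [abs_div, abs_mul, abs_mul, abs_of_pos (regulator_pos K), abs_of_nonneg hZ, ← reg_eq]
  have h1 : |(1 / 2 : ℝ) ^ nrComplexPlaces K * Real.sqrt (DK K) * nm K 𝔪 * 2 ^ nrRealPlaces K| =
      (1 / 2 : ℝ) ^ nrComplexPlaces K * Real.sqrt (DK K) * nm K 𝔪 * 2 ^ nrRealPlaces K :=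
    abs_of_pos (by positivity)
  rw [h1, div_le_div_iff₀ (by positivity) (by positivity)]
  have h2 : (1 : ℝ) ≤ 2 ^ m * ((1 / 2 : ℝ) ^ nrComplexPlaces K * 2 ^ nrRealPlaces K) := by
    have h3 : (1 : ℝ) ≤ 2 ^ m * (1 / 2 : ℝ) ^ nrComplexPlaces K := by
      rw [one_div, inv_pow, ← div_eq_mul_inv, one_le_div (by positivity)]
      exact pow_le_pow_right₀ (by norm_num) hr2
    have h4 : (1 : ℝ) ≤ 2 ^ nrRealPlaces K := one_le_pow₀ (by norm_num)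
    nlinarith
  have hreg := regulator_pos K
  have h5 : regulator K * Z * |IPhi K g| ≤ regulator K * Z * B :=
    mul_le_mul_of_nonneg_left hB (by positivity)
  calc regulator K * Z * |IPhi K g| * (Real.sqrt (DK K) * nm K 𝔪)
      ≤ regulator K * Z * B * (Real.sqrt (DK K) * nm K 𝔪) :=
        mul_le_mul_of_nonneg_right h5 (by positivity)
    _ ≤ regulator K * Z * B * (Real.sqrt (DK K) * nm K 𝔪) *
        (2 ^ m * ((1 / 2 : ℝ) ^ nrComplexPlaces K * 2 ^ nrRealPlaces K)) := by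
        refine le_mul_of_one_le_right (by positivity) h2
    _ = _ := by ring

theorem rpow_half {ε : ℝ} (hε : 0 < ε) {x : ℝ} (hx : 1 ≤ x) :
    DK K ^ (1 / 2 + ε / 2) ≤ Real.sqrt (DK K) * (Real.sqrt (DK K) * nm K 𝔪 * x) ^ ε := by
  have hD : 1 ≤ DK K := HRaux.one_le_DK K
  have hDpos : 0 < DK K := by linarith
  have hN := one_le_nm' K 𝔪
  have hs : 0 < Real.sqrt (DK K) := Real.sqrt_pos.mpr (by linarith)
  rw [Real.rpow_add hDpos, ← Real.sqrt_eq_rpow]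
  refine mul_le_mul_of_nonneg_left ?_ hs.le
  have h1 : DK K ^ (ε / 2) = Real.sqrt (DK K) ^ ε := by
    rw [Real.sqrt_eq_rpow, ← Real.rpow_mul hDpos.le]
    congr 1
    ring
  rw [h1]
  refine Real.rpow_le_rpow hs.le ?_ hε.le
  have h2 : 1 ≤ nm K 𝔪 * x := one_le_mul_of_one_le_of_one_le hN hx
  rw [mul_assoc]
  exact le_mul_of_one_le_right hs.le h2

end

theorem final1 {c cK w r N s Q h P T mt x Z X Y S CT Cg CI C3 M : ℝ}
    (hc : 0 < c) (hcK : c ≤ cK) (hw : 0 < w) (hr : 0 ≤ r) (hN : 0 < N) (hs : 0 < s)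
    (hQ : Q = s * N) (hh : 0 ≤ h) (hM : 0 ≤ M) (hP : 0 ≤ P) (hPle : P ≤ M * h * N)
    (hCT : 0 ≤ CT) (hCg : 0 ≤ Cg) (hCI : 0 ≤ CI) (hC3 : 0 ≤ C3)
    (hT : T ≤ CT * Cg ^ 2 * (r * w * w) * Y * Z)
    (hmt : |mt| ≤ r * w * Z * (CI * Cg) * M / Q)
    (hZ0 : 0 ≤ Z) (hZx : Z ≤ x) (hY0 : 0 ≤ Y) (hYX : Y ≤ X) (hR : h * r ≤ C3 * (s * X))
    (hS0 : 0 ≤ S) (hS : (w * cK) ^ 2 * S ≤ P * (2 * T + 2 * (P * mt ^ 2))) :
    S ≤ ((2 * M * CT * Cg ^ 2 + 2 * M ^ 4 * CI ^ 2 * Cg ^ 2 * C3) / c ^ 2) * (h * r * N) * X *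
      (x + x ^ 2 / Q) := by
  have hX0 : 0 ≤ X := hY0.trans hYX
  have hx0 : 0 ≤ x := hZ0.trans hZx
  have hQ0 : 0 < Q := by rw [hQ]; positivity
  have h1 : (w * c) ^ 2 * S ≤ (w * cK) ^ 2 * S := by
    refine mul_le_mul_of_nonneg_right ?_ hS0
    refine pow_le_pow_left₀ (by positivity) ?_ 2
    exact mul_le_mul_of_nonneg_left hcK hw.le
  have hT' : T ≤ CT * Cg ^ 2 * (r * w * w) * X * x := by
    refine hT.trans ?_
    gcongr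
  have h2 : P * (2 * T) ≤ (M * h * N) * (2 * (CT * Cg ^ 2 * (r * w * w) * X * x)) := by
    calc P * (2 * T) ≤ P * (2 * (CT * Cg ^ 2 * (r * w * w) * X * x)) := by gcongr
      _ ≤ _ := by gcongr
  have hmt' : |mt| ≤ r * w * x * (CI * Cg) * M / Q := by
    refine hmt.trans ?_
    gcongr
  have h3 : P * (2 * (P * mt ^ 2)) ≤ 2 * ((M * h * N) * (r * w * x * (CI * Cg) * M / Q)) ^ 2 := by
    have h4 : P * (2 * (P * mt ^ 2)) = 2 * (P * |mt|) ^ 2 := by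
      rw [mul_pow, sq_abs]
      ring
    rw [h4]
    gcongr
  have h5 : h * r / s ≤ C3 * X := by
    rw [div_le_iff₀ hs]
    linarith
  have h4 : ((M * h * N) * (r * w * x * (CI * Cg) * M / Q)) ^ 2 =
      w ^ 2 * ((M ^ 4 * CI ^ 2 * Cg ^ 2) * (h * r * N) * (h * r / s) * (x ^ 2 / Q)) := by
    rw [hQ]
    field_simp
  have h6 : (M ^ 4 * CI ^ 2 * Cg ^ 2) * (h * r * N) * (h * r / s) * (x ^ 2 / Q) ≤
      (M ^ 4 * CI ^ 2 * Cg ^ 2) * (h * r * N) * (C3 * X) * (x ^ 2 / Q) := by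
    gcongr
  have h7 : w ^ 2 * (c ^ 2 * S) ≤ w ^ 2 * (2 * M * CT * Cg ^ 2 * (h * r * N) * X * x +
      2 * (M ^ 4 * CI ^ 2 * Cg ^ 2) * (h * r * N) * (C3 * X) * (x ^ 2 / Q)) := by
    rw [h4] at h3
    have h8 : w ^ 2 * ((M ^ 4 * CI ^ 2 * Cg ^ 2) * (h * r * N) * (h * r / s) * (x ^ 2 / Q)) ≤
      w ^ 2 * ((M ^ 4 * CI ^ 2 * Cg ^ 2) * (h * r * N) * (C3 * X) * (x ^ 2 / Q)) :=
      mul_le_mul_of_nonneg_left h6 (by positivity)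
    have e1 : P * (2 * T + 2 * (P * mt ^ 2)) = P * (2 * T) + P * (2 * (P * mt ^ 2)) := by ring
    have e2 : (w * c) ^ 2 * S = w ^ 2 * (c ^ 2 * S) := by ring
    have e3 : (M * h * N) * (2 * (CT * Cg ^ 2 * (r * w * w) * X * x)) =
      w ^ 2 * (2 * M * CT * Cg ^ 2 * (h * r * N) * X * x) := by ring
    rw [e1] at hS
    rw [e2] at h1
    rw [e3] at h2
    have e4 : w ^ 2 * (2 * M * CT * Cg ^ 2 * (h * r * N) * X * x +
      2 * (M ^ 4 * CI ^ 2 * Cg ^ 2) * (h * r * N) * (C3 * X) * (x ^ 2 / Q)) =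
      w ^ 2 * (2 * M * CT * Cg ^ 2 * (h * r * N) * X * x) +
      2 * (w ^ 2 * ((M ^ 4 * CI ^ 2 * Cg ^ 2) * (h * r * N) * (C3 * X) * (x ^ 2 / Q))) := by ring
    rw [e4]
    linarith
  have h9 := le_of_mul_le_mul_left h7 (by positivity)
  have h10 : S ≤ (2 * M * CT * Cg ^ 2 * (h * r * N) * X * x +
      2 * (M ^ 4 * CI ^ 2 * Cg ^ 2) * (h * r * N) * (C3 * X) * (x ^ 2 / Q)) / c ^ 2 := by
    rw [le_div_iff₀ (by positivity)]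
    linarith
  refine h10.trans ?_
  rw [div_mul_eq_mul_div, div_mul_eq_mul_div, div_mul_eq_mul_div]
  refine div_le_div_of_nonneg_right ?_ (by positivity)
  have q1 : 0 ≤ 2 * M * CT * Cg ^ 2 * (h * r * N) * X * (x ^ 2 / Q) := by positivity
  have q2 : 0 ≤ 2 * M ^ 4 * CI ^ 2 * Cg ^ 2 * C3 * (h * r * N) * X * x := by positivity
  nlinarith

theorem final2 {c cK w r N h P T Z Y S CT G M : ℝ}
    (hc : 0 < c) (hcK : c ≤ cK) (hw : 0 < w) (hr : 0 ≤ r)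
    (hP : 0 ≤ P) (hPle : P ≤ M * h * N) (hCT : 0 ≤ CT)
    (hT : T ≤ CT * G ^ 2 * (r * w * w) * Y * Z)
    (hZ0 : 0 ≤ Z) (hY0 : 0 ≤ Y)
    (hS0 : 0 ≤ S) (hS : (w * cK) ^ 2 * S ≤ P * T) :
    S ≤ (M * CT / c ^ 2) * (h * r * N) * G ^ 2 * Z * Y := by
  have h1 : (w * c) ^ 2 * S ≤ (w * cK) ^ 2 * S := by
    refine mul_le_mul_of_nonneg_right ?_ hS0
    refine pow_le_pow_left₀ (by positivity) ?_ 2
    exact mul_le_mul_of_nonneg_left hcK hw.le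
  have h2 : P * T ≤ (M * h * N) * (CT * G ^ 2 * (r * w * w) * Y * Z) := by
    calc P * T ≤ P * (CT * G ^ 2 * (r * w * w) * Y * Z) := by gcongr
      _ ≤ _ := by gcongr
  have h7 : w ^ 2 * (c ^ 2 * S) ≤ w ^ 2 * (M * CT * (h * r * N) * G ^ 2 * Z * Y) := by
    have e2 : (w * c) ^ 2 * S = w ^ 2 * (c ^ 2 * S) := by ring
    have e3 : (M * h * N) * (CT * G ^ 2 * (r * w * w) * Y * Z) =
      w ^ 2 * (M * CT * (h * r * N) * G ^ 2 * Z * Y) := by ring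
    rw [← e2, ← e3]
    exact h1.trans (hS.trans h2)
  have h9 := le_of_mul_le_mul_left h7 (by positivity)
  have h10 : S ≤ (M * CT * (h * r * N) * G ^ 2 * Z * Y) / c ^ 2 := by
    rw [le_div_iff₀ (by positivity)]
    linarith
  refine h10.trans (le_of_eq ?_)
  ring

open scoped Classical in
theorem hint_one {K : Type} [Field K] [NumberField K] {cK : ℝ}
    (h : ∀ (g : ℝ → ℝ), (∀ u, 0 ≤ g u) →
      ∀ x : mixedSpace K, mixedEmbedding.norm x ≠ 0 →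
      ∫⁻ t : logSpace K, ENNReal.ofReal (PhiS K g (sg K t * x)) =
        ENNReal.ofReal (cK * g (mixedEmbedding.norm x ^ 2))) :
    ∀ x : mixedSpace K, mixedEmbedding.norm x ≠ 0 →
      ∫⁻ t : logSpace K, ENNReal.ofReal (PhiS K (fun _ => 1) (sg K t * x)) =
        ENNReal.ofReal cK := by
  intro x hx
  have h1 := h (fun _ => 1) (fun _ => zero_le_one) x hx
  rw [mul_one] at h1
  exact h1

end RayAux

open RayAux Pool.HDZ.MeanAux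

theorem ray_LSI (m : ℕ) (hm : 2 ≤ m) (ε : ℝ) (hε : 0 < ε) : ∃ C : ℝ, 0 < C ∧
    ∀ (K : Type) [Field K] [NumberField K], Module.finrank ℚ K = m →
    ∀ (𝔪 : (Ideal (𝓞 K))⁰) (F : Finset (DM.Mul K)), (∀ χ ∈ F, IsRay K 𝔪 χ) →
      LSI K F ε C (classNumber K * RK K * nm K 𝔪) (Real.sqrt (DK K) * nm K 𝔪) := by
  classical
  obtain ⟨c, hc, htest⟩ := test_int m
  obtain ⟨CT, hCT, htype⟩ := type_mean m hm m (by omega) ε hε
  obtain ⟨Cg, hCg, hg0⟩ := g0_nice m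
  obtain ⟨CI, hCI, hiphi⟩ := iphi_bound m m (by omega)
  obtain ⟨C3, hC3, hhR⟩ := Pool.HDZ.hR_le m hm (ε / 2) (by positivity)
  refine ⟨(2 * 2 ^ m * CT * Cg ^ 2 + 2 * (2 ^ m) ^ 4 * CI ^ 2 * Cg ^ 2 * C3) / c ^ 2,
    by positivity, ?_⟩
  intro K _ _ hK 𝔪 F hF x hx a ha1 ha2
  obtain ⟨cK, hcK, hint'⟩ := htest K hK
  have hint := hint_one hint'
  obtain ⟨J, hJ⟩ := exists_reps K 𝔪
  have hcK0 : 0 ≤ cK := hc.le.trans hcK
  set Z : ℝ := max 1 (2 * x / 3) with hZ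
  have hZ1 : 1 ≤ Z := le_max_left _ _
  have hZ0 : 0 < Z := by linarith
  have hZX : Z ≤ x := max_le hx (by linarith)
  have hZX2 : 2 * x / 3 ≤ Z := le_max_right _ _
  have hrange : ∀ I : (Ideal (𝓞 K))⁰, x < nm K I → nm K I ≤ 2 * x →
      3 / 2 ≤ nm K I / Z ∧ nm K I / Z ≤ 3 := by
    intro I i1 i2
    constructor
    · rw [le_div_iff₀ hZ0]
      rcases max_choice 1 (2 * x / 3) with hmx | hmx
      · rw [hZ, hmx]
        have h2 : (1 : ℝ) < nm K I := lt_of_le_of_lt hx i1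
        have h3 : 1 < Ideal.absNorm (I : Ideal (𝓞 K)) := by
          have : ((1 : ℕ) : ℝ) < (Ideal.absNorm (I : Ideal (𝓞 K)) : ℝ) := by
            rw [Nat.cast_one]; exact h2
          exact_mod_cast this
        have h4 : (2 : ℝ) ≤ nm K I := by
          have : ((2 : ℕ) : ℝ) ≤ (Ideal.absNorm (I : Ideal (𝓞 K)) : ℝ) := by exact_mod_cast h3
          rw [Nat.cast_ofNat] at this
          exact this
        linarith
      · rw [hZ, hmx]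
        linarith
    · rw [div_le_iff₀ hZ0]
      linarith
  have ha3 : ∀ I, ‖a I‖ ≤ g0 ((nm K I / Z) ^ 2) := by
    intro I
    by_cases hI : a I = 0
    · rw [hI, norm_zero]
      exact g0_nonneg _
    · obtain ⟨e1, e2⟩ := ha2 I hI
      obtain ⟨e3, e4⟩ := hrange I e1 e2
      rw [g0_one (by nlinarith) (by nlinarith)]
      exact ha1 I
  have hfin : {I | a I ≠ 0}.Finite := (finite_le K (2 * x)).subset fun I hI => (ha2 I hI).2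
  have hB := bess K 𝔪 J hJ cK hcK0 hint F hF Z hZ0 a hfin 0 (Or.inl rfl)
  have htm := (htype K hK 𝔪 J hJ Cg g0 hg0 g0_nonneg Z hZ1).2
  set E : ClassGroup (𝓞 K) × Ty K 𝔪 → ℝ := fun p =>
    (∫⁻ t in FD K, TT K 𝔪 (J p.1) p.2 g0 (yy K (J p.1) Z) t).toReal with hE
  set T : ℝ := ∑ p : ClassGroup (𝓞 K) × Ty K 𝔪, |E p - MT K 𝔪 g0 Z| ^ 2 with hT
  have hcard : (Fintype.card (ClassGroup (𝓞 K) × Ty K 𝔪) : ℝ) =
      classNumber K * Fintype.card (Ty K 𝔪) := by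
    rw [Fintype.card_prod, Nat.cast_mul]
    rfl
  have hsum : ∑ p : ClassGroup (𝓞 K) × Ty K 𝔪, ‖EE K 𝔪 (J p.1) p.1 Z p.2 a - 0‖ ^ 2 ≤
      2 * T + 2 * ((classNumber K * Fintype.card (Ty K 𝔪)) * MT K 𝔪 g0 Z ^ 2) := by
    have h1 : ∀ p : ClassGroup (𝓞 K) × Ty K 𝔪, ‖EE K 𝔪 (J p.1) p.1 Z p.2 a - 0‖ ^ 2 ≤
        2 * |E p - MT K 𝔪 g0 Z| ^ 2 + 2 * MT K 𝔪 g0 Z ^ 2 := by
      intro p
      rw [sub_zero]
      have h2 : ‖EE K 𝔪 (J p.1) p.1 Z p.2 a‖ ≤ E p :=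
        EE_le K 𝔪 (J p.1) p.1 (hJ p.1).1 (hJ p.1).2 cK hint g0 g0_nonneg hg0.2.2 Z hZ0 p.2 a ha3
      have h3 : ‖EE K 𝔪 (J p.1) p.1 Z p.2 a‖ ^ 2 ≤ E p ^ 2 :=
        pow_le_pow_left₀ (norm_nonneg _) h2 2
      refine h3.trans ?_
      rw [sq_abs]
      nlinarith [sq_nonneg (E p - 2 * MT K 𝔪 g0 Z)]
    refine (Finset.sum_le_sum fun p _ => h1 p).trans (le_of_eq ?_)
    rw [Finset.sum_add_distrib, ← Finset.mul_sum, Finset.sum_const, nsmul_eq_mul,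
      Finset.card_univ, hcard]
    ring
  have hP0 : (0 : ℝ) ≤ classNumber K * Fintype.card (Ty K 𝔪) := by positivity
  have hB' : (torsionOrder K * cK) ^ 2 * ∑ χ ∈ F, ‖∑' I, a I * χ I‖ ^ 2 ≤
      (classNumber K * Fintype.card (Ty K 𝔪)) *
        (2 * T + 2 * ((classNumber K * Fintype.card (Ty K 𝔪)) * MT K 𝔪 g0 Z ^ 2)) :=
    hB.trans (mul_le_mul_of_nonneg_left hsum hP0)
  have hD : 1 ≤ DK K := HRaux.one_le_DK K
  have hs : 0 < Real.sqrt (DK K) := Real.sqrt_pos.mpr (by linarith)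
  have hN1 := one_le_nm' K 𝔪
  have hN : 0 < nm K 𝔪 := by linarith
  have hw : (0 : ℝ) < torsionOrder K := by exact_mod_cast torsionOrder_pos K
  have hPle : (classNumber K * Fintype.card (Ty K 𝔪) : ℝ) ≤ 2 ^ m * classNumber K * nm K 𝔪 := by
    have h1 := card_Ty_le K 𝔪
    rw [hK] at h1
    calc (classNumber K * Fintype.card (Ty K 𝔪) : ℝ) ≤ classNumber K * (2 ^ m * nm K 𝔪) :=
          mul_le_mul_of_nonneg_left h1 (Nat.cast_nonneg _)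
      _ = _ := by ring
  have hMT := MT_le K 𝔪 hK g0 Z (CI * Cg) hZ0.le (hiphi K hK Cg g0 hg0)
  have hYX : (Real.sqrt (DK K) * nm K 𝔪 * Z) ^ ε ≤ (Real.sqrt (DK K) * nm K 𝔪 * x) ^ ε :=
    Real.rpow_le_rpow (by positivity) (mul_le_mul_of_nonneg_left hZX (by positivity)) hε.le
  have hR' : (classNumber K : ℝ) * RK K ≤
      C3 * (Real.sqrt (DK K) * (Real.sqrt (DK K) * nm K 𝔪 * x) ^ ε) :=
    (hhR K hK).trans (mul_le_mul_of_nonneg_left (rpow_half K 𝔪 hε hx) hC3.le)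
  have hT' : T ≤ CT * Cg ^ 2 * (RK K * torsionOrder K * torsionOrder K) *
      (Real.sqrt (DK K) * nm K 𝔪 * Z) ^ ε * Z := by
    rw [reg_eq] at htm
    exact htm
  exact final1 (Q := Real.sqrt (DK K) * nm K 𝔪) hc hcK hw (HRaux.RK_nonneg K) hN hs rfl
    (Nat.cast_nonneg _) (by positivity) hP0 hPle hCT.le hCg.le hCI.le hC3.le hT' hMT hZ0.le hZX
    (by positivity) hYX hR' (Finset.sum_nonneg fun _ _ => by positivity) hB'

namespace RayAux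

theorem real_LSII (m : ℕ) (hm : 2 ≤ m) (k : ℕ) (hk : m + 1 ≤ 2 * k) (ε : ℝ) (hε : 0 < ε) :
    ∃ C : ℝ, 0 < C ∧
    ∀ (K : Type) [Field K] [NumberField K], Module.finrank ℚ K = m →
    ∀ (𝔪 : (Ideal (𝓞 K))⁰) (F : Finset (DM.Mul K)), (∀ χ ∈ F, IsRay K 𝔪 χ ∧ ¬ IsPrin K 𝔪 χ) →
    ∀ (G : ℝ) (g : ℝ → ℝ), NiceS k G g → (∀ u, 0 ≤ g u) → ∀ Z : ℝ, 1 ≤ Z →
      ∑ χ ∈ F, ‖∑' I, χ I * (g ((nm K I / Z) ^ 2) : ℂ)‖ ^ 2 ≤
        C * (classNumber K * RK K * nm K 𝔪) * G ^ 2 * Z *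
          (Real.sqrt (DK K) * nm K 𝔪 * Z) ^ ε := by
  classical
  obtain ⟨c, hc, htest⟩ := test_int m
  obtain ⟨CT, hCT, htype⟩ := type_mean m hm k hk ε hε
  refine ⟨2 ^ m * CT / c ^ 2, by positivity, ?_⟩
  intro K _ _ hK 𝔪 F hF G g hg hg0 Z hZ1
  obtain ⟨cK, hcK, hint'⟩ := htest K hK
  have hint := hint_one hint'
  obtain ⟨J, hJ⟩ := exists_reps K 𝔪
  have hcK0 : 0 ≤ cK := hc.le.trans hcK
  have hZ0 : 0 < Z := by linarith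
  have hfin : {I : (Ideal (𝓞 K))⁰ | (g ((nm K I / Z) ^ 2) : ℂ) ≠ 0}.Finite := by
    refine (fin_supp K (g := g) hg.2.2 Z hZ0).subset ?_
    intro I hI h
    exact hI (by rw [h, Complex.ofReal_zero])
  have hB := bess K 𝔪 J hJ cK hcK0 hint F (fun χ hχ => (hF χ hχ).1) Z hZ0
    (fun I => (g ((nm K I / Z) ^ 2) : ℂ)) hfin (MT K 𝔪 g Z : ℂ)
    (Or.inr fun χ hχ => (hF χ hχ).2)
  have htm := (htype K hK 𝔪 J hJ G g hg hg0 Z hZ1).2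
  have h1 : ∀ p : ClassGroup (𝓞 K) × Ty K 𝔪,
      ‖EE K 𝔪 (J p.1) p.1 Z p.2 (fun I => (g ((nm K I / Z) ^ 2) : ℂ)) - (MT K 𝔪 g Z : ℂ)‖ ^ 2 =
      |(∫⁻ t in FD K, TT K 𝔪 (J p.1) p.2 g (yy K (J p.1) Z) t).toReal - MT K 𝔪 g Z| ^ 2 := by
    intro p
    rw [EE_eq K 𝔪 (J p.1) p.1 (hJ p.1).1 (hJ p.1).2 cK hint g hg0 Z hZ0 p.2,
      ← Complex.ofReal_sub, Complex.norm_real, Real.norm_eq_abs]
  rw [Finset.sum_congr rfl fun p _ => h1 p] at hB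
  have h2 : ∀ χ ∈ F, ‖∑' I, χ I * (g ((nm K I / Z) ^ 2) : ℂ)‖ ^ 2 =
      ‖∑' I, (g ((nm K I / Z) ^ 2) : ℂ) * χ I‖ ^ 2 := by
    intro χ _
    congr 2
    exact tsum_congr fun I => mul_comm _ _
  rw [Finset.sum_congr rfl h2]
  have hP0 : (0 : ℝ) ≤ classNumber K * Fintype.card (Ty K 𝔪) := by positivity
  have hN1 := one_le_nm' K 𝔪
  have hN : 0 < nm K 𝔪 := by linarith
  have hw : (0 : ℝ) < torsionOrder K := by exact_mod_cast torsionOrder_pos K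
  have hPle : (classNumber K * Fintype.card (Ty K 𝔪) : ℝ) ≤ 2 ^ m * classNumber K * nm K 𝔪 := by
    have h1 := card_Ty_le K 𝔪
    rw [hK] at h1
    calc (classNumber K * Fintype.card (Ty K 𝔪) : ℝ) ≤ classNumber K * (2 ^ m * nm K 𝔪) :=
          mul_le_mul_of_nonneg_left h1 (Nat.cast_nonneg _)
      _ = _ := by ring
  rw [reg_eq] at htm
  exact final2 hc hcK hw (HRaux.RK_nonneg K) hP0 hPle hCT.le htm hZ0.le
    (by positivity) (Finset.sum_nonneg fun _ _ => by positivity) hB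

theorem four {a b c d : ℂ} : ‖a - b + (c - d) * Complex.I‖ ^ 2 ≤
    4 * (‖a‖ ^ 2 + ‖b‖ ^ 2 + ‖c‖ ^ 2 + ‖d‖ ^ 2) := by
  have h1 : ‖a - b + (c - d) * Complex.I‖ ≤ ‖a‖ + ‖b‖ + (‖c‖ + ‖d‖) := by
    refine (norm_add_le _ _).trans ?_
    rw [norm_mul, Complex.norm_I, mul_one]
    exact add_le_add (norm_sub_le _ _) (norm_sub_le _ _)
  have h2 : ‖a - b + (c - d) * Complex.I‖ ^ 2 ≤ (‖a‖ + ‖b‖ + (‖c‖ + ‖d‖)) ^ 2 :=
    pow_le_pow_left₀ (norm_nonneg _) h1 2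
  nlinarith [sq_nonneg (‖a‖ - ‖b‖), sq_nonneg (‖a‖ - ‖c‖), sq_nonneg (‖a‖ - ‖d‖),
    sq_nonneg (‖b‖ - ‖c‖), sq_nonneg (‖b‖ - ‖d‖), sq_nonneg (‖c‖ - ‖d‖)]

end RayAux

theorem ray_LSII (m : ℕ) (hm : 2 ≤ m) (k : ℕ) (hk : m + 1 ≤ 2 * k) (ε : ℝ) (hε : 0 < ε) :
    ∃ C : ℝ, 0 < C ∧
    ∀ (K : Type) [Field K] [NumberField K], Module.finrank ℚ K = m →
    ∀ (𝔪 : (Ideal (𝓞 K))⁰) (F : Finset (DM.Mul K)), (∀ χ ∈ F, IsRay K 𝔪 χ ∧ ¬ IsPrin K 𝔪 χ) →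
      LSII K F k ε C (classNumber K * RK K * nm K 𝔪) (Real.sqrt (DK K) * nm K 𝔪) := by
  obtain ⟨C, hC, hreal⟩ := real_LSII m hm k hk ε hε
  obtain ⟨Cg, hCg, hg0⟩ := g0_nice k
  refine ⟨16 * C * (1 + Cg) ^ 2, by positivity, ?_⟩
  intro K _ _ hK 𝔪 F hF G g hg Z hZ1
  have hZ0 : 0 < Z := by linarith
  have hG : 0 ≤ G := (norm_nonneg _).trans (hg.2.1 0 (Nat.zero_le _) 0)
  have hre : NiceI k G (fun v => Complex.reCLM (g v)) :=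
    niceI_comp hg Complex.reCLM (by rw [Complex.reCLM_norm])
  have him : NiceI k G (fun v => Complex.imCLM (g v)) :=
    niceI_comp hg Complex.imCLM (by rw [Complex.imCLM_norm])
  obtain ⟨hp, hp0⟩ := nice_add hre hg0
  obtain ⟨hq, hq0⟩ := nice_add him hg0
  have hn := nice_smul hG hg0
  have hn0 : ∀ v, 0 ≤ G * g0 v := fun v => mul_nonneg hG (g0_nonneg v)
  set f1 : ℝ → ℝ := fun v => Complex.reCLM (g v) + G * g0 v with hf1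
  set f2 : ℝ → ℝ := fun v => Complex.imCLM (g v) + G * g0 v with hf2
  set f3 : ℝ → ℝ := fun v => G * g0 v with hf3
  have e1 := hreal K hK 𝔪 F hF _ _ hp hp0 Z hZ1
  have e2 := hreal K hK 𝔪 F hF _ _ hq hq0 Z hZ1
  have e3 := hreal K hK 𝔪 F hF _ _ hn hn0 Z hZ1
  set B : ℝ := C * (classNumber K * RK K * nm K 𝔪) * (G * (1 + Cg)) ^ 2 * Z *
          (Real.sqrt (DK K) * nm K 𝔪 * Z) ^ ε with hB
  have hRK := HRaux.RK_nonneg K
  have hN1 := one_le_nm' K 𝔪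
  have hN : 0 < nm K 𝔪 := by linarith
  have e3' : ∑ χ ∈ F, ‖∑' I, χ I * (f3 ((nm K I / Z) ^ 2) : ℂ)‖ ^ 2 ≤ B := by
    refine e3.trans ?_
    rw [hB]
    have h1 : (G * Cg) ^ 2 ≤ (G * (1 + Cg)) ^ 2 := by
      refine pow_le_pow_left₀ (by positivity) ?_ 2
      exact mul_le_mul_of_nonneg_left (by linarith) hG
    gcongr
  have hs1 : ∀ (χ : DM.Mul K) (f : ℝ → ℝ), (∀ u, (u ≤ 1 ∨ 16 ≤ u) → f u = 0) →
      Summable (fun I : (Ideal (𝓞 K))⁰ => χ I * (f ((nm K I / Z) ^ 2) : ℂ)) := by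
    intro χ f hf
    exact summ K χ (g := fun u => (f u : ℂ)) (fun u hu => by rw [hf u hu, Complex.ofReal_zero]) Z hZ0
  have hdec : ∀ χ : DM.Mul K, ∑' I, χ I * g ((nm K I / Z) ^ 2) =
      ∑' I, χ I * (f1 ((nm K I / Z) ^ 2) : ℂ) - ∑' I, χ I * (f3 ((nm K I / Z) ^ 2) : ℂ) +
      (∑' I, χ I * (f2 ((nm K I / Z) ^ 2) : ℂ) - ∑' I, χ I * (f3 ((nm K I / Z) ^ 2) : ℂ)) *
        Complex.I := by
    intro χ
    have a1 := hs1 χ f1 hp.2.2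
    have a2 := hs1 χ f2 hq.2.2
    have a3 := hs1 χ f3 hn.2.2
    rw [← a1.tsum_sub a3, ← a2.tsum_sub a3, ← tsum_mul_right,
      ← (a1.sub a3).tsum_add ((a2.sub a3).mul_right _)]
    refine tsum_congr fun I => ?_
    rw [hf1, hf2, hf3]
    simp only [Complex.reCLM_apply, Complex.imCLM_apply]
    push_cast
    have h1 := Complex.re_add_im (g ((nm K I / Z) ^ 2))
    linear_combination (-(χ I)) * h1
  have h4 : ∀ χ ∈ F, ‖∑' I, χ I * g ((nm K I / Z) ^ 2)‖ ^ 2 ≤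
      4 * (‖∑' I, χ I * (f1 ((nm K I / Z) ^ 2) : ℂ)‖ ^ 2 +
        ‖∑' I, χ I * (f3 ((nm K I / Z) ^ 2) : ℂ)‖ ^ 2 +
        ‖∑' I, χ I * (f2 ((nm K I / Z) ^ 2) : ℂ)‖ ^ 2 +
        ‖∑' I, χ I * (f3 ((nm K I / Z) ^ 2) : ℂ)‖ ^ 2) := by
    intro χ _
    rw [hdec χ]
    exact four
  refine (Finset.sum_le_sum h4).trans ?_
  rw [← Finset.mul_sum, Finset.sum_add_distrib, Finset.sum_add_distrib, Finset.sum_add_distrib]
  have h5 : 4 * (∑ χ ∈ F, ‖∑' I, χ I * (f1 ((nm K I / Z) ^ 2) : ℂ)‖ ^ 2 +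
        ∑ χ ∈ F, ‖∑' I, χ I * (f3 ((nm K I / Z) ^ 2) : ℂ)‖ ^ 2 +
        ∑ χ ∈ F, ‖∑' I, χ I * (f2 ((nm K I / Z) ^ 2) : ℂ)‖ ^ 2 +
        ∑ χ ∈ F, ‖∑' I, χ I * (f3 ((nm K I / Z) ^ 2) : ℂ)‖ ^ 2) ≤ 16 * B := by
    linarith
  refine h5.trans (le_of_eq ?_)
  rw [hB]
  ring

end Pool.RC
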