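import Pool.Agent.RC.Defs
import Pool.Agent.HDZ.UnfoldNeg
import Pool.Agent.ZD.ClassSum

/-!
# Module UNFW: unfolding with weights depending on the principal ideal

PAPER PROOF. Same as `unfold` (`Pool/Agent/ZD/Unfold.lean`) followed by `class_sum` (`Pool/Agent/ZD/ClassSum.lean`), with a
weight `h (pr x)` that depends only on the ideal `(x)`. In `unfold`, the bijection `um : idealSet × unitLattice → NZ K J` satisfies
`pr (um (x, ℓ)) = pr (pre x)` (`um (x, ℓ)` is `pre x` times a unit), so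
`∑_{x ∈ NZ J} h (pr x) ∫_{FD} Gf (sg t x) = ∑_{x ∈ idealSet} h (pr (pre x)) ∫ Gf (sg t x) = ∑_{x ∈ idealSet} h (pr (pre x)) H (norm x)`; in `class_sum`
(equivalences `eq1`, `eq2` there) the elements `x` of `idealSet` correspond to pairs (principal ideal `(x) = I J` divisible by `J`, root of unity), with
`norm x = N (x) = N(I) N(J)`, and `I` runs over the integral ideals of class `A` (`mk0 J = A⁻¹`).
-/

open scoped NumberField nonZeroDivisors ENNReal
open NumberField NumberField.InfinitePlace NumberField.mixedEmbedding NumberField.Units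
  NumberField.Units.dirichletUnitTheorem MeasureTheory Pool.ZD Pool.HDZ Pool.DM

namespace Pool.RC

variable (K : Type) [Field K] [NumberField K]

namespace UnfAux

open UnfoldAux ClassSum NumberField.mixedEmbedding.fundamentalCone

variable (J : (Ideal (𝓞 K))⁰)

theorem coe_pr' (x : 𝓞 K) (hx : x ≠ 0) : (pr K x : Ideal (𝓞 K)) = Ideal.span {x} := by
  unfold pr
  rw [dif_neg hx]

theorem pr_um (q : idealSet K J × unitLattice K) :
    pr K ((um K J q : NZ K J) : 𝓞 K) = pr K (pre K J q.1) := by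
  apply Subtype.ext
  rw [coe_pr' K _ (um K J q).2.2, coe_pr' K _ (pre_ne K J q.1)]
  change Ideal.span {(uu K q.2 : 𝓞 K) * pre K J q.1} = _
  exact Ideal.span_singleton_mul_left_unit (uu K q.2).isUnit _

theorem pre_eq (x : idealSet K J) :
    (preimageOfMemIntegerSet (idealSetEquiv K J x).1 : 𝓞 K) = pre K J x := by
  apply RingOfIntegers.coe_injective
  apply mixedEmbedding_injective K
  rw [emb_pre K J x]
  exact mixedEmbedding_preimageOfMemIntegerSet _

theorem eq1_pr (x : idealSet K J) : (eq1 K J x).1.1.1 = pr K (pre K J x) := by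
  apply Subtype.ext
  rw [coe_pr' K _ (pre_ne K J x), ← pre_eq K J x]
  rfl

end UnfAux

open UnfAux UnfoldAux ClassSum

open scoped Classical in
theorem unfoldW (J : (Ideal (𝓞 K))⁰) (A : ClassGroup (𝓞 K)) (hJ : ClassGroup.mk0 J = A⁻¹)
    (h : (Ideal (𝓞 K))⁰ → ℝ≥0∞) (Gf : mixedSpace K → ℝ≥0∞) (hG : Measurable Gf)
    (hGn : ∀ x y : mixedSpace K, (∀ w, normAtPlace w x = normAtPlace w y) → Gf x = Gf y)
    (H : ℝ → ℝ≥0∞) (hH : ∀ x : mixedSpace K, mixedEmbedding.norm x ≠ 0 →
      ∫⁻ t : logSpace K, Gf (sg K t * x) = H (mixedEmbedding.norm x)) :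
    ∑' x : NZ K J, h (pr K (x : 𝓞 K)) *
      ∫⁻ t in FD K, Gf (sg K t * mixedEmbedding K ((x : 𝓞 K) : K)) =
      torsionOrder K * ∑' I : Cls K A, h ((I : (Ideal (𝓞 K))⁰) * J) * H (nm K I * nm K J) := by
  have hfd : IsAddFundamentalDomain (unitLattice K) (FD K) (volume : Measure (logSpace K)) :=
    ZLattice.isAddFundamentalDomain (basisUnitLattice K) volume
  have hinv : VAddInvariantMeasure (unitLattice K) (logSpace K) volume :=
    ⟨fun c s _ => measure_preimage_add volume (c : logSpace K) s⟩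
  have h1 : ∀ x : fundamentalCone.idealSet K J,
      H (mixedEmbedding.norm (x : mixedSpace K)) =
        ∑' ℓ : unitLattice K, ∫⁻ t in FD K,
          Gf (sg K t * mixedEmbedding K ((um K J (x, ℓ) : 𝓞 K) : K)) := by
    intro x
    rw [← hH _ (norm_ne K J x),
      hfd.lintegral_eq_tsum'' (fun t => Gf (sg K t * (x : mixedSpace K)))]
    apply tsum_congr
    intro ℓ
    apply lintegral_congr
    intro t
    apply hGn
    intro w
    have h2 : ℓ +ᵥ t = (ℓ : logSpace K) + t := rfl
    rw [h2, emb_um, normAtPlace_sg_mul, normAtPlace_sg_mul, sc_add, unitSMul_smul, map_mul,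
      normAtPlace_apply, ← log_uu K ℓ, sc_logEmbedding]
    ring
  have h2 : ∑' x : NZ K J, h (pr K (x : 𝓞 K)) *
      ∫⁻ t in FD K, Gf (sg K t * mixedEmbedding K ((x : 𝓞 K) : K)) =
      ∑' x : fundamentalCone.idealSet K J,
        h (pr K (pre K J x)) * H (mixedEmbedding.norm (x : mixedSpace K)) := by
    rw [← (Equiv.ofBijective (um K J) (um_bij K J)).tsum_eq, ENNReal.tsum_prod']
    apply tsum_congr
    intro x
    rw [h1 x, ← ENNReal.tsum_mul_left]
    apply tsum_congr
    intro ℓ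
    change h (pr K ((um K J (x, ℓ) : NZ K J) : 𝓞 K)) * _ = _
    rw [pr_um K J (x, ℓ)]
    rfl
  have h3 : ∑' x : fundamentalCone.idealSet K J,
        h (pr K (pre K J x)) * H (mixedEmbedding.norm (x : mixedSpace K)) =
      ∑' p : PD K J × torsion K, h p.1.1.1 * H (nm K p.1.1.1) := by
    rw [← (eq1 K J).tsum_eq (fun p => h p.1.1.1 * H (nm K p.1.1.1))]
    refine tsum_congr fun x => ?_
    rw [eq1_norm, eq1_pr]
  have h4 : ∑' I : Cls K A, h ((I : (Ideal (𝓞 K))⁰) * J) * H (nm K I * nm K J) =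
      ∑' I : PD K J, h I.1.1 * H (nm K I.1.1) := by
    rw [← (eq2 K J A hJ).tsum_eq (fun I => h I.1.1 * H (nm K I.1.1))]
    refine tsum_congr fun I => ?_
    have h5 : ((eq2 K J A hJ I).1.1 : (Ideal (𝓞 K))⁰) = J * I.1 := rfl
    rw [eq2_norm, h5, mul_comm J I.1]
  rw [h2, h3, h4, ENNReal.tsum_prod', ← ENNReal.tsum_mul_left]
  refine tsum_congr fun I => ?_
  have : Fintype (torsion K) := Fintype.ofFinite _
  change ∑' _ : torsion K, h I.1.1 * H (nm K I.1.1) = _
  rw [tsum_fintype, Finset.sum_const, Finset.card_univ, nsmul_eq_mul, torsionOrder,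
    Nat.card_eq_fintype_card]

end Pool.RC
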